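import Pool.Agent.Lib.MP_4960b8_pr.RN.Lam

/-! Stability of the boundary value problem. -/

namespace Pool.Agent.Lib.MP_4960b8_pr.RN

open Real QK

lemma cauchy_e1 (m x τ : ℝ) : ((m : ℂ) * Complex.exp (Complex.I * pt x τ)).im =
    m * (exp (-τ) * sin x) := by
  rw [Complex.im_ofReal_mul, Complex.exp_im]
  simp [pt]

lemma cauchy_e2 (m x τ : ℝ) : ((m : ℂ) * -Complex.exp (-(2 * Complex.I * pt x τ / 3))).im =
    m * (exp (2 * τ / 3) * sin (2 * x / 3)) := by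
  have e1 : (-(2 * Complex.I * pt x τ / 3)).re = 2 * τ / 3 := by simp [pt]; ring
  have e2 : (-(2 * Complex.I * pt x τ / 3)).im = -(2 * x / 3) := by simp [pt]
  rw [Complex.im_ofReal_mul, Complex.neg_im, Complex.exp_im, e1, e2, sin_neg]
  ring

lemma cauchy_e4 (w : ℂ) (x τ : ℝ) : (w * Complex.exp (-(4 * Complex.I * pt x τ / 3))).im =
    exp (4 * τ / 3) * (w.im * cos (4 * x / 3) - w.re * sin (4 * x / 3)) := by
  have e1 : (-(4 * Complex.I * pt x τ / 3)).re = 4 * τ / 3 := by simp [pt]; ring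
  have e2 : (-(4 * Complex.I * pt x τ / 3)).im = -(4 * x / 3) := by simp [pt]
  rw [Complex.mul_im, Complex.exp_im, Complex.exp_re, e1, e2, sin_neg, cos_neg]
  ring

lemma cauchy_trig {x : ℝ} (h0 : 0 ≤ x) (h1 : x ≤ 3 * π / 4) : 0 ≤ sin (2 * x / 3) ∧
    sin x ≤ 1.5 * sin (2 * x / 3) ∧ 0.7 * sin (2 * x / 3) ≤ sin x := by
  obtain ⟨t0, t1, t2, -⟩ := anae_trig (u := x / 3) (by linarith) (by linarith)
  rw [show 3 * (x / 3) = x by ring] at t1 t2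
  rw [← mul_div_assoc] at t0 t1 t2
  exact ⟨t0, t1, t2⟩

lemma cauchy_pow (n : ℕ) {a b : ℝ} (h : a = n * b) : exp a = exp b ^ n := by
  rw [h, exp_nat_mul]

lemma cauchy_w2 (τ : ℝ) : exp (-2 * τ / 3) = exp (-τ / 3) ^ 2 :=
  cauchy_pow 2 (by push_cast; ring)

lemma cauchy_w3 (τ : ℝ) : exp (-τ) = exp (-τ / 3) ^ 3 := cauchy_pow 3 (by push_cast; ring)

lemma cauchy_w4 (τ : ℝ) : tt τ = exp (-τ / 3) ^ 4 / 4 := by
  rw [tt, cauchy_pow 4 (b := -τ / 3) (by push_cast; ring)]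

/-- the facts on the difference of two solutions -/
structure cauchyD (D : ℂ → ℂ) (L M : ℝ) : Prop where
  hol : DifferentiableOn ℂ D Ust
  left : ∀ τ, (D (pt 0 τ)).im = 0
  im : ∀ x τ, 0 ≤ x → x ≤ 3 * π / 4 → -L ≤ τ →
    |(D (pt x τ)).im| ≤ 1.5 * (exp (-2 * τ / 3) * sin (2 * x / 3))
  dual : ∀ x τ, 0 ≤ x → x ≤ 3 * π / 4 → -L ≤ τ →
    |(D (pt x τ) * Complex.exp (-(4 * Complex.I * pt x τ / 3))).im| ≤
      2.5 * (exp (2 * τ / 3) * sin (2 * x / 3))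
  pos : 0 ≤ M
  right : ∀ τ, -L ≤ τ → |(D (pt (3 * π / 4) τ)).im| ≤ M * exp (-2 * τ / 3)

section D

variable {D : ℂ → ℂ} {L M x τ : ℝ}

lemma cauchyD.neg (h : cauchyD D L M) : cauchyD (fun z => -D z) L M :=
  ⟨h.hol.neg, fun τ => by rw [Complex.neg_im, h.left, neg_zero],
    fun x τ a b c => by rw [Complex.neg_im, abs_neg]; exact h.im x τ a b c,
    fun x τ a b c => by rw [neg_mul, Complex.neg_im, abs_neg]; exact h.dual x τ a b c, h.pos,
    fun τ a => by rw [Complex.neg_im, abs_neg]; exact h.right τ a⟩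

lemma cauchyD.P1 (h : cauchyD D L M) (h0 : 0 ≤ x) (h1 : x ≤ 3 * π / 4) (hτ : -L ≤ τ) :
    -(D (pt x τ)).im ≤ M * (exp (-2 * τ / 3) * sin (2 * x / 3)) +
      2.2 * exp (-L / 3) * (exp (-τ) * sin x) := by
  have e : ∀ x τ, ((M : ℂ) * Complex.exp (2 * Complex.I * pt x τ / 3) +
      ((2.2 * exp (-L / 3) : ℝ) : ℂ) * Complex.exp (Complex.I * pt x τ) + D (pt x τ)).im =
      M * (exp (-2 * τ / 3) * sin (2 * x / 3)) + 2.2 * exp (-L / 3) * (exp (-τ) * sin x) +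
        (D (pt x τ)).im := fun x τ => by
    rw [Complex.add_im, Complex.add_im, anaa_e, cauchy_e1]
  have hM := h.pos
  have key := mp_half (g := fun z => (M : ℂ) * Complex.exp (2 * Complex.I * z / 3) +
      ((2.2 * exp (-L / 3) : ℝ) : ℂ) * Complex.exp (Complex.I * z) + D z)
    (DifferentiableOn.add (by fun_prop) h.hol) (t₀ := -L) (L := max 0 (-L)) (C := 1.5)
    (fun τ _ => by rw [e]; simp [h.left]) (fun τ hτ => ?_) (fun x h0 h1 => ?_)
    (fun x τ h0 h1 hτ => ?_) h0 h1 hτ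
  · rw [e] at key
    linarith
  · rw [e, anae_s3, mul_one]
    obtain ⟨t0, -, t2⟩ := cauchy_trig (x := 3 * π / 4) (by positivity) le_rfl
    have t3 : 0 ≤ sin (3 * π / 4) := by linarith
    have : 0 ≤ 2.2 * exp (-L / 3) * (exp (-τ) * sin (3 * π / 4)) := by positivity
    linarith [(abs_le.1 (h.right τ hτ)).1]
  · rw [e]
    obtain ⟨t0, -, t2⟩ := cauchy_trig h0 h1
    have a1 := (abs_le.1 (h.im x (-L) h0 h1 le_rfl)).1
    have a2 : exp (-L / 3) * exp (- -L) = exp (-2 * -L / 3) := by rw [← exp_add]; congr 1; ring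
    have a3 := mul_le_mul_of_nonneg_left t2 (exp_pos (-2 * -L / 3)).le
    have a4 : 0 ≤ exp (-2 * -L / 3) * sin (2 * x / 3) := by positivity
    rw [mul_assoc 2.2, ← mul_assoc (exp (-L / 3)), a2]
    nlinarith
  · rw [e]
    obtain ⟨t0, -, t2⟩ := cauchy_trig h0 h1
    have t3 : 0 ≤ sin x := by linarith
    have a1 := (abs_le.1 (h.im x τ h0 h1 ((le_max_right _ _).trans hτ))).1
    have a2 : 0 ≤ τ := (le_max_left _ _).trans hτ
    have a3 : exp (-2 * τ / 3) * sin (2 * x / 3) ≤ exp (2 * τ / 3) :=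
      (mul_le_of_le_one_right (exp_pos _).le (sin_le_one _)).trans (exp_le_exp.2 (by linarith))
    have a4 : 0 ≤ M * (exp (-2 * τ / 3) * sin (2 * x / 3)) := by positivity
    have a5 : 0 ≤ 2.2 * exp (-L / 3) * (exp (-τ) * sin x) := by positivity
    linarith

lemma cauchyD.P (h : cauchyD D L M) (h0 : 0 ≤ x) (h1 : x ≤ 3 * π / 4) (hτ : -L ≤ τ) :
    |(D (pt x τ)).im| ≤ M * (exp (-2 * τ / 3) * sin (2 * x / 3)) +
      2.2 * exp (-L / 3) * (exp (-τ) * sin x) := by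
  have a1 := h.P1 h0 h1 hτ
  have a2 := h.neg.P1 h0 h1 hτ
  rw [Complex.neg_im, neg_neg] at a2
  exact abs_le.2 ⟨by linarith, a2⟩

lemma cauchyD.N1 (h : cauchyD D L M) (h0 : 0 ≤ x) (h1 : x ≤ 3 * π / 4) (hτ : -L ≤ τ) :
    -(D (pt x τ) * Complex.exp (-(4 * Complex.I * pt x τ / 3))).im ≤
      M * (exp (2 * τ / 3) * sin (2 * x / 3)) + 3.6 * exp (-5 * L / 3) * (exp (-τ) * sin x) := by
  have e : ∀ x τ, ((M : ℂ) * -Complex.exp (-(2 * Complex.I * pt x τ / 3)) +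
      ((3.6 * exp (-5 * L / 3) : ℝ) : ℂ) * Complex.exp (Complex.I * pt x τ) +
      D (pt x τ) * Complex.exp (-(4 * Complex.I * pt x τ / 3))).im =
      M * (exp (2 * τ / 3) * sin (2 * x / 3)) + 3.6 * exp (-5 * L / 3) * (exp (-τ) * sin x) +
        (D (pt x τ) * Complex.exp (-(4 * Complex.I * pt x τ / 3))).im := fun x τ => by
    rw [Complex.add_im, Complex.add_im, cauchy_e2, cauchy_e1]
  have hM := h.pos
  have key := mp_half (g := fun z => (M : ℂ) * -Complex.exp (-(2 * Complex.I * z / 3)) +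
      ((3.6 * exp (-5 * L / 3) : ℝ) : ℂ) * Complex.exp (Complex.I * z) +
      D z * Complex.exp (-(4 * Complex.I * z / 3)))
    (DifferentiableOn.add (by fun_prop) (h.hol.mul (by fun_prop))) (t₀ := -L) (L := -L) (C := 2.5)
    (fun τ _ => by rw [e, cauchy_e4]; simp [h.left]) (fun τ hτ => ?_) (fun x h0 h1 => ?_)
    (fun x τ h0 h1 hτ => ?_) h0 h1 hτ
  · rw [e] at key
    linarith
  · rw [e, anae_s3, mul_one, cauchy_e4, show 4 * (3 * π / 4) / 3 = π by ring, cos_pi, sin_pi]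
    obtain ⟨t0, -, t2⟩ := cauchy_trig (x := 3 * π / 4) (by positivity) le_rfl
    have t3 : 0 ≤ sin (3 * π / 4) := by linarith
    have : 0 ≤ 3.6 * exp (-5 * L / 3) * (exp (-τ) * sin (3 * π / 4)) := by positivity
    have a1 := mul_le_mul_of_nonneg_left (abs_le.1 (h.right τ hτ)).2 (exp_pos (4 * τ / 3)).le
    have a2 : exp (4 * τ / 3) * exp (-2 * τ / 3) = exp (2 * τ / 3) := by
      rw [← exp_add]; congr 1; ring
    rw [mul_left_comm, a2] at a1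
    linarith
  · rw [e]
    obtain ⟨t0, -, t2⟩ := cauchy_trig h0 h1
    have a1 := (abs_le.1 (h.dual x (-L) h0 h1 le_rfl)).1
    have a2 : exp (-5 * L / 3) * exp (- -L) = exp (2 * -L / 3) := by rw [← exp_add]; congr 1; ring
    have a3 := mul_le_mul_of_nonneg_left t2 (exp_pos (2 * -L / 3)).le
    have a4 : 0 ≤ exp (2 * -L / 3) * sin (2 * x / 3) := by positivity
    rw [mul_assoc 3.6, ← mul_assoc (exp (-5 * L / 3)), a2]
    nlinarith
  · rw [e]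
    obtain ⟨t0, -, t2⟩ := cauchy_trig h0 h1
    have t3 : 0 ≤ sin x := by linarith
    have a1 := (abs_le.1 (h.dual x τ h0 h1 hτ)).1
    have a3 : exp (2 * τ / 3) * sin (2 * x / 3) ≤ exp (2 * τ / 3) :=
      mul_le_of_le_one_right (exp_pos _).le (sin_le_one _)
    have a4 : 0 ≤ M * (exp (2 * τ / 3) * sin (2 * x / 3)) := by positivity
    have a5 : 0 ≤ 3.6 * exp (-5 * L / 3) * (exp (-τ) * sin x) := by positivity
    linarith

lemma cauchyD.N (h : cauchyD D L M) (h0 : 0 ≤ x) (h1 : x ≤ 3 * π / 4) (hτ : -L ≤ τ) :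
    |(D (pt x τ) * Complex.exp (-(4 * Complex.I * pt x τ / 3))).im| ≤
      M * (exp (2 * τ / 3) * sin (2 * x / 3)) + 3.6 * exp (-5 * L / 3) * (exp (-τ) * sin x) := by
  have a1 := h.N1 h0 h1 hτ
  have a2 := h.neg.N1 h0 h1 hτ
  rw [neg_mul, Complex.neg_im, neg_neg] at a2
  exact abs_le.2 ⟨by linarith, a2⟩

/-- the two inequalities on the middle line -/
lemma cauchyD.mid (h : cauchyD D L M) (hτ : -L ≤ τ) {k : ℝ}
    (hk : exp (-L / 3) * exp (-τ / 3) ≤ k) :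
    |2 * (D (pt (π / 4) τ)).im| ≤ (M + 5.2 * k) * exp (-τ / 3) ^ 2 ∧
    |(D (pt (π / 4) τ)).im - √3 * (D (pt (π / 4) τ)).re| ≤ (M + 5.2 * k) * exp (-τ / 3) ^ 2 := by
  have hp := pi_pos
  have a1 := h.P (x := π / 4) (by positivity) (by linarith) hτ
  have a2 := h.N (x := π / 4) (by positivity) (by linarith) hτ
  have k1 : exp (-L / 3) * exp (-τ / 3) ≤ 1 := by
    rw [← exp_add]; exact exp_le_one_iff.2 (by linarith)
  have e4 : exp (4 * τ / 3) * exp (-τ / 3) ^ 4 = 1 := by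
    rw [← exp_nat_mul, ← exp_add, ← exp_zero]; congr 1; push_cast; ring
  have e2 : exp (2 * τ / 3) * exp (-τ / 3) ^ 2 = 1 := by
    rw [← exp_nat_mul, ← exp_add, ← exp_zero]; congr 1; push_cast; ring
  rw [cauchy_e4, show 4 * (π / 4) / 3 = π / 3 by ring, cos_pi_div_three, sin_pi_div_three, abs_mul,
    abs_of_pos (exp_pos _), cauchy_pow 5 (a := -5 * L / 3) (b := -L / 3) (by push_cast; ring)] at a2
  rw [anae_s1, sin_pi_div_four, cauchy_w3] at a1 a2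
  rw [cauchy_w2] at a1
  have w0 := exp_pos (-τ / 3)
  have r0 := exp_pos (-L / 3)
  generalize exp (-τ / 3) = w at *
  generalize exp (-L / 3) = ρ at *
  have q2 : √2 ≤ 1.42 := sqrt_le_iff.2 ⟨by norm_num, by norm_num⟩
  have k0 : 0 < ρ * w := by positivity
  have w2 : 0 < w ^ 2 := by positivity
  constructor
  · rw [abs_mul, abs_two]
    have c1 : √2 * (ρ * w) ≤ 1.42 * k := mul_le_mul q2 hk k0.le (by norm_num)
    have c2 := mul_le_mul_of_nonneg_right c1 w2.le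
    have c3 : 0 ≤ k * w ^ 2 := mul_nonneg (k0.le.trans hk) w2.le
    nlinarith
  · have b1 := mul_le_mul_of_nonneg_left a2 (show 0 ≤ 2 * w ^ 4 by positivity)
    have b2 : |(D (pt (π / 4) τ)).im - √3 * (D (pt (π / 4) τ)).re| =
        2 * |(D (pt (π / 4) τ)).im * (1 / 2) - (D (pt (π / 4) τ)).re * (√3 / 2)| := by
      rw [← abs_two, ← abs_mul]; congr 1; ring
    have c0 : (ρ * w) ^ 5 ≤ k := (pow_le_of_le_one k0.le k1 (by norm_num)).trans hk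
    have c1 : √2 * (ρ * w) ^ 5 ≤ 1.42 * k := mul_le_mul q2 c0 (by positivity) (by norm_num)
    have c2 := mul_le_mul_of_nonneg_right c1 w2.le
    have c3 : 0 ≤ k * w ^ 2 := mul_nonneg (k0.le.trans hk) w2.le
    rw [b2]
    generalize |(D (pt (π / 4) τ)).im * (1 / 2) - (D (pt (π / 4) τ)).re * (√3 / 2)| = A at b1 ⊢
    have c4 : 2 * w ^ 4 * (exp (4 * τ / 3) * A) = 2 * A := by linear_combination 2 * A * e4
    have c5 : 2 * w ^ 4 * (M * (exp (2 * τ / 3) * (1 / 2))) = M * w ^ 2 := by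
      linear_combination M * w ^ 2 * e2
    rw [mul_add, c4, c5] at b1
    nlinarith

end D

lemma cauchy_alg {u v A a b : ℝ} (h1 : |2 * v| ≤ A) (h2 : |v - √3 * u| ≤ A)
    (hab : a ^ 2 + b ^ 2 ≤ 1) (hr : |a / 2 + √3 / 2 * b| ≤ 0.58) :
    |a * v + b * u| ≤ 0.58 * A ∧ u ^ 2 + v ^ 2 ≤ A ^ 2 := by
  have s3 := anab_s3
  have lo := anab_s3_lo
  obtain ⟨p, hp⟩ : ∃ p, p = (√3 * u + v) / 2 := ⟨_, rfl⟩
  obtain ⟨q, hq⟩ : ∃ q, q = (√3 * v - u) / 2 := ⟨_, rfl⟩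
  have e1 : 2 * v = p + √3 * q := by rw [hp, hq]; linear_combination (-v / 2) * s3
  have e2 : v - √3 * u = √3 * q - p := by rw [hp, hq]; linear_combination (-v / 2) * s3
  rw [e1, abs_le] at h1
  rw [e2, abs_le] at h2
  have h3 : |p| + √3 * |q| ≤ A := by
    rcases abs_cases p with a | a <;> rcases abs_cases q with b | b <;> rw [a.1, b.1] <;>
      linarith [h1.1, h1.2, h2.1, h2.2]
  have p0 := abs_nonneg p
  have q0 := abs_nonneg q
  have h4 := mul_le_mul_of_nonneg_right lo.le q0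
  constructor
  · have e3 : a * v + b * u = p * (a / 2 + √3 / 2 * b) + q * (√3 / 2 * a - b / 2) := by
      rw [hp, hq]; linear_combination (-(a * v + b * u) / 4) * s3
    have h5 : |√3 / 2 * a - b / 2| ≤ 1 := by
      rw [← sq_le_one_iff_abs_le_one]
      have : (√3 / 2 * a - b / 2) ^ 2 + (a / 2 + √3 / 2 * b) ^ 2 = a ^ 2 + b ^ 2 := by
        linear_combination ((a ^ 2 + b ^ 2) / 4) * s3
      linarith [sq_nonneg (a / 2 + √3 / 2 * b)]
    rw [e3]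
    refine (abs_add_le _ _).trans ?_
    rw [abs_mul, abs_mul]
    have h6 := mul_le_mul_of_nonneg_left hr p0
    have h7 := mul_le_mul_of_nonneg_left h5 q0
    linarith
  · have e3 : u ^ 2 + v ^ 2 = |p| ^ 2 + |q| ^ 2 := by
      rw [sq_abs, sq_abs, hp, hq]; linear_combination (-(u ^ 2 + v ^ 2) / 4) * s3
    have h5 : (|p| + |q|) ^ 2 ≤ A ^ 2 := pow_le_pow_left₀ (by positivity) (by linarith) 2
    nlinarith [mul_nonneg p0 q0]

lemma cauchy_fix {f : ℝ → ℝ} {L B κ : ℝ} (h0 : ∀ τ, 0 ≤ f τ) (hB : ∀ τ, -L ≤ τ → f τ ≤ B)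
    (h : ∀ M, 0 ≤ M → (∀ τ, -L ≤ τ → f τ ≤ M) → ∀ τ, -L ≤ τ → f τ ≤ 0.58 * M + κ) :
    ∃ M, 0 ≤ M ∧ (∀ τ, -L ≤ τ → f τ ≤ M) ∧ 0.42 * M ≤ κ := by
  have hb : BddAbove (f '' Set.Ici (-L)) := ⟨B, by rintro _ ⟨τ, hτ, rfl⟩; exact hB τ hτ⟩
  have h1 : ∀ τ, -L ≤ τ → f τ ≤ sSup (f '' Set.Ici (-L)) := fun τ hτ => le_csSup hb ⟨τ, hτ, rfl⟩
  have h2 := (h0 _).trans (h1 _ le_rfl)
  have h3 : sSup (f '' Set.Ici (-L)) ≤ 0.58 * sSup (f '' Set.Ici (-L)) + κ :=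
    csSup_le ⟨_, -L, Set.self_mem_Ici, rfl⟩ (by rintro _ ⟨τ, hτ, rfl⟩; exact h _ h2 h1 τ hτ)
  exact ⟨_, h2, h1, by linarith⟩

section G

variable {Λ Λ' : ℝ → ℂ} {L b b' τ : ℝ} {G G' : ℂ → ℂ}

lemma cauchy_G (h : Sh Λ L b G) (hτ : -L ≤ τ) :
    ‖G (pt (π / 4) τ)‖ ≤ 1 + exp (-τ / 3) ^ 2 / 2 := by
  have h1 := h.mid τ hτ
  have h2 := norm_sub_le 1 (1 - G (pt (π / 4) τ))
  rw [sub_sub_cancel, norm_one] at h2
  rw [cauchy_w2] at h1
  linarith

lemma cauchy_far (h : Sh Λ L b G) (hΛ : LamOK Λ L) (hτ : -L ≤ τ) {y : ℝ} (hy : 2 ≤ y)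
    (hw : y ≤ exp (-τ / 3)) : |(G (pt (3 * π / 4) τ)).im| ≤ 4 / y ^ 4 * exp (-τ / 3) ^ 2 := by
  have h1 := cauchy_G h hτ
  have h2 := hΛ.dec τ hτ
  rw [h.bd τ hτ]
  refine (Complex.abs_im_le_norm _).trans ?_
  rw [norm_mul]
  have h3 : y ^ 4 ≤ exp (-τ / 3) ^ 4 := pow_le_pow_left₀ (by linarith) hw 4
  have y0 : 0 < y ^ 4 := by positivity
  refine mul_le_mul (h2.trans ?_) (h1.trans (by nlinarith)) (norm_nonneg _) (by positivity)
  rw [exp_neg, inv_eq_one_div, div_le_div_iff₀ (exp_pos _) y0]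
  have h4 := add_one_le_exp (2.59 * tt τ)
  rw [cauchy_w4] at h4 ⊢
  linarith

lemma cauchy_split (h : Sh Λ L b G) (h' : Sh Λ' L b' G') (hτ : -L ≤ τ) {δ : ℝ}
    (hδ : ‖Λ τ - Λ' τ‖ ≤ δ * tt τ) : ∃ g : ℝ,
    |g| ≤ δ * (exp (-τ / 3) ^ 4 / 4) * (1 + exp (-τ / 3) ^ 2 / 2) ∧
    (G (pt (3 * π / 4) τ) - G' (pt (3 * π / 4) τ)).im =
      (Λ τ).re * (G (pt (π / 4) τ) - G' (pt (π / 4) τ)).im +
      (Λ τ).im * (G (pt (π / 4) τ) - G' (pt (π / 4) τ)).re + g := by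
  refine ⟨((Λ τ - Λ' τ) * G' (pt (π / 4) τ)).im, ?_, ?_⟩
  · refine (Complex.abs_im_le_norm _).trans ?_
    rw [norm_mul, ← cauchy_w4]
    exact mul_le_mul hδ (cauchy_G h' hτ) (norm_nonneg _) ((norm_nonneg _).trans hδ)
  · rw [Complex.sub_im, h.bd τ hτ, h'.bd τ hτ]
    simp only [Complex.mul_im, Complex.sub_im, Complex.sub_re]
    ring

lemma cauchy_mk (h : Sh Λ L b G) (h' : Sh Λ' L b' G') {M : ℝ} (hM : 0 ≤ M)
    (hr : ∀ τ, -L ≤ τ → |(G (pt (3 * π / 4) τ) - G' (pt (3 * π / 4) τ)).im| /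
      exp (-2 * τ / 3) ≤ M) : cauchyD (fun z => G z - G' z) L M := by
  refine ⟨h.hol.sub h'.hol, fun τ => by rw [Complex.sub_im, h.left, h'.left, sub_zero],
    fun x τ a b c => ?_, fun x τ a b c => ?_, hM, fun τ a => (div_le_iff₀ (exp_pos _)).1 (hr τ a)⟩
  · rw [Complex.sub_im]
    linarith [abs_sub (G (pt x τ)).im (G' (pt x τ)).im, h.im x τ a b c, h'.im x τ a b c]
  · rw [show G (pt x τ) - G' (pt x τ) = (1 - G' (pt x τ)) - (1 - G (pt x τ)) by ring, sub_mul,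
      Complex.sub_im]
    exact (abs_sub _ _).trans (by linarith [h.dual x τ a b c, h'.dual x τ a b c])

end G

/-- first step: the difference of two solutions is small at the scale `sqrt t` -/
theorem sh_step {ε : ℝ} (hε : 0 < ε) : ∃ L δ : ℝ, 0 ≤ L ∧ 0 < δ ∧ δ ≤ ε ∧
    ∀ (Λ Λ' : ℝ → ℂ) (b b' : ℝ) (G G' : ℂ → ℂ), Sh Λ L b G → Sh Λ' L b' G' → LamOK Λ L →
      LamOK Λ' L → (∀ τ, -L ≤ τ → ‖Λ τ - Λ' τ‖ ≤ δ * tt τ) →
      (∀ x, 0 ≤ x → x ≤ 3 * π / 4 → |(G (pt x 0) - G' (pt x 0)).im| ≤ ε * sin (2 * x / 3)) ∧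
      ∀ τ, 0 ≤ τ → ‖G (pt (π / 4) τ) - G' (pt (π / 4) τ)‖ ≤ ε * exp (-2 * τ / 3) := by
  obtain ⟨y, hy⟩ : ∃ y, y = exp (1 + 80 / ε) := ⟨_, rfl⟩
  have e80 : 0 < 80 / ε := by positivity
  have e52 : 0 < 52 / ε := by positivity
  have y1 : 2 + 80 / ε ≤ y := by rw [hy]; linarith [add_one_le_exp (1 + 80 / ε)]
  have y2 : 2 ≤ y := by linarith
  have y3 : 4 / y ^ 4 ≤ ε / 20 := by
    have h1 : y ≤ y ^ 4 := le_self_pow₀ (by linarith) (by norm_num)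
    have h2 : 80 ≤ y ^ 4 * ε := (div_le_iff₀ hε).1 (by linarith)
    rw [div_le_div_iff₀ (by positivity) (by norm_num)]
    linarith
  obtain ⟨L, hL⟩ : ∃ L, L = 3 * (1 + 80 / ε + 52 / ε) := ⟨_, rfl⟩
  have L0 : 0 ≤ L := by rw [hL]; positivity
  have k1 : exp (-L / 3) * y ≤ ε / 52 := by
    rw [hy, ← exp_add, show -L / 3 + (1 + 80 / ε) = -(52 / ε) by rw [hL]; ring, exp_neg,
      inv_le_comm₀ (exp_pos _) (by positivity), inv_div]
    linarith [add_one_le_exp (52 / ε)]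
  obtain ⟨C, hC⟩ : ∃ C, C = y ^ 2 / 4 * (1 + y ^ 2 / 2) := ⟨_, rfl⟩
  have C0 : 0 < C := by rw [hC]; positivity
  obtain ⟨δ, hδ⟩ : ∃ δ, δ = ε / (10 * (1 + C)) := ⟨_, rfl⟩
  have δ0 : 0 < δ := by rw [hδ]; positivity
  have δ1 : δ * (10 * (1 + C)) = ε := by rw [hδ]; field_simp
  have δ2 : 0 < δ * C := by positivity
  refine ⟨L, δ, L0, δ0, by linarith, fun Λ Λ' b b' G G' h h' l l' hΛ => ?_⟩
  have r0 := exp_pos (-L / 3)
  have mid : ∀ M, cauchyD (fun z => G z - G' z) L M → ∀ τ, -L ≤ τ → exp (-τ / 3) ≤ y →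
      |(Λ τ).re * (G (pt (π / 4) τ) - G' (pt (π / 4) τ)).im +
        (Λ τ).im * (G (pt (π / 4) τ) - G' (pt (π / 4) τ)).re| ≤
          0.58 * ((M + 5.2 * (ε / 52)) * exp (-τ / 3) ^ 2) ∧
      (G (pt (π / 4) τ) - G' (pt (π / 4) τ)).re ^ 2 + (G (pt (π / 4) τ) - G' (pt (π / 4) τ)).im ^ 2 ≤
        ((M + 5.2 * (ε / 52)) * exp (-τ / 3) ^ 2) ^ 2 := fun M hD τ hτ hw => by
    obtain ⟨a1, a2⟩ := hD.mid hτ ((mul_le_mul_of_nonneg_left hw r0.le).trans k1)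
    refine cauchy_alg a1 a2 ?_ (l.rot τ hτ)
    rw [← anab_norm_sq]
    exact pow_le_one₀ (norm_nonneg _) (l.n1 τ hτ)
  obtain ⟨M, M0, hM, M1⟩ := cauchy_fix (L := L) (B := 1.5) (κ := 0.26 * ε)
    (f := fun τ => |(G (pt (3 * π / 4) τ) - G' (pt (3 * π / 4) τ)).im| / exp (-2 * τ / 3))
    (fun τ => by positivity)
    (fun τ hτ => by
      have a1 := h.im _ τ (by positivity) le_rfl hτ
      have a2 := h'.im _ τ (by positivity) le_rfl hτ
      rw [anae_s3, mul_one] at a1 a2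
      rw [div_le_iff₀ (exp_pos _), Complex.sub_im]
      exact (abs_sub _ _).trans (by linarith))
    (fun M M0 hM τ hτ => by
      rw [div_le_iff₀ (exp_pos _), cauchy_w2]
      have w0 := exp_pos (-τ / 3)
      have w2 : 0 < exp (-τ / 3) ^ 2 := by positivity
      have c0 : 0 ≤ ε * exp (-τ / 3) ^ 2 := by positivity
      rcases le_total (exp (-τ / 3)) y with hw | hw
      · obtain ⟨g, g1, g2⟩ := cauchy_split h h' hτ (hΛ τ hτ)
        have a1 := (mid M (cauchy_mk h h' M0 hM) τ hτ hw).1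
        have a2 : exp (-τ / 3) ^ 2 / 4 * (1 + exp (-τ / 3) ^ 2 / 2) ≤ C := by
          rw [hC]; gcongr
        have a3 := mul_le_mul_of_nonneg_left a2 (mul_pos δ0 w2).le
        have a4 := mul_le_mul_of_nonneg_right (show δ * C ≤ ε / 10 by linarith) w2.le
        rw [g2]
        refine (abs_add_le _ _).trans ?_
        nlinarith
      · have a1 := cauchy_far h l hτ y2 hw
        have a2 := cauchy_far h' l' hτ y2 hw
        have a3 := mul_le_mul_of_nonneg_right y3 w2.le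
        have a4 : 0 ≤ M * exp (-τ / 3) ^ 2 := by positivity
        rw [Complex.sub_im]
        refine (abs_sub _ _).trans ?_
        linarith)
  have hD := cauchy_mk h h' M0 hM
  refine ⟨fun x h0 h1 => ?_, fun τ hτ => ?_⟩
  · have a1 := hD.P h0 h1 (τ := 0) (by linarith)
    obtain ⟨t0, t1, -⟩ := cauchy_trig h0 h1
    simp only [mul_zero, zero_div, neg_zero, exp_zero, one_mul] at a1
    have a2 : exp (-L / 3) ≤ ε / 52 := (le_mul_of_one_le_right r0.le (by linarith)).trans k1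
    have a3 := mul_le_mul_of_nonneg_left t1 r0.le
    have a4 := mul_le_mul_of_nonneg_right a2 t0
    have a5 := mul_le_mul_of_nonneg_right M1 t0
    have a6 := mul_nonneg hε.le t0
    linarith
  · have a1 := (mid M hD τ (by linarith)
      ((exp_le_one_iff.2 (by linarith)).trans (by linarith))).2
    rw [← anab_norm_sq] at a1
    rw [cauchy_w2]
    refine (le_of_sq_le_sq a1 (by positivity)).trans ?_
    exact mul_le_mul_of_nonneg_right (by linarith) (by positivity)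

lemma cauchy_half {Λ Λ' : ℝ → ℂ} {L b b' e δ : ℝ} {G G' : ℂ → ℂ} (hL : 0 ≤ L) (he : 0 < e)
    (hδ : δ ≤ e) (h : Sh Λ L b G) (h' : Sh Λ' L b' G') (l : LamOK Λ L)
    (hΛ : ∀ τ, -L ≤ τ → ‖Λ τ - Λ' τ‖ ≤ δ * tt τ)
    (h1 : ∀ x, 0 ≤ x → x ≤ 3 * π / 4 → |(G (pt x 0) - G' (pt x 0)).im| ≤ e * sin (2 * x / 3))
    (h2 : ∀ τ, 0 ≤ τ → ‖G (pt (π / 4) τ) - G' (pt (π / 4) τ)‖ ≤ e * exp (-2 * τ / 3)) :
    b - b' ≤ 30 * e := by
  have ee : ∀ x τ, (((30 * e : ℝ) : ℂ) * anae_b 3 0 (pt x τ) -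
      ((7.5 * e : ℝ) : ℂ) * anae_b 4 0 (pt x τ) + (G (pt x τ) - G' (pt x τ))).im =
      30 * e * (exp (-τ / 3) ^ 3 * sin (3 * (x / 3))) -
      7.5 * e * (exp (-τ / 3) ^ 4 * sin (4 * (x / 3))) + (G (pt x τ) - G' (pt x τ)).im :=
    fun x τ => by
      rw [Complex.add_im, Complex.sub_im]
      simp only [Complex.im_ofReal_mul, anae_im, Nat.cast_ofNat, sub_zero]
  obtain ⟨v1, v2, -, v4, v5, -, v7, v8, -⟩ := anae_vals
  have up : ∀ τ, 0 ≤ τ → -(G (pt (π / 2) τ) - G' (pt (π / 2) τ)).im ≤ 30 * e * exp (-τ) := by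
    intro τ hτ
    have key := nlmp (g := fun z => ((30 * e : ℝ) : ℂ) * anae_b 3 0 z -
        ((7.5 * e : ℝ) : ℂ) * anae_b 4 0 z + (G z - G' z))
      ((((anae_diff 3 0).const_mul _).sub ((anae_diff 4 0).const_mul _)).differentiableOn.add
        (h.hol.sub h'.hol)) (t₀ := 0) (L := 0) (C := 37.5 * e + 1.5)
      (fun τ _ => by rw [ee]; simp [h.left, h'.left])
      (fun τ hτ => ?_) (fun x h0 h1' => ?_) (fun x τ h0 h1' hτ => ?_) (x := π / 2) (by positivity)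
      (by linarith [pi_pos]) hτ
    · rw [ee, v7] at key
      have w4 : 0 ≤ e * (exp (-τ / 3) ^ 4 * sin (4 * (π / 2 / 3))) := by positivity
      rw [cauchy_w3]
      linarith
    · have hτ' : -L ≤ τ := by linarith
      obtain ⟨g, g1, g2⟩ := cauchy_split h h' hτ' (hΛ τ hτ')
      obtain ⟨r1, r3⟩ := l.pos τ hτ
      have r2 := (Complex.re_le_norm _).trans (l.n1 τ hτ')
      have a1 := (Complex.abs_re_le_norm _).trans (h2 τ hτ)
      have a2 := mul_le_mul r3 a1 (abs_nonneg _) ((abs_nonneg _).trans r3)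
      rw [← abs_mul, cauchy_w4, cauchy_w2] at a2
      refine anae_min (by linarith) r2 ?_
      rw [ee, ee, v1, v2, v4, v5, g2]
      have w0 := exp_pos (-τ / 3)
      have w1 : exp (-τ / 3) ≤ 1 := exp_le_one_iff.2 (by linarith)
      generalize exp (-τ / 3) = w at *
      generalize (Λ τ).re = r at *
      have w2 : w ^ 2 ≤ 1 := pow_le_one₀ w0.le w1
      have w4 : 0 < e * w ^ 4 := by positivity
      have q3 : (1.73 : ℝ) ≤ √3 := le_sqrt_of_sq_le (by norm_num)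
      have c1 : δ * (w ^ 4 / 4) * (1 + w ^ 2 / 2) ≤ e * (w ^ 4 / 4) * 1.5 :=
        mul_le_mul (mul_le_mul_of_nonneg_right hδ (by positivity)) (by linarith) (by positivity)
          (by positivity)
      have c2 : 0 ≤ e * w ^ 3 * √2 * (1 - r) := mul_nonneg (by positivity) (by linarith)
      have c3 : e * w ^ 4 * r * 1.73 ≤ e * w ^ 4 * r * √3 :=
        mul_le_mul_of_nonneg_left q3 (mul_nonneg w4.le (by linarith))
      have c4 : e * w ^ 4 * (1 / 8) ≤ e * w ^ 4 * r := mul_le_mul_of_nonneg_left r1 w4.le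
      have c5 : e * w ^ 4 * w ^ 2 ≤ e * w ^ 4 := mul_le_of_le_one_right w4.le w2
      linarith [(abs_le.1 a2).1, (abs_le.1 g1).1]
    · rw [ee]
      obtain ⟨t0, -, t2, t3, -⟩ := anae_trig (u := x / 3) (by linarith) (by linarith)
      have a1 := (abs_le.1 (h1 x h0 h1')).1
      rw [mul_div_assoc] at a1
      simp only [neg_zero, zero_div, exp_zero, one_pow, one_mul]
      linarith [mul_le_mul_of_nonneg_left t2 he.le, mul_le_mul_of_nonneg_left t3 he.le,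
        mul_nonneg he.le t0]
    · rw [ee, Complex.sub_im]
      have hτ' : -L ≤ τ := by linarith
      have a1 := (abs_le.1 (h.im x τ h0 h1' hτ')).1
      have a2 := (abs_le.1 (h'.im x τ h0 h1' hτ')).2
      have a3 := mul_le_of_le_one_right (exp_pos (-2 * τ / 3)).le (sin_le_one (2 * x / 3))
      rw [cauchy_w2] at a1 a2 a3 ⊢
      have w0 := exp_pos (-τ / 3)
      have w1 : exp (-τ / 3) ≤ 1 := exp_le_one_iff.2 (by linarith)
      have p3 := abs_le.1 (anae_pw w0 w1 (abs_sin_le_one (3 * (x / 3))) (n := 3) (by norm_num))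
      have p4 := abs_le.1 (anae_pw w0 w1 (abs_sin_le_one (4 * (x / 3))) (n := 4) (by norm_num))
      linarith [mul_le_mul_of_nonneg_left p3.1 he.le, mul_le_mul_of_nonneg_left p4.2 he.le]
  refine le_of_forall_pos_le_add fun η hη => ?_
  obtain ⟨L1, hL1⟩ := h.asym _ (half_pos hη)
  obtain ⟨L2, hL2⟩ := h'.asym _ (half_pos hη)
  obtain ⟨τ, t0, t1, t2⟩ : ∃ τ, 0 ≤ τ ∧ L1 ≤ τ ∧ L2 ≤ τ :=
    ⟨max 0 (max L1 L2), le_max_left _ _, (le_max_left _ _).trans (le_max_right _ _),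
      (le_max_right _ _).trans (le_max_right _ _)⟩
  have hx : |π / 2| ≤ 3 * π / 4 := anae_abs (by positivity) (by linarith [pi_pos])
  have a1 := abs_le.1 ((Complex.abs_im_le_norm _).trans (hL1 _ τ hx t1))
  have a2 := abs_le.1 ((Complex.abs_im_le_norm _).trans (hL2 _ τ hx t2))
  have a3 := up τ t0
  rw [Complex.add_im, cauchy_e1, Complex.sub_im, Complex.one_im, sin_pi_div_two] at a1 a2
  rw [Complex.sub_im] at a3
  refine le_of_mul_le_mul_right ?_ (exp_pos (-τ))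
  linarith [a1.2, a2.1]

theorem sh_cauchy {ε : ℝ} (hε : 0 < ε) : ∃ L δ : ℝ, 0 ≤ L ∧ 0 < δ ∧
    ∀ (Λ Λ' : ℝ → ℂ) (b b' : ℝ) (G G' : ℂ → ℂ), Sh Λ L b G → Sh Λ' L b' G' → LamOK Λ L →
      LamOK Λ' L → (∀ τ, -L ≤ τ → ‖Λ τ - Λ' τ‖ ≤ δ * tt τ) → |b - b'| ≤ ε := by
  have he : 0 < ε / 30 := by positivity
  obtain ⟨L, δ, L0, δ0, δ1, H⟩ := sh_step he
  refine ⟨L, δ, L0, δ0, fun Λ Λ' b b' G G' h h' l l' hΛ => ?_⟩
  have hΛ' : ∀ τ, -L ≤ τ → ‖Λ' τ - Λ τ‖ ≤ δ * tt τ := fun τ hτ => by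
    rw [norm_sub_rev]; exact hΛ τ hτ
  obtain ⟨a1, a2⟩ := H Λ Λ' b b' G G' h h' l l' hΛ
  obtain ⟨a3, a4⟩ := H Λ' Λ b' b G' G h' h l' l hΛ'
  have c1 := cauchy_half L0 he δ1 h h' l hΛ a1 a2
  have c2 := cauchy_half L0 he δ1 h' h l' hΛ' a3 a4
  exact abs_le.2 ⟨by linarith, by linarith⟩

theorem rh_cauchy {ε : ℝ} (hε : 0 < ε) : ∃ T₀ : ℕ, ∀ T T' : ℕ, T₀ ≤ T → T₀ ≤ T' →
    ∀ (b b' : ℝ) (Θ Θ' : ℂ → ℂ), RH T 1 b Θ → RH T' 1 b' Θ' →
      |b / (8 * T : ℝ) ^ (3 / 4 : ℝ) - b' / (8 * T' : ℝ) ^ (3 / 4 : ℝ)| ≤ ε := by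
  obtain ⟨L, δ, L0, δ0, H⟩ := sh_cauchy hε
  obtain ⟨T1, hT1⟩ := lam_close L (half_pos δ0)
  have key : ∀ T : ℕ, max T1 (max 1000 ⌈1000 * tt (-L)⌉₊) ≤ T → ∀ (b : ℝ) (Θ : ℂ → ℂ),
      RH T 1 b Θ → ∃ G, Sh (fun τ => Lam T (tt τ / (2 * T))) L (b / (8 * T : ℝ) ^ (3 / 4 : ℝ)) G ∧
        LamOK (fun τ => Lam T (tt τ / (2 * T))) L := by
    intro T hT b Θ h
    have h1 : 1000 ≤ T := ((le_max_left _ _).trans (le_max_right _ _)).trans hT
    have h2 : 1000 * tt (-L) ≤ T :=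
      Nat.ceil_le.1 (((le_max_right _ _).trans (le_max_right _ _)).trans hT)
    have hT' : (1000 : ℝ) ≤ T := by exact_mod_cast h1
    have h8 : (0 : ℝ) < 8 * T := by linarith
    have hs : exp (4 * (log (8 * T) * (3 / 4)) / 3) = 8 * T := by
      rw [show 4 * (log (8 * T) * (3 / 4)) / 3 = log (8 * T) by ring, exp_log h8]
    rw [rpow_def_of_pos h8, div_eq_mul_inv b, ← exp_neg]
    generalize log (8 * T) * (3 / 4) = s at hs
    refine ⟨_, rh_sh h1 h hs ?_, lam_ok h1 L0 (by linarith)⟩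
    have : exp (-4 * -L / 3) < exp (4 * s / 3) := by
      rw [tt] at h2
      linarith
    linarith [exp_lt_exp.1 this]
  refine ⟨max T1 (max 1000 ⌈1000 * tt (-L)⌉₊), fun T T' hT hT' b b' Θ Θ' h h' => ?_⟩
  obtain ⟨G, g1, g2⟩ := key T hT b Θ h
  obtain ⟨G', g1', g2'⟩ := key T' hT' b' Θ' h'
  refine H _ _ _ _ G G' g1 g1' g2 g2' fun τ hτ => ?_
  have a1 := hT1 T ((le_max_left _ _).trans hT) τ hτ
  have a2 := hT1 T' ((le_max_left _ _).trans hT') τ hτ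
  rw [norm_sub_rev] at a2
  exact (norm_sub_le_norm_sub_add_norm_sub _ _ _).trans ((add_le_add a1 a2).trans (by linarith))

end Pool.Agent.Lib.MP_4960b8_pr.RN
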