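import Pool.Agent.Lib.MP_4960b8_pr.QK.BDefs

/-! Cut levels of a self-avoiding bridge and the hitting probabilities of the limit set. -/

namespace Pool.Agent.Lib.MP_4960b8_pr.RN

open SAW

/-- Total critical weight of a set of walks: the sum of `x_c ^ (number of vertices)`. -/
noncomputable def tot (A : Set (List V)) : ℝ := ∑' γ : A, xc ^ γ.1.length

/-- The level `t` (the line between the rows `t - 1` and `t`) is a cut level of the walk: an
initial part of the walk lies below it and the rest lies above it. -/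
def IsCut (γ : List V) (t : ℤ) : Prop :=
  ∃ n : ℕ, (∀ v ∈ γ.take n, v.k < t) ∧ ∀ v ∈ γ.drop n, t ≤ v.k

/-- `hit lam l s`: iterated integral of the overshoot densities of the `3/4`-stable subordinator
started at `s` over the intervals of the list `l`, with the final weight `(1 - lam d)^(-1/4)`. -/
noncomputable def hit (lam : ℝ) : List (ℝ × ℝ) → ℝ → ℝ
  | [], s => (1 - lam * s) ^ (-1 / 4 : ℝ)
  | I :: l, s => ∫ d in I.1..I.2,
      Real.sqrt 2 / (2 * Real.pi) * ((I.1 - s) / (d - I.1)) ^ (3 / 4 : ℝ) / (d - s) * hit lam l d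

/-- `lo < a₁ < b₁ < a₂ < b₂ < ... < hi` for the list of intervals `(a₁, b₁), (a₂, b₂), ...`. -/
def Ord : ℝ → List (ℝ × ℝ) → ℝ → Prop
  | lo, [], hi => lo < hi
  | lo, I :: l, hi => lo < I.1 ∧ I.1 < I.2 ∧ Ord I.2 l hi

end Pool.Agent.Lib.MP_4960b8_pr.RN
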