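import Mathlib

/-! Monotone density lemma and the asymptotics of the renewal function. -/

namespace Pool.Agent.Lib.MP_4960b8_pr.RN

open Filter Topology

theorem dens_lower {a : ℕ → ℝ} (ha : Antitone a) {M N : ℕ} (h : M ≤ N) :
    ((N : ℝ) - M) * a N ≤ ∑ n ∈ Finset.range N, a n - ∑ n ∈ Finset.range M, a n := by
  rw [← Finset.sum_Ico_eq_sub _ h]
  have := Finset.card_nsmul_le_sum (Finset.Ico M N) a (a N)
    fun n hn => ha (Finset.mem_Ico.1 hn).2.le
  rwa [Nat.card_Ico, nsmul_eq_mul, Nat.cast_sub h] at this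

theorem dens_upper {a : ℕ → ℝ} (ha : Antitone a) {M N : ℕ} (h : N ≤ M) :
    ∑ n ∈ Finset.range M, a n - ∑ n ∈ Finset.range N, a n ≤ ((M : ℝ) - N) * a N := by
  rw [← Finset.sum_Ico_eq_sub _ h]
  have := Finset.sum_le_card_nsmul (Finset.Ico N M) a (a N)
    fun n hn => ha (Finset.mem_Ico.1 hn).1
  rwa [Nat.card_Ico, nsmul_eq_mul, Nat.cast_sub h] at this

theorem dens_ratio {lam : ℝ} (hl : 0 < lam) :
    Tendsto (fun N : ℕ => (⌊lam * N⌋₊ : ℝ) / N) atTop (𝓝 lam) :=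
  (tendsto_nat_floor_mul_div_atTop hl.le).comp tendsto_natCast_atTop_atTop

theorem dens_scaled {S : ℕ → ℝ} {ρ A lam : ℝ} (hl : 0 < lam)
    (h : Tendsto (fun N : ℕ => S N / (N : ℝ) ^ ρ) atTop (𝓝 A)) :
    Tendsto (fun N : ℕ => S ⌊lam * N⌋₊ / (N : ℝ) ^ ρ) atTop (𝓝 (A * lam ^ ρ)) := by
  have hM : Tendsto (fun N : ℕ => ⌊lam * N⌋₊) atTop atTop := tendsto_nat_floor_mul_atTop lam hl
  have h1 := (h.comp hM).mul ((dens_ratio hl).rpow_const (p := ρ) (Or.inl hl.ne'))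
  refine h1.congr' ?_
  filter_upwards [hM.eventually_gt_atTop 0, eventually_gt_atTop 0] with N hN hN0
  have e1 : (0 : ℝ) < (⌊lam * N⌋₊ : ℝ) := Nat.cast_pos.2 hN
  have e2 : (0 : ℝ) < (N : ℝ) := Nat.cast_pos.2 hN0
  have e3 := Real.rpow_pos_of_pos e1 ρ
  have e4 := Real.rpow_pos_of_pos e2 ρ
  simp only [Function.comp]
  rw [Real.div_rpow e1.le e2.le]
  field_simp

theorem dens_quot {S : ℕ → ℝ} {ρ A lam : ℝ} (hl : 0 < lam) (hl1 : lam ≠ 1)
    (h : Tendsto (fun N : ℕ => S N / (N : ℝ) ^ ρ) atTop (𝓝 A)) :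
    Tendsto (fun N : ℕ => (S ⌊lam * N⌋₊ / (N : ℝ) ^ ρ - S N / (N : ℝ) ^ ρ) /
      ((⌊lam * N⌋₊ : ℝ) / N - 1)) atTop (𝓝 (slope (fun x : ℝ => x ^ ρ) 1 lam * A)) := by
  have h1 := ((dens_scaled hl h).sub h).div ((dens_ratio hl).sub_const 1) (sub_ne_zero.2 hl1)
  have e : slope (fun x : ℝ => x ^ ρ) 1 lam * A = (A * lam ^ ρ - A) / (lam - 1) := by
    rw [slope_def_field, Real.one_rpow]; ring
  rw [e]; exact h1

theorem dens_slope (ρ A : ℝ) :
    Tendsto (fun lam : ℝ => slope (fun x : ℝ => x ^ ρ) 1 lam * A) (𝓝[≠] 1) (𝓝 (ρ * A)) := by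
  have h := Real.hasDerivAt_rpow_const (x := 1) (p := ρ) (Or.inl one_ne_zero)
  rw [Real.one_rpow, mul_one] at h
  exact (hasDerivAt_iff_tendsto_slope.1 h).mul_const A

theorem dens_key (x y : ℝ) {ρ M N : ℝ} (hN : 0 < N) :
    x / N ^ ρ - (y * N ^ (1 - ρ)) * (M / N - 1) = (x - (M - N) * y) / N ^ ρ := by
  have e4 := Real.rpow_pos_of_pos hN ρ
  rw [Real.rpow_sub hN, Real.rpow_one]
  field_simp

theorem dens {a : ℕ → ℝ} (ha : Antitone a) {ρ A : ℝ} (hρ : 0 < ρ)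
    (h : Tendsto (fun N : ℕ => (∑ n ∈ Finset.range N, a n) / (N : ℝ) ^ ρ) atTop (𝓝 A)) :
    Tendsto (fun N : ℕ => a N * (N : ℝ) ^ (1 - ρ)) atTop (𝓝 (ρ * A)) := by
  refine tendsto_order.2 ⟨fun b hb => ?_, fun b hb => ?_⟩
  · have h1 := ((dens_slope ρ A).mono_left (nhdsGT_le_nhdsNE 1)).eventually (lt_mem_nhds hb)
    obtain ⟨lam, hlb, hl1⟩ := (h1.and self_mem_nhdsWithin).exists
    have hl1' : 1 < lam := hl1
    have hl : 0 < lam := by linarith
    filter_upwards [(dens_quot (S := fun N => ∑ n ∈ Finset.range N, a n) hl hl1'.ne' h).eventually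
      (lt_mem_nhds hlb), (dens_ratio hl).eventually (lt_mem_nhds hl1'), eventually_gt_atTop 0]
      with N h2 h3 hN0
    have e2 : (0 : ℝ) < (N : ℝ) := Nat.cast_pos.2 hN0
    have hle : N ≤ ⌊lam * N⌋₊ := by
      have := (one_lt_div e2).1 h3
      exact_mod_cast this.le
    refine h2.trans_le ((div_le_iff₀ (by linarith)).2 ?_)
    rw [← sub_div, ← sub_nonpos, dens_key _ _ e2]
    exact div_nonpos_of_nonpos_of_nonneg (sub_nonpos.2 (dens_upper ha hle))
      (Real.rpow_pos_of_pos e2 ρ).le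
  · have h1 := ((dens_slope ρ A).mono_left (nhdsLT_le_nhdsNE 1)).eventually (gt_mem_nhds hb)
    obtain ⟨lam, hlb, hl, hl1⟩ := (h1.and (Ioo_mem_nhdsLT (show (0 : ℝ) < 1 by norm_num))).exists
    filter_upwards [(dens_quot (S := fun N => ∑ n ∈ Finset.range N, a n) hl hl1.ne h).eventually
      (gt_mem_nhds hlb), (dens_ratio hl).eventually (gt_mem_nhds hl1), eventually_gt_atTop 0]
      with N h2 h3 hN0
    have e2 : (0 : ℝ) < (N : ℝ) := Nat.cast_pos.2 hN0
    have hle : ⌊lam * N⌋₊ ≤ N := by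
      have := (div_lt_one e2).1 h3
      exact_mod_cast this.le
    refine lt_of_le_of_lt ((le_div_iff_of_neg (by linarith)).2 ?_) h2
    rw [← sub_div, ← sub_nonpos, dens_key _ _ e2]
    refine div_nonpos_of_nonpos_of_nonneg ?_ (Real.rpow_pos_of_pos e2 ρ).le
    have := dens_lower ha hle
    linarith

/-- Toeplitz lemma for a convolution -/
theorem toeplitz {v q : ℕ → ℝ} {κ : ℝ} (hv : Tendsto v atTop (𝓝 κ)) (hq0 : ∀ n, 0 ≤ q n)
    (hq1 : ∀ n, q n ≤ 1) (hQ : Tendsto (fun N => ∑ n ∈ Finset.range N, q n) atTop atTop) :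
    Tendsto (fun N => (∑ n ∈ Finset.range N, v (N - 1 - n) * q n) / ∑ n ∈ Finset.range N, q n)
      atTop (𝓝 κ) := by
  rw [Metric.tendsto_atTop] at hv
  rw [Metric.tendsto_nhds]
  intro ε hε
  obtain ⟨K, hK⟩ := hv (ε / 2) (by positivity)
  set C := ∑ j ∈ Finset.range K, |v j - κ| with hC
  have hg : ∀ N, ∑ j ∈ Finset.range N, (if j < K then |v j - κ| else 0) ≤ C := by
    intro N
    rw [← Finset.sum_filter]
    refine Finset.sum_le_sum_of_subset_of_nonneg (fun j hj => ?_) fun _ _ _ => abs_nonneg _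
    exact Finset.mem_range.2 (Finset.mem_filter.1 hj).2
  filter_upwards [hQ.eventually_gt_atTop 0, hQ.eventually_gt_atTop (2 * C / ε)] with N h0 h1
  rw [Real.dist_eq, div_sub' h0.ne', abs_div, abs_of_pos h0, div_lt_iff₀ h0, Finset.sum_mul,
    ← Finset.sum_sub_distrib]
  have h2 : ∀ n ∈ Finset.range N, |v (N - 1 - n) * q n - q n * κ| ≤
      ε / 2 * q n + (if N - 1 - n < K then |v (N - 1 - n) - κ| else 0) := by
    intro n _
    rw [show v (N - 1 - n) * q n - q n * κ = (v (N - 1 - n) - κ) * q n by ring, abs_mul,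
      abs_of_nonneg (hq0 n)]
    have e0 := hq0 n
    have e1 := hq1 n
    have e2 := abs_nonneg (v (N - 1 - n) - κ)
    split_ifs with hlt
    · nlinarith [mul_nonneg hε.le e0]
    · have := hK _ (not_lt.1 hlt)
      rw [Real.dist_eq] at this
      nlinarith
  refine ((Finset.abs_sum_le_sum_abs _ _).trans (Finset.sum_le_sum h2)).trans_lt ?_
  rw [Finset.sum_add_distrib, ← Finset.mul_sum,
    Finset.sum_range_reflect (fun j => if j < K then |v j - κ| else 0) N]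
  have := hg N
  rw [div_lt_iff₀ hε] at h1
  nlinarith

theorem dens_conv {u r X : ℕ → ℝ}
    (hX : ∀ n, 1 ≤ n → X n = ∑ t ∈ Finset.range n, u t * r (n - t)) (N : ℕ) :
    ∑ n ∈ Finset.range N, X (n + 1) =
      ∑ t ∈ Finset.range N, (∑ i ∈ Finset.range (N - 1 - t + 1), r (i + 1)) * u t := by
  have h1 : ∀ n ∈ Finset.range N, X (n + 1) =
      ∑ k ∈ Finset.range (n + 1), u k * r (n - k + 1) := by
    intro n _
    rw [hX _ (Nat.le_add_left 1 n)]
    refine Finset.sum_congr rfl fun k hk => ?_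
    have := Finset.mem_range.1 hk
    rw [show n + 1 - k = n - k + 1 by omega]
  rw [Finset.sum_congr rfl h1, Finset.sum_range_diag_flip N fun k j => u k * r (j + 1)]
  refine Finset.sum_congr rfl fun t ht => ?_
  have := Finset.mem_range.1 ht
  rw [show N - 1 - t + 1 = N - t by omega, ← Finset.mul_sum, mul_comm]

theorem ulim {u r X S : ℕ → ℝ} {σ : ℝ} {T₀ : ℕ} (hσ : 0 < σ) (hu : Antitone u) (hu0 : u 0 = 1)
    (hu1 : ∀ n, 0 ≤ u n) (hr : ∀ n, 0 ≤ r n)
    (hX : ∀ n, 1 ≤ n → X n = ∑ t ∈ Finset.range n, u t * r (n - t))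
    (hXu : ∀ n, 1 ≤ n → X n ≤ u n) (hS : ∀ T, T₀ ≤ T → S (T + 1) - S T = X (T + 1))
    (hlim : Tendsto (fun T : ℕ => S T / (T : ℝ) ^ (3 / 4 : ℝ)) atTop (𝓝 σ)) :
    ∃ c : ℝ, 0 < c ∧ Tendsto (fun T : ℕ => u T * (T : ℝ) ^ (1 / 4 : ℝ)) atTop (𝓝 c) := by
  set Y : ℕ → ℝ := fun N => ∑ n ∈ Finset.range N, X (n + 1) with hY
  set U : ℕ → ℝ := fun N => ∑ n ∈ Finset.range N, u n with hU
  set v : ℕ → ℝ := fun j => ∑ i ∈ Finset.range (j + 1), r (i + 1) with hv
  have hYv : ∀ N, Y N = ∑ t ∈ Finset.range N, v (N - 1 - t) * u t := dens_conv hX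
  have hu2 : ∀ n, u n ≤ 1 := fun n => hu0 ▸ hu (Nat.zero_le n)
  have hYS : ∀ N, T₀ ≤ N → Y N = S N + (Y T₀ - S T₀) := by
    intro N hN
    induction N, hN using Nat.le_induction with
    | base => ring
    | succ n hn ih =>
      have e : Y (n + 1) = Y n + X (n + 1) := Finset.sum_range_succ _ _
      have := hS n hn
      linarith
  have hpow : Tendsto (fun T : ℕ => (T : ℝ) ^ (3 / 4 : ℝ)) atTop atTop :=
    (tendsto_rpow_atTop (by norm_num)).comp tendsto_natCast_atTop_atTop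
  have hYlim : Tendsto (fun T : ℕ => Y T / (T : ℝ) ^ (3 / 4 : ℝ)) atTop (𝓝 σ) := by
    have h1 := hlim.add (hpow.const_div_atTop (Y T₀ - S T₀))
    rw [add_zero] at h1
    refine h1.congr' ?_
    filter_upwards [eventually_ge_atTop T₀] with N hN
    rw [hYS N hN, add_div]
  have hYtop : Tendsto Y atTop atTop := by
    refine (hYlim.pos_mul_atTop hσ hpow).congr' ?_
    filter_upwards [hpow.eventually_gt_atTop 0] with N hN
    exact div_mul_cancel₀ _ hN.ne'
  have hYU : ∀ N, Y N ≤ U N := fun N => Finset.sum_le_sum fun n _ =>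
    (hXu _ (Nat.le_add_left 1 n)).trans (hu (Nat.le_succ n))
  have hUtop : Tendsto U atTop atTop := tendsto_atTop_mono hYU hYtop
  have hvm : Monotone v := monotone_nat_of_le_succ fun j => by
    have e : v (j + 1) = v j + r (j + 1 + 1) := Finset.sum_range_succ _ _
    have := hr (j + 1 + 1)
    linarith
  have hv1 : ∀ J, v J ≤ 1 := by
    intro J
    have h1 : Tendsto (fun j => min (v j) (v J)) atTop (𝓝 (v J)) := by
      refine tendsto_const_nhds.congr' ?_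
      filter_upwards [eventually_ge_atTop J] with j hj
      exact (min_eq_right (hvm hj)).symm
    refine le_of_tendsto (toeplitz h1 hu1 hu2 hUtop) ?_
    filter_upwards [hUtop.eventually_gt_atTop 0] with N hN
    refine (div_le_one hN).2 (le_trans ?_ (hYU N))
    rw [hYv]
    exact Finset.sum_le_sum fun t _ => mul_le_mul_of_nonneg_right (min_le_left _ _) (hu1 t)
  have hbdd : BddAbove (Set.range v) := ⟨1, by rintro _ ⟨j, rfl⟩; exact hv1 j⟩
  set κ := ⨆ j, v j with hκ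
  have hT : Tendsto (fun N => Y N / U N) atTop (𝓝 κ) := by
    simp only [hYv]
    exact toeplitz (tendsto_atTop_ciSup hvm hbdd) hu1 hu2 hUtop
  have hκ0 : 0 < κ := by
    obtain ⟨N, hN⟩ := (hYtop.eventually_gt_atTop 0).exists
    have h1 : Y N ≤ κ * U N := by
      rw [hYv, hU, Finset.mul_sum]
      exact Finset.sum_le_sum fun t _ => mul_le_mul_of_nonneg_right (le_ciSup hbdd _) (hu1 t)
    exact (pos_iff_pos_of_mul_pos (hN.trans_le h1)).2 (hN.trans_le (hYU N))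
  have hUlim : Tendsto (fun T : ℕ => U T / (T : ℝ) ^ (3 / 4 : ℝ)) atTop (𝓝 (σ / κ)) := by
    refine (hYlim.div hT hκ0.ne').congr' ?_
    filter_upwards [hYtop.eventually_gt_atTop 0, hUtop.eventually_gt_atTop 0,
      hpow.eventually_gt_atTop 0] with N h1 h2 h3
    simp only [Pi.div_apply]
    field_simp
  refine ⟨3 / 4 * (σ / κ), by positivity, ?_⟩
  have h := dens hu (by norm_num : (0 : ℝ) < 3 / 4) hUlim
  rwa [show (1 : ℝ) - 3 / 4 = 1 / 4 by norm_num] at h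

end Pool.Agent.Lib.MP_4960b8_pr.RN
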