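import Pool.Agent.Lib.MP_4960b8_pr.RN.Kern

/-! Convergence of the hitting probabilities. -/

namespace Pool.Agent.Lib.MP_4960b8_pr.RN

open Filter Topology Real

lemma hit_ord {hi : ℝ} : ∀ {l : List (ℝ × ℝ)} {lo : ℝ}, Ord lo l hi → lo < hi ∧ ∀ J ∈ l, lo ≤ J.1
  | [], _, h => ⟨h, fun _ hJ => nomatch hJ⟩
  | I :: l, lo, h => by
    obtain ⟨h1, h2⟩ := hit_ord h.2.2
    refine ⟨h.1.trans (h.2.1.trans h1), fun J hJ => ?_⟩
    rcases List.mem_cons.1 hJ with rfl | hJ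
    exacts [h.1.le, (h.1.trans h.2.1).le.trans (h2 J hJ)]

lemma hit_phi_le {x : ℝ} (hx : x ∈ Set.Icc (0 : ℝ) 1) : Phi x ≤ 1 := by
  have h1 := intervalIntegral.integral_add_adjacent_intervals
    (bet_int (Set.left_mem_Icc.2 zero_le_one) hx) (bet_int hx (Set.right_mem_Icc.2 zero_le_one))
  have h2 : 0 ≤ ∫ s in (0 : ℝ)..x, bet s := intervalIntegral.integral_nonneg hx.1 fun s hs =>
    mul_nonneg (rpow_nonneg hs.1 _) (rpow_nonneg (by linarith [hs.2, hx.2]) _)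
  have h3 : √2 / (2 * π) * (π * √2) = 1 := by
    have := pi_pos
    have h4 := mul_self_sqrt (zero_le_two (α := ℝ))
    field_simp
    linarith
  rw [bet_val] at h1
  exact (mul_le_mul_of_nonneg_left (by linarith) (by positivity)).trans h3.le

lemma hit_ratio {a : ℕ → ℝ} {c : ℝ} (hc : 0 < c) (h : Tendsto a atTop (𝓝 c)) {ε : ℝ}
    (hε : 0 < ε) : ∃ n₀ : ℕ, ∀ n m, n₀ ≤ n → n₀ ≤ m → |a n / a m - 1| ≤ ε := by
  have h1 : Tendsto (fun p : ℕ × ℕ => a p.1 / a p.2) atTop (𝓝 (c / c)) := by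
    rw [← prod_atTop_atTop_eq]
    exact (h.comp tendsto_fst).div (h.comp tendsto_snd) hc.ne'
  rw [div_self hc.ne'] at h1
  obtain ⟨p, hp⟩ := Metric.tendsto_atTop.1 h1 ε hε
  exact ⟨max p.1 p.2, fun n m hn hm =>
    (hp (n, m) ⟨le_of_max_le_left hn, le_of_max_le_right hm⟩).le⟩

section

variable {u : ℕ → ℝ} {μ : ℕ → ℕ → ℝ} {c : ℝ} (h : Ren u μ c)
include h

lemma Ren.hit_pos (n : ℕ) : 0 < u n := by
  obtain ⟨m, h1, h2⟩ := ((h.lim.eventually (lt_mem_nhds h.pos)).and (eventually_ge_atTop n)).exists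
  exact (pos_of_mul_pos_left h1 (by positivity)).trans_le (h.anti h2)

lemma Ren.hit_cdf {η : ℝ} (hη : 0 < η) : ∃ L : ℝ, 0 < L ∧ ∀ A Y : ℝ, L ≤ A → A ≤ Y →
    |∑ d ∈ Finset.Icc ⌈A⌉₊ ⌊Y⌋₊, μ ⌈A⌉₊ d - Phi (A / Y)| ≤ η := by
  obtain ⟨m₀, hm⟩ := h.cdf (half_pos hη)
  obtain ⟨δ, δ0, hδ⟩ := Metric.uniformContinuousOn_iff_le.1
    (isCompact_Icc.uniformContinuousOn_of_continuous Phi_cont) _ (half_pos hη)
  refine ⟨m₀ + 2 / δ, by positivity, fun A Y hA hY => ?_⟩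
  have p1 : 0 < 2 / δ := by positivity
  have p2 : (0 : ℝ) ≤ m₀ := Nat.cast_nonneg _
  have A0 : 0 < A := by linarith
  have Y0 : 0 < Y := by linarith
  have p3 : 2 ≤ A * δ := (div_le_iff₀ δ0).1 (by linarith)
  have a1 := Nat.le_ceil A
  have a2 := Nat.ceil_lt_add_one A0.le
  have m1 := Nat.floor_le Y0.le
  have m2 := Nat.lt_floor_add_one Y
  have q : A / Y ∈ Set.Icc (0 : ℝ) 1 := ⟨by positivity, (div_le_one Y0).2 hY⟩
  generalize ⌈A⌉₊ = a at *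
  generalize ⌊Y⌋₊ = m at *
  rcases le_or_gt a m with hle | hlt
  · have c1 : (a : ℝ) ≤ m := by exact_mod_cast hle
    have M0 : (0 : ℝ) < m := by linarith
    have k1 := hm m (by exact_mod_cast (show (m₀ : ℝ) ≤ m by linarith)) a
      (by exact_mod_cast (show (0 : ℝ) < a by linarith)) hle
    have k2 := hδ ((a : ℝ) / m) ⟨by positivity, (div_le_one M0).2 c1⟩ _ q (by
      rw [dist_eq, div_sub_div _ _ M0.ne' Y0.ne', abs_div, abs_of_pos (mul_pos M0 Y0),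
        div_le_iff₀ (mul_pos M0 Y0), abs_le]
      have e1 : 2 * Y ≤ δ * (m * Y) := by nlinarith [mul_le_mul_of_nonneg_right (a1.trans c1) δ0.le]
      constructor <;> nlinarith)
    rw [dist_eq] at k2
    linarith [abs_sub_le (∑ d ∈ Finset.Icc a m, μ a d) (Phi ((a : ℝ) / m)) (Phi (A / Y))]
  · have c1 : (m : ℝ) + 1 ≤ a := by exact_mod_cast hlt
    have k2 := hδ 1 (Set.right_mem_Icc.2 zero_le_one) _ q (by
      rw [dist_eq, abs_of_nonneg (sub_nonneg.2 q.2), sub_le_comm, le_div_iff₀ Y0]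
      nlinarith [mul_le_mul_of_nonneg_right hY δ0.le])
    rw [dist_eq, Phi_one] at k2
    rw [Finset.Icc_eq_empty_of_lt hlt, Finset.sum_empty]
    linarith

lemma Ren.hit_base {lo hi : ℝ} (h0 : 0 ≤ lo) (hl : lo < hi) {ε : ℝ} (hε : 0 < ε) :
    ∀ᶠ T : ℕ in atTop, ∀ N : ℕ, hi * T ≤ N → ∀ d₀ : ℕ, (d₀ : ℝ) ≤ lo * T → 1 ≤ N - d₀ ∧
      |u (N - d₀) / u N - (1 - (T : ℝ) / N * ((d₀ : ℝ) / T)) ^ (-1 / 4 : ℝ)| ≤ ε := by
  have hi0 : 0 < hi := h0.trans_lt hl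
  have r0 : 0 < 1 - lo / hi := sub_pos.2 ((div_lt_one hi0).2 hl)
  have P0 : 0 < (1 - lo / hi) ^ (-1 / 4 : ℝ) := rpow_pos_of_pos r0 _
  obtain ⟨n₀, hn⟩ := hit_ratio h.pos h.lim (div_pos hε P0)
  filter_upwards [(tendsto_natCast_atTop_atTop.const_mul_atTop (sub_pos.2 hl)).eventually_ge_atTop
    ((n₀ : ℝ) + 1), eventually_gt_atTop 0] with T hT T0 N hN d₀ hd
  have p2 : (0 : ℝ) ≤ n₀ := Nat.cast_nonneg _
  have p3 : (0 : ℝ) ≤ d₀ := Nat.cast_nonneg _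
  have T1 : (0 : ℝ) < T := by exact_mod_cast T0
  have k1 : d₀ + (n₀ + 1) ≤ N := by exact_mod_cast (show (d₀ : ℝ) + (n₀ + 1) ≤ N by linarith)
  have N0 : (0 : ℝ) < N := by linarith
  have D0 : (0 : ℝ) < N - d₀ := by linarith
  refine ⟨by omega, ?_⟩
  have k2 := hn (N - d₀) N (by omega) (by omega)
  rw [Nat.cast_sub (by omega), le_div_iff₀ P0] at k2
  have e1 : 1 - (T : ℝ) / N * ((d₀ : ℝ) / T) = (N - d₀) / N := by field_simp
  have e2 : 1 - lo / hi ≤ ((N : ℝ) - d₀) / N := by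
    rw [sub_div, div_self N0.ne', sub_le_sub_iff_left, div_le_div_iff₀ N0 hi0]
    nlinarith
  have e3 : (((N : ℝ) - d₀) / N) ^ (-1 / 4 : ℝ) ≤ (1 - lo / hi) ^ (-1 / 4 : ℝ) :=
    rpow_le_rpow_of_nonpos r0 e2 (by norm_num)
  have e4 : u (N - d₀) / u N - (((N : ℝ) - d₀) / N) ^ (-1 / 4 : ℝ) =
      (u (N - d₀) * ((N : ℝ) - d₀) ^ (1 / 4 : ℝ) / (u N * (N : ℝ) ^ (1 / 4 : ℝ)) - 1) *
        (((N : ℝ) - d₀) / N) ^ (-1 / 4 : ℝ) := by
    have := (h.hit_pos N).ne'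
    have := (rpow_pos_of_pos N0 (1 / 4)).ne'
    have := (rpow_pos_of_pos D0 (1 / 4)).ne'
    rw [neg_div, rpow_neg (by positivity), div_rpow D0.le N0.le]
    field_simp
  rw [e1, e4, abs_mul, abs_of_pos (rpow_pos_of_pos (by positivity) _)]
  exact (mul_le_mul_of_nonneg_left e3 (abs_nonneg _)).trans k2

end

theorem Ren.hit {u : ℕ → ℝ} {μ : ℕ → ℕ → ℝ} {c : ℝ} (h : Ren u μ c)
    {Z : ℕ → List (ℝ × ℝ) → ℝ} (hnil : ∀ N, 1 ≤ N → Z N [] = u N)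
    (hcons : ∀ (N : ℕ) (I : ℝ × ℝ) (l : List (ℝ × ℝ)), 0 < I.1 → I.2 < N → (∀ J ∈ l, I.2 ≤ J.1) →
      Z N (I :: l) = ∑ d ∈ Finset.Icc ⌈I.1⌉₊ ⌊I.2⌋₊,
        μ ⌈I.1⌉₊ d * Z (N - d) (l.map fun J => (J.1 - d, J.2 - d)))
    {lo hi : ℝ} {l : List (ℝ × ℝ)} (h0 : 0 ≤ lo) (hl : Ord lo l hi) {ε : ℝ} (hε : 0 < ε) :
    ∃ T₀ : ℕ, ∀ T : ℕ, T₀ ≤ T → ∀ N : ℕ, hi * T ≤ N → ∀ d₀ : ℕ, (d₀ : ℝ) ≤ lo * T →
      |Z (N - d₀) (l.map fun I => (I.1 * T - d₀, I.2 * T - d₀)) / u N -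
        RN.hit ((T : ℝ) / N) l ((d₀ : ℝ) / T)| ≤ ε := by
  induction l generalizing lo ε with
  | nil =>
    refine eventually_atTop.1 ((h.hit_base h0 hl hε).mono fun T hT N hN d₀ hd => ?_)
    obtain ⟨k1, k2⟩ := hT N hN d₀ hd
    rw [List.map_nil, hnil _ k1]
    exact k2
  | cons I l ih =>
    obtain ⟨al, be⟩ := I
    obtain ⟨h1, h2, h3⟩ : lo < al ∧ al < be ∧ Ord be l hi := hl
    obtain ⟨h4, h5⟩ := hit_ord h3
    have b0 : 0 ≤ be := by linarith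
    have hi0 : 0 < hi := by linarith
    have ε6 : 0 < ε / 6 := by positivity
    have hc := hit_cont b0 h3
    have hK : IsCompact (Set.Icc 0 hi⁻¹ ×ˢ Set.Icc 0 be) := isCompact_Icc.prod isCompact_Icc
    obtain ⟨M, hM⟩ := hK.exists_bound_of_continuousOn hc
    obtain ⟨δ, δ0, hδ⟩ := Metric.uniformContinuousOn_iff_le.1
      (hK.uniformContinuousOn_of_continuous hc) _ ε6
    obtain ⟨η, η0, hη⟩ := stieltjes h2.le (abs_nonneg M) ε6 δ0
    obtain ⟨L, L0, hL⟩ := h.hit_cdf (lt_min η0 one_pos)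
    obtain ⟨T₁, hT₁⟩ := ih b0 h3 ε6
    refine eventually_atTop.1 ?_
    filter_upwards [(tendsto_natCast_atTop_atTop.const_mul_atTop (sub_pos.2 h1)).eventually_ge_atTop
      L, eventually_gt_atTop 0, eventually_ge_atTop T₁] with T hT T0 T2 N hN d₀ hd
    have T1 : (0 : ℝ) < T := by exact_mod_cast T0
    have p3 : (0 : ℝ) ≤ d₀ := Nat.cast_nonneg _
    have q1 := mul_lt_mul_of_pos_right h1 T1
    have q2 := mul_lt_mul_of_pos_right h2 T1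
    have q3 := mul_lt_mul_of_pos_right h4 T1
    have N0 : (0 : ℝ) < N := by linarith
    have k1 : d₀ ≤ N := by exact_mod_cast (show (d₀ : ℝ) ≤ N by linarith)
    have A1 : L ≤ al * T - d₀ := by linarith
    have lam : (T : ℝ) / N ∈ Set.Icc 0 hi⁻¹ := ⟨by positivity, by
      rw [div_le_iff₀ N0, le_inv_mul_iff₀ hi0]; exact hN⟩
    have s1 : (d₀ : ℝ) / T < al := by rw [div_lt_iff₀ T1]; linarith
    have sub : ∀ y ∈ Set.Icc al be, ((T : ℝ) / N, y) ∈ Set.Icc 0 hi⁻¹ ×ˢ Set.Icc 0 be :=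
      fun y hy => ⟨lam, by linarith [hy.1], hy.2⟩
    have val : ∀ y, al ≤ y → ∫ d in al..y, ker ((d₀ : ℝ) / T) al d =
        Phi ((al * T - d₀) / (y * T - d₀)) ∧ Phi ((al * T - d₀) / (y * T - d₀)) ≤ 1 := fun y hy => by
      have q4 := mul_le_mul_of_nonneg_right hy T1.le
      have q5 : 0 < y * T - d₀ := by linarith
      refine ⟨?_, hit_phi_le ⟨div_nonneg (by linarith) q5.le, (div_le_one q5).2 (by linarith)⟩⟩
      rw [ker_val s1 hy, ← mul_div_mul_right _ _ T1.ne', sub_mul, sub_mul,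
        div_mul_cancel₀ _ T1.ne']
    have mem : ∀ d ∈ Finset.Icc ⌈al * T - d₀⌉₊ ⌊be * T - d₀⌋₊,
        al * T ≤ (d₀ + d : ℕ) ∧ ((d₀ + d : ℕ) : ℝ) ≤ be * T := fun d hd => by
      obtain ⟨m1, m2⟩ := Finset.mem_Icc.1 hd
      rw [Nat.ceil_le] at m1
      rw [Nat.le_floor_iff (by linarith)] at m2
      push_cast
      constructor <;> linarith
    have st := hη (Finset.Icc ⌈al * T - d₀⌉₊ ⌊be * T - d₀⌋₊) (μ ⌈al * T - d₀⌉₊)
      (fun d => ((d₀ + d : ℕ) : ℝ) / T) (ker ((d₀ : ℝ) / T) al) (RN.hit ((T : ℝ) / N) l)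
      (fun d _ => h.nonneg _ d)
      (fun d hd => ⟨(le_div_iff₀ T1).2 (mem d hd).1, (div_le_iff₀ T1).2 (mem d hd).2⟩)
      (ker_int s1 h2.le) (fun y hy => ker_nonneg s1 hy.1)
      ((val be h2.le).1.trans_le (val be h2.le).2)
      (hc.comp (Continuous.prodMk_right _).continuousOn sub)
      (fun y hy => (hM _ (sub y hy)).trans (le_abs_self M))
      (fun y hy y' hy' hyy => hδ _ (sub y hy) _ (sub y' hy') (by
        rw [dist_prod_same_left]; exact hyy))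
      (fun y hy => by
        have q4 := mul_le_mul_of_nonneg_right hy.1 T1.le
        have q5 := mul_le_mul_of_nonneg_right hy.2 T1.le
        have e : (Finset.Icc ⌈al * T - d₀⌉₊ ⌊be * T - d₀⌋₊).filter
            (fun d : ℕ => ((d₀ + d : ℕ) : ℝ) / T ≤ y) = Finset.Icc ⌈al * T - d₀⌉₊ ⌊y * T - d₀⌋₊ := by
          ext d
          rw [Finset.mem_filter, Finset.mem_Icc, Finset.mem_Icc, Nat.le_floor_iff (by linarith),
            Nat.le_floor_iff (by linarith), div_le_iff₀ T1, Nat.cast_add]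
          exact ⟨fun k => ⟨k.1.1, by linarith [k.2]⟩,
            fun k => ⟨⟨k.1, by linarith [k.2]⟩, by linarith [k.2]⟩⟩
        rw [e, (val y hy.1).1]
        exact (hL _ _ A1 (by linarith)).trans (min_le_left _ _))
    have tm : ∑ d ∈ Finset.Icc ⌈al * T - d₀⌉₊ ⌊be * T - d₀⌋₊, μ ⌈al * T - d₀⌉₊ d ≤ 2 := by
      linarith [(abs_le.1 ((hL _ (be * T - d₀) A1 (by linarith)).trans (min_le_right _ _))).2,
        (val be h2.le).2]
    rw [List.map_cons, hcons _ _ _ (by linarith) (by rw [Nat.cast_sub k1]; linarith) (by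
      intro J hJ
      obtain ⟨J', hJ', rfl⟩ := List.mem_map.1 hJ
      linarith [mul_le_mul_of_nonneg_right (h5 J' hJ') T1.le]), hit_cons, Finset.sum_div]
    refine (abs_sub_le _ _ _).trans (le_trans (add_le_add ?_ st) (by linarith : ε / 6 * 2 + _ ≤ ε))
    rw [← Finset.sum_sub_distrib]
    refine (Finset.abs_sum_le_sum_abs _ _).trans (le_trans ?_ (mul_le_mul_of_nonneg_left tm ε6.le))
    rw [Finset.mul_sum]
    refine Finset.sum_le_sum fun d hd => ?_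
    have k2 := hT₁ T T2 N hN (d₀ + d) (mem d hd).2
    rw [mul_div_assoc, ← mul_sub, abs_mul, abs_of_nonneg (h.nonneg _ _), mul_comm, List.map_map,
      Nat.sub_sub]
    refine mul_le_mul_of_nonneg_right (le_of_eq_of_le ?_ k2) (h.nonneg _ _)
    congr 5
    ext J <;> simp [sub_sub]

end Pool.Agent.Lib.MP_4960b8_pr.RN
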