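import Pool.Agent.Lib.MP_4960b8_pr.RN.Riem
import Pool.Agent.Lib.MP_4960b8_pr.RN.Defs

/-! The overshoot kernel. -/

namespace Pool.Agent.Lib.MP_4960b8_pr.RN

open Filter Topology Real

/-- density at `d` of the first point after `a` of the limit set started at `s` -/
noncomputable def ker (s a d : ℝ) : ℝ := √2 / (2 * π) * ((a - s) / (d - a)) ^ (3 / 4 : ℝ) / (d - s)

lemma hit_cons (lam : ℝ) (I : ℝ × ℝ) (l : List (ℝ × ℝ)) (s : ℝ) :
    hit lam (I :: l) s = ∫ d in I.1..I.2, ker s I.1 d * hit lam l d := rfl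

lemma ker_nonneg {s a d : ℝ} (hs : s < a) (hd : a ≤ d) : 0 ≤ ker s a d := by
  have h1 : 0 < a - s := by linarith
  have h2 : 0 ≤ d - a := by linarith
  have h3 : 0 < d - s := by linarith
  unfold ker
  positivity

lemma kern_eq {s a d : ℝ} (hs : s ≤ a) (hd : a ≤ d) : ker s a d =
    (d - a) ^ (-3 / 4 : ℝ) * (√2 / (2 * π) * (a - s) ^ (3 / 4 : ℝ) / (d - s)) := by
  unfold ker
  rw [Real.div_rpow (by linarith) (by linarith), show (-3 / 4 : ℝ) = -(3 / 4) by ring,
    Real.rpow_neg (by linarith)]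
  ring

lemma kern_pow_int (a y : ℝ) :
    IntervalIntegrable (fun d : ℝ => (d - a) ^ (-3 / 4 : ℝ)) MeasureTheory.volume a y := by
  have := (intervalIntegral.intervalIntegrable_rpow' (a := 0) (b := y - a) (r := -3 / 4)
    (by norm_num)).comp_sub_right a
  simpa using this

lemma ker_int {s a y : ℝ} (hs : s < a) (hy : a ≤ y) :
    IntervalIntegrable (ker s a) MeasureTheory.volume a y := by
  have hc : ContinuousOn (fun d : ℝ => √2 / (2 * π) * (a - s) ^ (3 / 4 : ℝ) / (d - s))
      (Set.uIcc a y) := by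
    refine continuousOn_const.div (by fun_prop) fun d hd => ?_
    rw [Set.uIcc_of_le hy] at hd
    linarith [hd.1]
  refine ((kern_pow_int a y).mul_continuousOn hc).congr fun d hd => ?_
  rw [Set.uIoc_of_le hy] at hd
  exact (kern_eq hs.le hd.1.le).symm

lemma kern_deriv {x : ℝ} (h0 : 0 < x) (h1 : x < 1) :
    HasDerivAt Phi (√2 / (2 * π) * -bet x) x := by
  have hm : Measurable bet := by
    unfold bet
    fun_prop
  have hc : ContinuousAt bet x := by
    unfold bet
    refine (continuousAt_id.rpow_const (Or.inl h0.ne')).mul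
      ((continuousAt_const.sub continuousAt_id).rpow_const (Or.inl ?_))
    exact (sub_pos.2 h1).ne'
  exact (intervalIntegral.integral_hasDerivAt_left (bet_int ⟨h0.le, h1.le⟩ ⟨zero_le_one, le_rfl⟩)
    hm.stronglyMeasurable.stronglyMeasurableAtFilter hc).const_mul _

lemma ker_val {s a y : ℝ} (hs : s < a) (hy : a ≤ y) :
    ∫ d in a..y, ker s a d = Phi ((a - s) / (y - s)) := by
  have ha : 0 < a - s := by linarith
  have hmap : ∀ d ∈ Set.Icc a y, (a - s) / (d - s) ∈ Set.Icc (0 : ℝ) 1 := fun d hd => by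
    have : 0 < d - s := by linarith [hd.1]
    exact ⟨by positivity, (div_le_one this).2 (by linarith [hd.1])⟩
  have hc : ContinuousOn (fun d : ℝ => Phi ((a - s) / (d - s))) (Set.Icc a y) := by
    refine Phi_cont.comp (continuousOn_const.div (by fun_prop) fun d hd => ?_) hmap
    linarith [hd.1]
  rw [intervalIntegral.integral_eq_sub_of_hasDerivAt_of_le hy hc ?_ (ker_int hs hy),
    div_self ha.ne', Phi_one, sub_zero]
  intro d hd
  have h1 : 0 < d - s := by linarith [hd.1]
  have h2 : 0 < d - a := by linarith [hd.1]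
  have h3 : 0 < (a - s) / (d - s) := by positivity
  have h4 : (a - s) / (d - s) < 1 := (div_lt_one h1).2 (by linarith [hd.1])
  have h5 : HasDerivAt (fun d : ℝ => (a - s) / (d - s)) ((0 * (d - s) - (a - s) * 1) / (d - s) ^ 2)
      d := (hasDerivAt_const d (a - s)).div ((hasDerivAt_id d).sub_const s) h1.ne'
  refine ((kern_deriv h3 h4).comp d h5).congr_deriv ?_
  have e1 : 1 - (a - s) / (d - s) = (d - a) / (d - s) := by field_simp; ring
  have e2 : (a - s) / (d - a) = ((a - s) / (d - s)) / ((d - a) / (d - s)) := by field_simp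
  have e3 : ((a - s) / (d - s)) ^ (3 / 4 : ℝ) =
      ((a - s) / (d - s)) ^ (-1 / 4 : ℝ) * ((a - s) / (d - s)) := by
    rw [← Real.rpow_add_one h3.ne']
    norm_num
  unfold ker bet
  rw [e1, e2, Real.div_rpow h3.le (by positivity), e3, show (-3 / 4 : ℝ) = -(3 / 4) by ring,
    Real.rpow_neg (by positivity)]
  field_simp
  ring

lemma kern_param {K : Set (ℝ × ℝ)} (hK : IsCompact K) {a b : ℝ} (hab : a ≤ b) {φ : ℝ → ℝ}
    (hφ : IntervalIntegrable φ MeasureTheory.volume a b) {H : (ℝ × ℝ) × ℝ → ℝ}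
    (hH : ContinuousOn H (K ×ˢ Set.Icc a b)) :
    ContinuousOn (fun p => ∫ d in a..b, φ d * H (p, d)) K := by
  obtain ⟨C, hC⟩ := (hK.prod isCompact_Icc).exists_bound_of_continuousOn hH
  intro p hp
  refine intervalIntegral.continuousWithinAt_of_dominated_interval (bound := fun d => ‖φ d‖ * C)
    ?_ ?_ (hφ.norm.mul_const C) ?_
  · filter_upwards [self_mem_nhdsWithin] with q hq
    have hc : ContinuousOn (fun d => H (q, d)) (Set.uIcc a b) := by
      rw [Set.uIcc_of_le hab]
      exact hH.comp (by fun_prop) fun d hd => ⟨hq, hd⟩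
    exact (intervalIntegrable_iff.1 (hφ.mul_continuousOn hc)).aestronglyMeasurable
  · filter_upwards [self_mem_nhdsWithin] with q hq
    refine Eventually.of_forall fun d hd => ?_
    rw [Set.uIoc_of_le hab] at hd
    rw [norm_mul]
    exact mul_le_mul_of_nonneg_left (hC _ ⟨hq, hd.1.le, hd.2⟩) (norm_nonneg _)
  · refine Eventually.of_forall fun d hd => ?_
    rw [Set.uIoc_of_le hab] at hd
    have hc : ContinuousOn (fun q => H (q, d)) K :=
      hH.comp (by fun_prop) fun q hq => ⟨hq, hd.1.le, hd.2⟩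
    exact continuousWithinAt_const.mul (hc p hp)

lemma hit_cont {lo hi : ℝ} {l : List (ℝ × ℝ)} (h0 : 0 ≤ lo) (h : Ord lo l hi) :
    ContinuousOn (fun p : ℝ × ℝ => hit p.1 l p.2) (Set.Icc 0 hi⁻¹ ×ˢ Set.Icc 0 lo) := by
  induction l generalizing lo with
  | nil =>
    have hlt : lo < hi := h
    have hp : 0 < hi := by linarith
    refine ContinuousOn.rpow_const (f := fun p : ℝ × ℝ => 1 - p.1 * p.2) (by fun_prop)
      fun p hp' => Or.inl ?_
    obtain ⟨⟨h1, h2⟩, h3, h4⟩ := hp'
    have h5 : p.1 * p.2 ≤ hi⁻¹ * lo := mul_le_mul h2 h4 h3 (by positivity)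
    have h6 : hi⁻¹ * lo < 1 := by
      rw [inv_mul_lt_iff₀ hp]
      linarith
    exact (show 0 < 1 - p.1 * p.2 by linarith).ne'
  | cons I l ih =>
    obtain ⟨h1, h2, h3⟩ := h
    have hc := ih (lo := I.2) (by linarith) h3
    have key := kern_param (K := Set.Icc 0 hi⁻¹ ×ˢ Set.Icc 0 lo) (isCompact_Icc.prod isCompact_Icc)
      h2.le (kern_pow_int I.1 I.2) (H := fun q => √2 / (2 * π) * (I.1 - q.1.2) ^ (3 / 4 : ℝ) /
        (q.2 - q.1.2) * hit q.1.1 l q.2) (by
      refine ContinuousOn.mul (ContinuousOn.div (continuousOn_const.mul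
        (ContinuousOn.rpow_const (by fun_prop) fun _ _ => Or.inr (by norm_num))) (by fun_prop)
        fun q hq => ?_) ?_
      · linarith [hq.1.2.2, hq.2.1]
      · exact hc.comp (f := fun q : (ℝ × ℝ) × ℝ => (q.1.1, q.2)) (by fun_prop)
          fun q hq => ⟨hq.1.1, by linarith [hq.2.1], hq.2.2⟩)
    refine key.congr fun p hp => ?_
    simp only [hit_cons]
    refine intervalIntegral.integral_congr fun d hd => ?_
    rw [Set.uIcc_of_le h2.le] at hd
    rw [kern_eq (by linarith [hp.2.2]) hd.1, mul_assoc]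

lemma kern_sum {s : Finset ℕ} {w x : ℕ → ℝ} {g : ℝ → ℝ} {u v c ε : ℝ} (huv : u ≤ v)
    (hw : ∀ i ∈ s, 0 ≤ w i) (hg : ∀ i ∈ s, u < x i → x i ≤ v → |g (x i) - c| ≤ ε) :
    |∑ i ∈ s with x i ≤ v, w i * g (x i) - ∑ i ∈ s with x i ≤ u, w i * g (x i) -
      c * (∑ i ∈ s with x i ≤ v, w i - ∑ i ∈ s with x i ≤ u, w i)| ≤
      ε * (∑ i ∈ s with x i ≤ v, w i - ∑ i ∈ s with x i ≤ u, w i) := by
  simp only [Finset.sum_filter, ← Finset.sum_sub_distrib, Finset.mul_sum]
  refine (Finset.abs_sum_le_sum_abs _ _).trans (Finset.sum_le_sum fun i hi => ?_)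
  by_cases h1 : x i ≤ u
  · simp [h1, h1.trans huv]
  · by_cases h2 : x i ≤ v
    · simp only [h1, h2, if_true, if_false, sub_zero]
      rw [show w i * g (x i) - c * w i = (g (x i) - c) * w i by ring, abs_mul,
        abs_of_nonneg (hw i hi)]
      exact mul_le_mul_of_nonneg_right (hg i hi (not_le.1 h1) h2) (hw i hi)
    · simp [h1, h2]

lemma kern_intg {k g : ℝ → ℝ} {u v c ε : ℝ} (huv : u ≤ v)
    (hk : IntervalIntegrable k MeasureTheory.volume u v) (hk0 : ∀ y ∈ Set.Icc u v, 0 ≤ k y)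
    (hc : ContinuousOn g (Set.Icc u v)) (hg : ∀ y ∈ Set.Icc u v, |g y - c| ≤ ε) :
    |(∫ y in u..v, k y * g y) - c * ∫ y in u..v, k y| ≤ ε * ∫ y in u..v, k y := by
  have hi : IntervalIntegrable (fun y => k y * g y) MeasureTheory.volume u v :=
    hk.mul_continuousOn (by rwa [Set.uIcc_of_le huv])
  have h1 := intervalIntegral.integral_mono_on huv hi (hk.const_mul (c + ε)) fun y hy => by
    nlinarith [hk0 y hy, (abs_le.1 (hg y hy)).2]
  have h2 := intervalIntegral.integral_mono_on huv (hk.const_mul (c - ε)) hi fun y hy => by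
    nlinarith [hk0 y hy, (abs_le.1 (hg y hy)).1]
  rw [intervalIntegral.integral_const_mul] at h1 h2
  rw [abs_le]
  constructor <;> linarith

/-- weak convergence from the convergence of the distribution functions, quantitative form -/
theorem stieltjes {a b M ε δ : ℝ} (hab : a ≤ b) (hM : 0 ≤ M) (hε : 0 < ε) (hδ : 0 < δ) :
    ∃ η : ℝ, 0 < η ∧ ∀ (s : Finset ℕ) (w x : ℕ → ℝ) (k g : ℝ → ℝ), (∀ i ∈ s, 0 ≤ w i) →
      (∀ i ∈ s, x i ∈ Set.Icc a b) → IntervalIntegrable k MeasureTheory.volume a b →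
      (∀ y ∈ Set.Icc a b, 0 ≤ k y) → (∫ y in a..b, k y) ≤ 1 → ContinuousOn g (Set.Icc a b) →
      (∀ y ∈ Set.Icc a b, |g y| ≤ M) →
      (∀ y ∈ Set.Icc a b, ∀ y' ∈ Set.Icc a b, |y - y'| ≤ δ → |g y - g y'| ≤ ε) →
      (∀ y ∈ Set.Icc a b, |∑ i ∈ s with x i ≤ y, w i - ∫ z in a..y, k z| ≤ η) →
      |∑ i ∈ s, w i * g (x i) - ∫ y in a..b, k y * g y| ≤ 4 * ε := by
  obtain ⟨K, hK⟩ := exists_nat_gt ((b - a) / δ)
  have hK0 : (0 : ℝ) < K := lt_of_le_of_lt (div_nonneg (by linarith) hδ.le) hK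
  set h : ℝ := (b - a) / K with hh
  have h0 : 0 ≤ h := div_nonneg (by linarith) hK0.le
  have h1 : h ≤ δ := by
    rw [div_lt_iff₀ hδ] at hK
    rw [hh, div_le_iff₀ hK0]
    linarith
  have h2 : a + K * h = b := by
    rw [hh]
    field_simp
    ring
  have hD : 0 < (2 * K + 1) * M + ε := by positivity
  refine ⟨ε / ((2 * K + 1) * M + ε), by positivity, fun s w x k g hw hx hk hk0 hk1 hc hg hm hF => ?_⟩
  set η : ℝ := ε / ((2 * K + 1) * M + ε) with hη
  have hη0 : 0 < η := by positivity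
  have hη1 : ((2 * K + 1) * M + ε) * η = ε := by
    rw [hη]
    field_simp
  have hkg : IntervalIntegrable (fun y => k y * g y) MeasureTheory.volume a b :=
    hk.mul_continuousOn (by rwa [Set.uIcc_of_le hab])
  have sub : ∀ {f : ℝ → ℝ}, IntervalIntegrable f MeasureTheory.volume a b → ∀ u ∈ Set.Icc a b,
      ∀ v ∈ Set.Icc a b, IntervalIntegrable f MeasureTheory.volume u v := fun hf u hu v hv =>
    hf.mono_set (by
      rw [Set.uIcc_of_le hab]
      exact Set.uIcc_subset_Icc hu hv)
  have ha : a ∈ Set.Icc a b := ⟨le_rfl, hab⟩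
  have main : ∀ j : ℕ, j ≤ K →
      |∑ i ∈ s with x i ≤ a + j * h, w i * g (x i) - ∫ y in a..(a + j * h), k y * g y| ≤
        ε * (∑ i ∈ s with x i ≤ a + j * h, w i + ∫ y in a..(a + j * h), k y) +
          (2 * j + 1) * M * η := by
    intro j
    induction j with
    | zero =>
      intro _
      have e1 := hF a ha
      simp only [Nat.cast_zero, zero_mul, add_zero, intervalIntegral.integral_same, sub_zero,
        mul_zero, zero_add, one_mul] at e1 ⊢
      have e0 : 0 ≤ ∑ i ∈ s with x i ≤ a, w i :=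
        Finset.sum_nonneg fun i hi => hw i (Finset.mem_filter.1 hi).1
      have e2 : |∑ i ∈ s with x i ≤ a, w i * g (x i)| ≤ M * ∑ i ∈ s with x i ≤ a, w i := by
        rw [Finset.mul_sum]
        refine (Finset.abs_sum_le_sum_abs _ _).trans (Finset.sum_le_sum fun i hi => ?_)
        have hi' := (Finset.mem_filter.1 hi).1
        rw [abs_mul, abs_of_nonneg (hw i hi'), mul_comm]
        exact mul_le_mul_of_nonneg_right (hg _ (hx i hi')) (hw i hi')
      have e3 := mul_le_mul_of_nonneg_left ((le_abs_self _).trans e1) hM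
      nlinarith [mul_nonneg hε.le e0]
    | succ j ih =>
      intro hj
      have ih := ih (by omega)
      have hj' : ((j + 1 : ℕ) : ℝ) ≤ K := by exact_mod_cast hj
      have hv : a + ((j + 1 : ℕ) : ℝ) * h = a + j * h + h := by
        push_cast
        ring
      have hvb : a + j * h + h ≤ b := by
        rw [← hv, ← h2]
        nlinarith
      rw [hv]
      have hj0 : 0 ≤ (j : ℝ) * h := by positivity
      generalize a + j * h = u at ih hvb hv ⊢
      have hau : a ≤ u := by
        push_cast at hv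
        nlinarith
      have hu : u ∈ Set.Icc a b := ⟨hau, by linarith⟩
      have hv' : u + h ∈ Set.Icc a b := ⟨by linarith, hvb⟩
      have huv : u ≤ u + h := by linarith
      have near : ∀ y ∈ Set.Icc u (u + h), |g y - g u| ≤ ε := fun y hy =>
        hm y ⟨by linarith [hy.1], by linarith [hy.2]⟩ u hu
          (by rw [abs_le]; constructor <;> linarith [hy.1, hy.2])
      have e1 := kern_sum (x := x) (g := g) (c := g u) (ε := ε) huv hw
        fun i _ a1 a2 => near _ ⟨a1.le, a2⟩
      have ss : Set.Icc u (u + h) ⊆ Set.Icc a b := Set.Icc_subset_Icc hau hvb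
      have e2 := kern_intg huv (sub hk _ hu _ hv') (fun y hy => hk0 y (ss hy)) (hc.mono ss) near
      rw [← intervalIntegral.integral_interval_sub_left (sub hk _ ha _ hv') (sub hk _ ha _ hu),
        ← intervalIntegral.integral_interval_sub_left (sub hkg _ ha _ hv') (sub hkg _ ha _ hu)]
        at e2
      have e3 := hF u hu
      have e4 := hF _ hv'
      have e5 := hg u hu
      generalize ∑ i ∈ s with x i ≤ u + h, w i * g (x i) = A' at *
      generalize ∑ i ∈ s with x i ≤ u, w i * g (x i) = A at *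
      generalize ∑ i ∈ s with x i ≤ u + h, w i = F' at *
      generalize ∑ i ∈ s with x i ≤ u, w i = F at *
      generalize ∫ y in a..(u + h), k y * g y = B' at *
      generalize ∫ y in a..u, k y * g y = B at *
      generalize ∫ y in a..(u + h), k y = G' at *
      generalize ∫ y in a..u, k y = G at *
      have e6 : |g u * (F' - G' - (F - G))| ≤ M * (2 * η) := by
        rw [abs_mul]
        exact mul_le_mul e5 ((abs_sub _ _).trans (by linarith)) (abs_nonneg _) hM
      rw [abs_le] at ih e1 e2 e6 ⊢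
      push_cast
      constructor <;> nlinarith [ih.1, ih.2, e1.1, e1.2, e2.1, e2.2, e6.1, e6.2]
  have fin := main K le_rfl
  have e1 := hF b ⟨hab, le_rfl⟩
  rw [h2, Finset.filter_true_of_mem fun i hi => (hx i hi).2] at fin
  rw [Finset.filter_true_of_mem fun i hi => (hx i hi).2] at e1
  have e2 := (abs_le.1 e1).2
  refine fin.trans ?_
  nlinarith [mul_le_mul_of_nonneg_left (show ∑ i ∈ s, w i + ∫ y in a..b, k y ≤ 2 + η by linarith)
    hε.le]

end Pool.Agent.Lib.MP_4960b8_pr.RN
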