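import Pool.Agent.Lib.MP_4960b8_pr.QK.AnaE

/-! The multiplier in the scaling regime and the shifted boundary value problem. -/

namespace Pool.Agent.Lib.MP_4960b8_pr.RN

open Real QK

/-- the scaling variable -/
noncomputable def tt (τ : ℝ) : ℝ := exp (-4 * τ / 3) / 4

structure LamOK (Λ : ℝ → ℂ) (L : ℝ) : Prop where
  n1 : ∀ τ, -L ≤ τ → ‖Λ τ‖ ≤ 1
  rot : ∀ τ, -L ≤ τ → |(Λ τ).re / 2 + √3 / 2 * (Λ τ).im| ≤ 0.58
  dec : ∀ τ, -L ≤ τ → ‖Λ τ‖ ≤ exp (-(2.59 * tt τ))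
  pos : ∀ τ, 0 ≤ τ → 1 / 8 ≤ (Λ τ).re ∧ |(Λ τ).im| ≤ 1.52 * tt τ

/-- the boundary value problem seen from the height `(3/4) log (8 T)` -/
structure Sh (Λ : ℝ → ℂ) (L b : ℝ) (G : ℂ → ℂ) : Prop where
  hol : DifferentiableOn ℂ G Ust
  left : ∀ τ, (G (pt 0 τ)).im = 0
  bd : ∀ τ, -L ≤ τ → (G (pt (3 * π / 4) τ)).im = (Λ τ * G (pt (π / 4) τ)).im
  asym : ∀ ε : ℝ, 0 < ε → ∃ L' : ℝ, ∀ x τ : ℝ, |x| ≤ 3 * π / 4 → L' ≤ τ →
    ‖G (pt x τ) - 1 + b * Complex.exp (Complex.I * pt x τ)‖ ≤ ε * exp (-τ)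
  im : ∀ x τ, 0 ≤ x → x ≤ 3 * π / 4 → -L ≤ τ →
    |(G (pt x τ)).im| ≤ 0.75 * (exp (-2 * τ / 3) * sin (2 * x / 3))
  mid : ∀ τ, -L ≤ τ → ‖1 - G (pt (π / 4) τ)‖ ≤ exp (-2 * τ / 3) / 2
  dual : ∀ x τ, 0 ≤ x → x ≤ 3 * π / 4 → -L ≤ τ →
    |((1 - G (pt x τ)) * Complex.exp (-(4 * Complex.I * pt x τ / 3))).im| ≤
      1.25 * (exp (2 * τ / 3) * sin (2 * x / 3))

theorem lam_tt_pos (τ : ℝ) : 0 < tt τ := by
  unfold tt
  positivity

theorem lam_tt_anti {τ τ' : ℝ} (h : τ ≤ τ') : tt τ' ≤ tt τ := by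
  unfold tt
  have : exp (-4 * τ' / 3) ≤ exp (-4 * τ / 3) := exp_le_exp.2 (by linarith)
  linarith

theorem lam_ok {T : ℕ} {L : ℝ} (hT : 1000 ≤ T) (hL : 0 ≤ L) (h : tt (-L) ≤ T / 1000) :
    LamOK (fun τ => Lam T (tt τ / (2 * T))) L := by
  have hT' : (1000 : ℝ) ≤ T := by exact_mod_cast hT
  have hT0 : (0 : ℝ) < 2 * T := by linarith
  have y0 : ∀ τ, 0 < tt τ / (2 * T) := fun τ => div_pos (lam_tt_pos τ) hT0
  have y1 : ∀ τ, -L ≤ τ → tt τ / (2 * T) ≤ 1 / 2000 := fun τ hτ => by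
    rw [div_le_iff₀ hT0]
    linarith [lam_tt_anti hτ]
  have y2 : ∀ τ, -L ≤ τ → tt τ / (2 * T) ≤ 1 := fun τ hτ => (y1 τ hτ).trans (by norm_num)
  have y3 : ∀ τ, 2 * T * (tt τ / (2 * T)) = tt τ := fun τ => mul_div_cancel₀ _ hT0.ne'
  refine ⟨fun τ hτ => lam_le_one T (y0 τ) (y2 τ hτ), fun τ hτ => ?_, fun τ hτ => ?_,
    fun τ hτ => ?_⟩
  · have s1 := anab_s3_lo
    have s2 := anab_s3_hi
    rcases le_total (2 * T * (tt τ / (2 * T))) 1 with ht | ht
    · obtain ⟨g1, g2, g3, -⟩ := lam_good hT (y0 τ) ht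
      have g4 := (Complex.re_le_norm _).trans (lam_le_one T (y0 τ) (y2 τ hτ))
      have g5 : 0 ≤ -(Lam T (tt τ / (2 * T))).im :=
        le_trans (mul_nonneg (mul_nonneg (by norm_num) (mul_pos hT0 (y0 τ)).le) g1) g2
      have g6 := sqrt_le_one.2 ht
      have g7 : -(Lam T (tt τ / (2 * T))).im ≤ 0.42 := by linarith
      rw [abs_le]
      constructor <;> nlinarith
    · have b := lam_bad hT (y2 τ hτ) ht
      have b1 := abs_le.1 ((Complex.abs_re_le_norm _).trans b)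
      have b2 := abs_le.1 ((Complex.abs_im_le_norm _).trans b)
      rw [abs_le]
      constructor <;> nlinarith [b1.1, b1.2, b2.1, b2.2]
  · have := anab_lam_exp T (y0 τ) (y1 τ hτ) le_rfl (y2 τ hτ)
    rwa [y3] at this
  · have hτ' : -L ≤ τ := by linarith
    have t1 : tt τ ≤ 1 / 4 := by
      have := lam_tt_anti hτ
      rwa [show tt 0 = 1 / 4 by simp [tt]] at this
    obtain ⟨g1, g2, -, g4⟩ := lam_good hT (y0 τ) (by rw [y3]; linarith)
    have g5 : 0 ≤ -(Lam T (tt τ / (2 * T))).im :=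
      le_trans (mul_nonneg (mul_nonneg (by norm_num) (mul_pos hT0 (y0 τ)).le) g1) g2
    have b5 := (Complex.re_le_norm _).trans (lam_sub T hT (y0 τ) (y2 τ hτ'))
    rw [Complex.sub_re, Complex.one_re, y3] at b5
    rw [y3] at g4
    refine ⟨by linarith, ?_⟩
    rw [abs_le]
    constructor <;> linarith [lam_tt_pos τ]

theorem lam_pow_sub {w e : ℂ} (hw : ‖w‖ ≤ 1) (he : ‖e‖ ≤ 1) (n : ℕ) :
    ‖w ^ n - e ^ n‖ ≤ n * ‖w - e‖ := by
  induction n with
  | zero => simp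
  | succ n ih =>
    have e1 : w ^ (n + 1) - e ^ (n + 1) = w * (w ^ n - e ^ n) + e ^ n * (w - e) := by ring
    rw [e1]
    refine (norm_add_le _ _).trans ?_
    rw [norm_mul, norm_mul, norm_pow]
    have a1 := mul_le_of_le_one_left (norm_nonneg (w ^ n - e ^ n)) hw
    have a2 := mul_le_of_le_one_left (norm_nonneg (w - e)) (pow_le_one₀ (norm_nonneg e) he (n := n))
    push_cast
    linarith

theorem lam_f0 {Y : ℝ} (h0 : 0 < Y) (h1 : Y ≤ 1) : |lf0 Y - (1 - 2 * √3 * Y)| ≤ 10 * Y ^ 2 := by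
  have hD := anab_D_pos h0
  have s1 := anab_s3_lo
  have s2 := anab_s3_hi
  have e : lf0 Y - (1 - 2 * √3 * Y) = 2 * √3 * (√3 + Y) * Y ^ 2 / (1 + √3 * Y + Y ^ 2) := by
    rw [anab_lf0_eq h0]
    field_simp
    ring
  rw [e, abs_of_nonneg (by positivity)]
  refine (div_le_self (by positivity) (anab_D_ge h0)).trans ?_
  refine mul_le_mul_of_nonneg_right ?_ (sq_nonneg Y)
  nlinarith

theorem lam_fp {Y : ℝ} (h0 : 0 < Y) (h1 : Y ≤ 1) :
    ‖lfp Y - (1 - √3 * Y - 3 * Y * Complex.I)‖ ≤ 30 * Y ^ 2 := by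
  have hD := anab_D_pos h0
  have s1 := anab_s3_lo
  have s2 := anab_s3_hi
  have hY2 : Y ^ 2 ≤ Y := by nlinarith
  have hu : 1 ≤ (1 + Y ^ 2) * (1 + √3 * Y + Y ^ 2) :=
    one_le_mul_of_one_le_of_one_le (by nlinarith) (anab_D_ge h0)
  have e1 : (lfp Y - (1 - √3 * Y - 3 * Y * Complex.I)).re =
      ((1 + Y ^ 2) * (3 + √3 * Y) - 6) * Y ^ 2 / ((1 + Y ^ 2) * (1 + √3 * Y + Y ^ 2)) := by
    rw [Complex.sub_re, anab_lfp_re]
    simp only [Complex.sub_re, Complex.one_re, Complex.mul_re, Complex.ofReal_re,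
      Complex.ofReal_im, Complex.I_re, Complex.I_im, Complex.re_ofNat, Complex.im_ofNat,
      Complex.mul_im]
    field_simp
    linear_combination ((1 + Y ^ 2) * Y ^ 2) * anab_s3
  have e2 : (lfp Y - (1 - √3 * Y - 3 * Y * Complex.I)).im =
      3 * (√3 + 2 * Y + Y * (1 + √3 * Y + Y ^ 2)) * Y ^ 2 /
        ((1 + Y ^ 2) * (1 + √3 * Y + Y ^ 2)) := by
    rw [Complex.sub_im, anab_lfp_im]
    simp only [Complex.sub_im, Complex.one_im, Complex.mul_re, Complex.ofReal_re,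
      Complex.ofReal_im, Complex.I_re, Complex.I_im, Complex.re_ofNat, Complex.im_ofNat,
      Complex.mul_im]
    field_simp
    ring
  refine (Complex.norm_le_abs_re_add_abs_im _).trans ?_
  rw [e1, e2, abs_div, abs_of_pos (by positivity : 0 < (1 + Y ^ 2) * (1 + √3 * Y + Y ^ 2)),
    abs_of_nonneg (by positivity : 0 ≤ 3 * (√3 + 2 * Y + Y * (1 + √3 * Y + Y ^ 2)) * Y ^ 2 /
        ((1 + Y ^ 2) * (1 + √3 * Y + Y ^ 2))), abs_mul, abs_of_nonneg (sq_nonneg Y)]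
  have c1 : √3 * Y ≤ 1.7321 := by nlinarith
  have c0 : 0 ≤ √3 * Y := by positivity
  have a1 : |(1 + Y ^ 2) * (3 + √3 * Y) - 6| ≤ 6 := by
    have b1 : (1 + Y ^ 2) * (3 + √3 * Y) ≤ 2 * 4.7321 :=
      mul_le_mul (by linarith) (by linarith) (by positivity) (by norm_num)
    have b2 : 0 ≤ (1 + Y ^ 2) * (3 + √3 * Y) := by positivity
    rw [abs_le]
    constructor <;> linarith
  have a2 : 3 * (√3 + 2 * Y + Y * (1 + √3 * Y + Y ^ 2)) ≤ 24 := by
    have b1 : Y * (1 + √3 * Y + Y ^ 2) ≤ 1 * 3.7321 :=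
      mul_le_mul h1 (by linarith) (by positivity) (by norm_num)
    linarith
  have a3 := (div_le_self (by positivity) hu).trans (mul_le_mul_of_nonneg_right a1 (sq_nonneg Y))
  have a4 := (div_le_self (by positivity) hu).trans (mul_le_mul_of_nonneg_right a2 (sq_nonneg Y))
  linarith

theorem lam_w {Y : ℝ} (h0 : 0 < Y) (h1 : Y ≤ 1 / 6) :
    ‖(lf0 Y : ℂ) * lfp Y - Complex.exp (-((3 * √3 + 3 * Complex.I) * Y))‖ ≤ 88 * Y ^ 2 := by
  have h1' : Y ≤ 1 := by linarith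
  have n1 : ‖-((3 * √3 + 3 * Complex.I) * Y : ℂ)‖ ^ 2 = 36 * Y ^ 2 := by
    rw [anab_norm_sq]
    simp only [Complex.neg_re, Complex.neg_im, Complex.add_re, Complex.add_im, Complex.mul_re,
      Complex.ofReal_re, Complex.ofReal_im, Complex.I_re, Complex.I_im, Complex.re_ofNat,
      Complex.im_ofNat, Complex.mul_im]
    linear_combination (9 * Y ^ 2) * anab_s3
  have n2 : ‖-((3 * √3 + 3 * Complex.I) * Y : ℂ)‖ ≤ 1 := by
    refine (pow_le_one_iff_of_nonneg (norm_nonneg _) two_ne_zero).1 ?_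
    rw [n1]
    nlinarith
  have a1 := Complex.norm_exp_sub_one_sub_id_le n2
  rw [n1] at a1
  have a2 : ‖((lf0 Y - (1 - 2 * √3 * Y) : ℝ) : ℂ)‖ ≤ 10 * Y ^ 2 := by
    rw [Complex.norm_real, Real.norm_eq_abs]
    exact lam_f0 h0 h1'
  have a3 := lam_fp h0 h1'
  have a4 : ‖((1 - lf0 Y : ℝ) : ℂ) * (1 - lfp Y)‖ ≤ 12 * Y ^ 2 := by
    rw [norm_mul, Complex.norm_real, Real.norm_of_nonneg (by linarith [anab_lf0_le_one h0])]
    refine (mul_le_mul (anab_one_sub_lf0 h0) (anab_one_sub_lfp h0) (norm_nonneg _)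
      (by positivity)).trans (le_of_eq ?_)
    linear_combination (4 * Y ^ 2) * anab_s3
  have e : (lf0 Y : ℂ) * lfp Y - Complex.exp (-((3 * √3 + 3 * Complex.I) * Y)) =
      (((lf0 Y - (1 - 2 * √3 * Y) : ℝ) : ℂ) + (lfp Y - (1 - √3 * Y - 3 * Y * Complex.I)) +
        ((1 - lf0 Y : ℝ) : ℂ) * (1 - lfp Y)) -
      (Complex.exp (-((3 * √3 + 3 * Complex.I) * Y)) - 1 -
        -((3 * √3 + 3 * Complex.I) * Y)) := by
    push_cast
    ring
  rw [e]
  refine (norm_sub_le _ _).trans ?_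
  linarith [norm_add₃_le (a := ((lf0 Y - (1 - 2 * √3 * Y) : ℝ) : ℂ))
    (b := lfp Y - (1 - √3 * Y - 3 * Y * Complex.I)) (c := ((1 - lf0 Y : ℝ) : ℂ) * (1 - lfp Y))]

theorem lam_close (L : ℝ) {δ : ℝ} (hδ : 0 < δ) : ∃ T₀ : ℕ, ∀ T : ℕ, T₀ ≤ T → ∀ τ, -L ≤ τ →
    ‖Lam T (tt τ / (2 * T)) - Complex.exp (-((3 * √3 + 3 * Complex.I) / 2 * tt τ))‖ ≤
      δ * tt τ := by
  have hK := lam_tt_pos (-L)
  obtain ⟨T₀, hT₀⟩ := exists_nat_ge (3 * tt (-L) + (7 / 2 + 22 * tt (-L)) / δ)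
  refine ⟨T₀, fun T hT τ hτ => ?_⟩
  have hT' : (T₀ : ℝ) ≤ T := by exact_mod_cast hT
  have q0 : 0 < (7 / 2 + 22 * tt (-L)) / δ := by positivity
  have q1 : 3 * tt (-L) ≤ T := by linarith
  have q2 : 7 / 2 + 22 * tt (-L) ≤ T * δ := (div_le_iff₀ hδ).1 (by linarith)
  have hT0 : (0 : ℝ) < 2 * T := by linarith
  have ht := lam_tt_anti hτ
  obtain ⟨Y, hY⟩ : ∃ Y, Y = tt τ / (2 * T) := ⟨_, rfl⟩
  have y0 : 0 < Y := hY ▸ div_pos (lam_tt_pos τ) hT0
  have y3 : tt τ = 2 * T * Y := by rw [hY, mul_div_cancel₀ _ hT0.ne']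
  have y1 : Y ≤ 1 / 6 := by
    rw [hY, div_le_iff₀ hT0]
    linarith
  have e1 : Complex.exp (-((3 * √3 + 3 * Complex.I) / 2 * tt τ)) =
      Complex.exp (-((3 * √3 + 3 * Complex.I) * Y)) ^ T := by
    rw [← Complex.exp_nat_mul, y3]
    congr 1
    push_cast
    ring
  have n1 : ‖Complex.exp (-((3 * √3 + 3 * Complex.I) * Y))‖ ≤ 1 := by
    rw [Complex.norm_exp, exp_le_one_iff]
    simp only [Complex.neg_re, Complex.add_re, Complex.add_im, Complex.mul_re,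
      Complex.ofReal_re, Complex.ofReal_im, Complex.I_re, Complex.I_im, Complex.re_ofNat,
      Complex.im_ofNat, Complex.mul_im]
    have : 0 ≤ √3 * Y := by positivity
    linarith
  have a1 := lam_pow_sub (anab_w_le y0) n1 T
  have a2 := mul_le_mul_of_nonneg_left (lam_w y0 y1) (Nat.cast_nonneg (α := ℝ) T)
  have a3 : ‖((lf0 Y : ℂ) * lfp Y) ^ T * (1 - lla Y)‖ ≤ 7 * Y := by
    rw [norm_mul, norm_pow]
    exact (mul_le_of_le_one_left (norm_nonneg _)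
      (pow_le_one₀ (norm_nonneg _) (anab_w_le y0))).trans (anab_one_sub_lla y0 (by linarith))
  rw [← hY, e1, Lam]
  have e2 : ((lf0 Y : ℂ) * lfp Y) ^ T * lla Y - Complex.exp (-((3 * √3 + 3 * Complex.I) * Y)) ^ T =
      (((lf0 Y : ℂ) * lfp Y) ^ T - Complex.exp (-((3 * √3 + 3 * Complex.I) * Y)) ^ T) -
        ((lf0 Y : ℂ) * lfp Y) ^ T * (1 - lla Y) := by ring
  rw [e2]
  refine (norm_sub_le _ _).trans ?_
  have a4 := mul_le_mul_of_nonneg_right q2 y0.le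
  have a5 := mul_le_mul_of_nonneg_right ht y0.le
  rw [y3] at a5 ⊢
  linarith

theorem lam_sector {W : ℂ → ℂ} (hW : DifferentiableOn ℂ W Ust) {L C : ℝ}
    (hre : ∀ x τ : ℝ, |x| ≤ 3 * π / 4 → 0 ≤ (W (pt x τ)).re)
    (h1 : ∀ τ, (W (pt 0 τ)).im = 0) (h2 : ∀ x, |x| ≤ 3 * π / 4 → (W (pt x 0)).im = 0)
    (hC : ∀ x τ : ℝ, |x| ≤ 3 * π / 4 → L ≤ τ → ‖W (pt x τ)‖ ≤ C) {x τ : ℝ} (hx0 : 0 ≤ x)
    (hx1 : x ≤ 3 * π / 4) (hτ : 0 ≤ τ) :
    0 ≤ (W (pt x τ)).re * sin (2 * x / 3) - (W (pt x τ)).im * cos (2 * x / 3) := by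
  obtain ⟨s, hs'⟩ : ∃ s : ℝ, s = -1 := ⟨_, rfl⟩
  have hs : s = 1 ∨ s = -1 := Or.inr hs'
  have := mp_half (g := fun z => s * W z * Complex.exp (s * (2 * Complex.I * z / 3)))
    (((differentiableOn_const _).mul hW).mul (by fun_prop)) (t₀ := 0) (L := L) (C := C)
    (fun τ _ => by rw [anad_im _ hs, h1]; simp)
    (fun τ _ => by
      have e : 2 * (3 * π / 4) / 3 = π / 2 := by ring
      rw [anad_im _ hs, e, sin_pi_div_two, cos_pi_div_two, mul_one, mul_zero, add_zero]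
      exact mul_nonneg (exp_pos _).le (hre _ _ anad_r))
    (fun x h0 hx => by
      rw [anad_im _ hs, h2 x (anad_abs h0 hx), mul_zero s, zero_mul, add_zero]
      refine mul_nonneg (exp_pos _).le (mul_nonneg (hre _ _ (anad_abs h0 hx)) ?_)
      exact sin_nonneg_of_nonneg_of_le_pi (by positivity) (by linarith [pi_pos]))
    (fun x τ h0 hx hτ => by
      refine neg_le_of_abs_le ((Complex.abs_im_le_norm _).trans ?_)
      have e1 : ((s : ℂ) * (2 * Complex.I * pt x τ / 3)).re = -(s * (2 * τ / 3)) := by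
        simp [pt]; ring
      have e2 : ‖(s : ℂ)‖ = 1 := by rcases hs with rfl | rfl <;> simp
      have hc := hC x τ (anad_abs h0 hx) hτ
      rw [norm_mul, norm_mul, e2, one_mul, Complex.norm_exp, e1]
      refine mul_le_mul hc (exp_le_exp.2 ?_) (exp_pos _).le ((norm_nonneg _).trans hc)
      rcases hs with rfl | rfl <;> linarith)
    (x := x) (τ := τ) hx0 hx1 hτ
  rw [anad_im _ hs] at this
  have := nonneg_of_mul_nonneg_right this (exp_pos _)
  rw [hs'] at this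
  linarith

theorem lam_xi {T : ℕ} {b : ℝ} {Θ : ℂ → ℂ} (hT : 1000 ≤ T) (h : RH T 1 b Θ) {x τ : ℝ}
    (hx0 : 0 ≤ x) (hx1 : x ≤ 3 * π / 4) (hτ : 0 ≤ τ) :
    |(anadXi 1 Θ (pt x τ)).re * sin (2 * x / 3) - (anadXi 1 Θ (pt x τ)).im * cos (2 * x / 3)| ≤
      √(T / 2) * sin (2 * x / 3) := by
  obtain ⟨L, C, -, hC⟩ := anad_bdd h
  obtain ⟨M, hM⟩ : ∃ M : ℝ, M = √(T / 2) := ⟨_, rfl⟩
  have hS : ∀ x τ : ℝ, |x| ≤ 3 * π / 4 → |(anadXi 1 Θ (pt x τ)).re| ≤ M := fun x τ hx => by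
    have := anad_strip h (anad_line hT zero_le_one h) hx τ
    rwa [one_mul, ← hM] at this
  have i1 : ∀ τ, (anadXi 1 Θ (pt 0 τ)).im = 0 := fun τ => by
    have := anad_xi_refl h anad_z τ
    rw [neg_zero] at this
    exact Complex.conj_eq_iff_im.1 this.symm
  have i2 : ∀ x, |x| ≤ 3 * π / 4 → (anadXi 1 Θ (pt x 0)).im = 0 := fun x hx => by
    have := anad_xi_conj h hx 0
    rw [neg_zero] at this
    exact Complex.conj_eq_iff_im.1 this.symm
  have a1 := lam_sector (W := fun z => M + anadXi 1 Θ z)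
    ((differentiableOn_const _).add (anad_hol h)) (L := L) (C := ‖(M : ℂ)‖ + C)
    (fun x τ hx => by
      have := neg_le_of_abs_le (hS x τ hx)
      simp only [Complex.add_re, Complex.ofReal_re]
      linarith)
    (fun τ => by simp [i1]) (fun x hx => by simp [i2 x hx])
    (fun x τ hx hτ => (norm_add_le _ _).trans
      (add_le_add le_rfl (hC x τ hx (hτ.trans (le_abs_self _))))) hx0 hx1 hτ
  have a2 := lam_sector (W := fun z => M - anadXi 1 Θ z)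
    ((differentiableOn_const _).sub (anad_hol h)) (L := L) (C := ‖(M : ℂ)‖ + C)
    (fun x τ hx => by
      have := le_of_abs_le (hS x τ hx)
      simp only [Complex.sub_re, Complex.ofReal_re]
      linarith)
    (fun τ => by simp [i1]) (fun x hx => by simp [i2 x hx])
    (fun x τ hx hτ => (norm_sub_le _ _).trans
      (add_le_add le_rfl (hC x τ hx (hτ.trans (le_abs_self _))))) hx0 hx1 hτ
  simp only [Complex.add_re, Complex.add_im, Complex.sub_re, Complex.sub_im, Complex.ofReal_re,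
    Complex.ofReal_im, zero_add, zero_sub] at a1 a2
  rw [← hM, abs_le]
  constructor <;> linarith

theorem lam_dual {T : ℕ} {b : ℝ} {Θ : ℂ → ℂ} (hT : 1000 ≤ T) (h : RH T 1 b Θ) {x τ : ℝ}
    (hx0 : 0 ≤ x) (hx1 : x ≤ 3 * π / 4) (hτ : 0 ≤ τ) :
    |((1 - Θ (pt x τ)) * Complex.exp (-(4 * Complex.I * pt x τ / 3))).im| ≤
      2.5 * √(2 * T) * (exp (2 * τ / 3) * sin (2 * x / 3)) := by
  have a1 := lam_xi hT h hx0 hx1 hτ
  obtain ⟨a2, a3⟩ := h.stepA hT hx0 hx1 hτ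
  have a4 := anad_im (anadXi 1 Θ (pt x τ)) (s := -1) (Or.inr rfl) x τ
  have e0 : 2 * Complex.cos (2 * pt x τ / 3) *
      Complex.exp (((-1 : ℝ) : ℂ) * (2 * Complex.I * pt x τ / 3)) =
      1 + Complex.exp (-(4 * Complex.I * pt x τ / 3)) := by
    rw [Complex.two_cos, add_mul, ← Complex.exp_add, ← Complex.exp_add, ← Complex.exp_zero]
    congr 2 <;> push_cast <;> ring
  have e1 : (1 - Θ (pt x τ)) * Complex.exp (-(4 * Complex.I * pt x τ / 3)) =
      ((-2 : ℝ) : ℂ) * (((-1 : ℝ) : ℂ) * anadXi 1 Θ (pt x τ) *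
        Complex.exp (((-1 : ℝ) : ℂ) * (2 * Complex.I * pt x τ / 3))) - (1 - Θ (pt x τ)) := by
    rw [anadXi]
    generalize Complex.exp (((-1 : ℝ) : ℂ) * (2 * Complex.I * pt x τ / 3)) = E at e0 ⊢
    push_cast
    linear_combination (Θ (pt x τ) - 1) * e0
  rw [e1, Complex.sub_im, Complex.im_ofReal_mul, a4, Complex.sub_im, Complex.one_im]
  have e2 : √(2 * T) = 2 * √(T / 2) := by
    have := anad_sqrt T 0
    simpa using this
  have s0 := (anae_sin hx0 hx1).1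
  have hE := exp_pos (2 * τ / 3)
  have b1 : exp (-2 * τ / 3) * sin (2 * x / 3) ≤ exp (2 * τ / 3) * sin (2 * x / 3) :=
    mul_le_mul_of_nonneg_right (exp_le_exp.2 (by linarith)) s0
  have b2 := mul_le_mul_of_nonneg_left b1 (sqrt_nonneg (2 * T))
  have b3 : 0 ≤ √(2 * T) * (exp (-2 * τ / 3) * sin (2 * x / 3)) := by positivity
  obtain ⟨c1, c2⟩ := abs_le.1 a1
  have d1 := mul_le_mul_of_nonneg_left c1 hE.le
  have d2 := mul_le_mul_of_nonneg_left c2 hE.le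
  rw [show -(-1 * (2 * τ / 3)) = 2 * τ / 3 by ring, abs_le]
  rw [e2] at a2 a3 b2 b3 ⊢
  constructor <;> linarith

theorem rh_sh {T : ℕ} {b s L : ℝ} {Θ : ℂ → ℂ} (hT : 1000 ≤ T) (h : RH T 1 b Θ)
    (hs : exp (4 * s / 3) = 8 * T) (hL : L < s) :
    Sh (fun τ => Lam T (tt τ / (2 * T))) L (b * exp (-s)) fun z => Θ (z + s * Complex.I) := by
  have hT' : (1000 : ℝ) ≤ T := by exact_mod_cast hT
  have sh : ∀ x τ : ℝ, pt x τ + s * Complex.I = pt x (τ + s) := fun x τ => by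
    unfold pt
    push_cast
    ring
  have rt : ∀ τ : ℝ, √(2 * T) * exp (-2 * (τ + s) / 3) = exp (-2 * τ / 3) / 2 := fun τ => by
    rw [anae_rt hs, ← exp_nat_mul]
    congr 2
    push_cast
    ring
  refine ⟨?_, fun τ => ?_, fun τ hτ => ?_, fun ε hε => ?_, fun x τ h0 h1 hτ => ?_,
    fun τ hτ => ?_, fun x τ h0 h1 hτ => ?_⟩
  · refine h.hol.comp (by fun_prop) fun z hz => ?_
    simpa [Ust] using hz
  · rw [sh]
    exact h.im_imag _
  · have e : tt τ / (2 * T) = exp (-4 * (τ + s) / 3) := by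
      rw [div_eq_iff (by linarith), tt]
      have : exp (-4 * τ / 3) = exp (-4 * (τ + s) / 3) * exp (4 * s / 3) := by
        rw [← exp_add]
        congr 1
        ring
      rw [this, hs]
      ring
    rw [sh, sh, e]
    exact h.bd _ (by linarith)
  · obtain ⟨L', hL'⟩ := h.asym (ε * exp s) (by positivity)
    refine ⟨L' - s, fun x τ hx hτ => ?_⟩
    have a1 := hL' x (τ + s) hx (by linarith)
    have e1 : Complex.exp (Complex.I * pt x (τ + s)) =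
        (exp (-s) : ℝ) * Complex.exp (Complex.I * pt x τ) := by
      rw [← sh, Complex.ofReal_exp, ← Complex.exp_add]
      congr 1
      push_cast
      linear_combination (s : ℂ) * Complex.I_mul_I
    have e2 : ε * exp s * exp (-(τ + s)) = ε * exp (-τ) := by
      rw [mul_assoc, ← exp_add]
      congr 2
      ring
    rw [e1, e2, ← mul_assoc, ← Complex.ofReal_mul, Complex.ofReal_one] at a1
    rw [sh]
    exact a1
  · obtain ⟨a1, a2⟩ := h.stepA hT h0 h1 (by linarith : 0 ≤ τ + s)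
    rw [mul_assoc, ← mul_assoc (√(2 * T)), rt] at a1 a2
    have : 0 ≤ exp (-2 * τ / 3) * sin (2 * x / 3) :=
      mul_nonneg (exp_pos _).le (anae_sin h0 h1).1
    rw [sh, abs_le]
    constructor <;> linarith
  · have a1 := (h.apriori hT zero_le_one).2 (τ + s) (by linarith)
    rw [one_mul, anae_sqrt, rt, Complex.ofReal_one] at a1
    rw [sh]
    exact a1
  · have a1 := lam_dual hT h h0 h1 (by linarith : 0 ≤ τ + s)
    have e1 : Complex.exp (-(4 * Complex.I * pt x (τ + s) / 3)) =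
        ((8 * T : ℝ) : ℂ) * Complex.exp (-(4 * Complex.I * pt x τ / 3)) := by
      rw [← sh, ← hs, Complex.ofReal_exp, ← Complex.exp_add]
      congr 1
      push_cast
      linear_combination (-4 * (s : ℂ) / 3) * Complex.I_mul_I
    have e2 : √(2 * T) * exp (2 * s / 3) = 4 * T := by
      have q1 : exp (2 * s / 3) ^ 2 = 8 * T := by
        rw [← hs, ← exp_nat_mul]
        congr 1
        push_cast
        ring
      have q2 : √(2 * T) ^ 2 = 2 * T := sq_sqrt (by linarith)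
      refine (pow_left_inj₀ (by positivity) (by linarith) two_ne_zero).1 ?_
      rw [mul_pow, q1, q2]
      ring
    have e3 : exp (2 * (τ + s) / 3) = exp (2 * s / 3) * exp (2 * τ / 3) := by
      rw [← exp_add]
      congr 1
      ring
    have e4 : 2.5 * √(2 * T) * (exp (2 * s / 3) * exp (2 * τ / 3) * sin (2 * x / 3)) =
        10 * T * (exp (2 * τ / 3) * sin (2 * x / 3)) := by
      linear_combination (2.5 * (exp (2 * τ / 3) * sin (2 * x / 3))) * e2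
    rw [e1, mul_left_comm, Complex.im_ofReal_mul, abs_mul, abs_of_pos (by linarith), e3,
      e4] at a1
    rw [sh]
    refine le_of_mul_le_mul_left ?_ (by linarith : (0 : ℝ) < 8 * T)
    linarith

end Pool.Agent.Lib.MP_4960b8_pr.RN
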