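import Pool.Agent.Lib.MP_4960b8_pr.RN.Split

/-! The increments of the flux are partition functions of bridges. -/

namespace Pool.Agent.Lib.MP_4960b8_pr.RN

open SAW QK Filter Topology

/-- bridges which end at the leftmost visited vertex of the top row -/
def Lb (n : ℕ) : Set (List V) :=
  {γ | γ ∈ bridges n ∧ ∀ v ∈ γ, v.k = (lv q0 γ).k → v = lv q0 γ ∨ (lv q0 γ).j < v.j}

noncomputable def rr (n : ℕ) : ℝ :=
  tot {γ | γ ∈ Lb n ∧ ∀ t : ℤ, 1 ≤ t → t < n → ¬ IsCut γ t}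

lemma step_Lb_sub (n : ℕ) : Lb n ⊆ bridges n := fun _ h => h.1

/-- exits through the step are bridges ending leftmost -/
lemma step_X_le (T N : ℕ) : xc * comba_X T N ≤ tot (Lb (T + 1)) := by
  have f := fun j => (comba_D_fin T N |> fun h => finite_exit h (pB j) (qB j)).subset
    (t := {l | l ∈ Exit (comba_D T N) (pB j) (qB j) ∧ lv (qB j) l = ⟨2 - T, -1, T⟩}) fun _ h => h.1
  have hg : ∀ j : ℤ, IsSym (gT (-(1 - j)) (1 - j) 0) := fun j => sym_T (by ring)
  have hq : ∀ j : ℤ, gT (-(1 - j)) (1 - j) 0 (qB j) = q0 := fun j => by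
    rw [comba_gq]; simp [qB, q0]
  have e : ∀ j, mu ((fun l => q0 :: l.map (gT (-(1 - j)) (1 - j) 0)) ''
      {l | l ∈ Exit (comba_D T N) (pB j) (qB j) ∧ lv (qB j) l = ⟨2 - T, -1, T⟩}) =
      xc * comba_m (comba_D T N) (· = ⟨2 - T, -1, T⟩) j := fun j =>
    comba_mu_image (f j) _
      (fun a _ b _ e => List.map_injective_iff.2 (hg j).1 (List.cons.inj e).2) fun l _ => by simp
  have hl : ∀ j l, lv (qB j) l = ⟨2 - T, -1, T⟩ →
      lv q0 (l.map (gT (-(1 - j)) (1 - j) 0)) = ⟨2 - T + -(1 - j), -1 + (1 - j), T + 0⟩ :=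
    fun j l h => by rw [← hq j, lv_map, h]; rfl
  rw [comba_X, comba_M, Finset.mul_sum]
  simp only [← e]
  unfold mu
  rw [← ms_biUnion _ _ (fun j _ => (f j).image _) fun j _ j' _ hne => Set.disjoint_left.2 ?_]
  · refine comba_le_Zc (tot_summable (step_Lb_sub _))
      (Set.Finite.biUnion (Finset.finite_toSet _) fun j _ => (f j).image _)
      (Set.iUnion₂_subset fun j _ => ?_)
    rintro _ ⟨l, ⟨h1, h2⟩, rfl⟩
    have a1 := h1.1.map (hg j)
    rw [hq] at a1
    have key : ∀ v ∈ q0 :: l.map (gT (-(1 - j)) (1 - j) 0), ∃ u,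
        (u ∈ comba_D T N ∨ u = ⟨2 - T, -1, T⟩) ∧ gT (-(1 - j)) (1 - j) 0 u = v := fun v hv => by
      rw [← hq j, ← List.map_cons] at hv
      obtain ⟨u, hu, rfl⟩ := List.mem_map.1 hv
      exact ⟨u, h2 ▸ h1.2.1.mem hu, rfl⟩
    refine ⟨comba_mem' a1 (fun v hv => ?_) (by rw [hl j l h2]; dsimp only; omega)
      (by rw [hl j l h2]; dsimp only; omega), fun v hv hk => ?_⟩
    · obtain ⟨u, a | a, rfl⟩ := key v hv
      · rw [comba_mem_D] at a; simp only [gT]; omega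
      · rw [a]; simp only [gT]; omega
    · rw [lv_cons, hl j l h2] at hk ⊢
      obtain ⟨u, a | a, rfl⟩ := key v hv
      · right
        rw [comba_mem_D] at a
        simp only [gT] at hk ⊢
        omega
      · left
        rw [a]; rfl
  · rintro _ ⟨l, h1, rfl⟩ ⟨l', h2, e'⟩
    have a1 := hl j l h1.2
    rw [← (List.cons.inj e').2, hl j' l' h2.2, V.ext_iff] at a1
    dsimp only at a1
    omega

/-- bridges ending leftmost are exits through the step -/
lemma step_le_X {T : ℕ} {S : Set (List V)} (hS : S.Finite) (h : S ⊆ Lb (T + 1)) :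
    ∀ᶠ N in atTop, mu S ≤ xc * comba_X T N := by
  have fA : (V.j '' ⋃ γ ∈ S, {v | v ∈ γ}).Finite :=
    (hS.biUnion fun γ _ => γ.finite_toSet).image _
  obtain ⟨K1, h1⟩ := fA.bddAbove
  obtain ⟨K2, h2⟩ := fA.bddBelow
  have hK : ∀ γ ∈ S, ∀ v ∈ γ, K2 ≤ v.j ∧ v.j ≤ K1 := fun γ hγ v hv =>
    ⟨h2 ⟨v, Set.mem_biUnion hγ hv, rfl⟩, h1 ⟨v, Set.mem_biUnion hγ hv, rfl⟩⟩
  filter_upwards [eventually_gt_atTop (K1 - K2).toNat] with N hN
  have e1 := mu_le_sum (S := S) (Finset.Ico (-N : ℤ) N)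
    (fun j => {γ | γ ∈ S ∧ (lv q0 γ).j = -j}) (fun j _ => hS.subset fun _ h => h.1)
    fun γ hγ => ⟨-(lv q0 γ).j, by
      obtain ⟨m, rfl, -⟩ := comba_mem (h hγ).1
      have a1 := hK _ hγ _ (lv_mem q0 m)
      have a2 : K2 ≤ 1 ∧ 1 ≤ K1 := hK _ hγ q0 List.mem_cons_self
      rw [Finset.mem_Ico, lv_cons]
      omega, hγ, by ring⟩
  refine e1.trans ?_
  rw [comba_X, comba_M, Finset.mul_sum]
  refine Finset.sum_le_sum fun j _ => ?_
  have hg : IsSym (gT (-(j - 1)) (j - 1) 0) := sym_T (by ring)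
  have hp : gT (-(j - 1)) (j - 1) 0 p0 = pB j := by
    rw [show p0 = pB 1 from rfl, comba_gp]; congr 1; ring
  have hq : gT (-(j - 1)) (j - 1) 0 q0 = qB j := by
    rw [show q0 = qB 1 from rfl, comba_gq]; congr 1; ring
  have f : {l | l ∈ Exit (comba_D T N) (pB j) (qB j) ∧ lv (qB j) l = ⟨2 - T, -1, T⟩}.Finite :=
    (finite_exit (comba_D_fin T N) _ _).subset fun _ h => h.1
  rw [comba_m, ← comba_mu_image f (fun l => qB j :: l)
    (fun a _ b _ e => (List.cons.inj e).2) fun l _ => rfl]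
  refine mu_le_map hg (f.image _) ?_
  rintro γ ⟨hγ, a0⟩
  obtain ⟨m, rfl, a1, a2, a3, a4⟩ := comba_mem (h hγ).1
  have a6 := (h hγ).2
  rw [lv_cons] at a0 a6
  have b1 := a1.map hg
  have b2 := lv_map (gT (-(j - 1)) (j - 1) 0) q0 m
  rw [hp, hq] at b1
  rw [hq] at b2
  have b3 : lv (qB j) (m.map (gT (-(j - 1)) (j - 1) 0)) = ⟨2 - T, -1, T⟩ := by
    rw [b2, V.ext_iff]
    simp only [gT]
    omega
  refine ⟨m.map (gT (-(j - 1)) (j - 1) 0), ⟨⟨b1, b1.Inn_iff.2 fun v hv hne => ?_, fun hm => ?_⟩, b3⟩,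
    by rw [List.map_cons, hq]⟩
  · rw [← hq, ← List.map_cons] at hv
    obtain ⟨u, hu, rfl⟩ := List.mem_map.1 hv
    have c1 := a2 u hu
    have c2 := hK _ hγ u hu
    have c3 := hK _ hγ _ (lv_mem q0 m)
    have c4 := a1.valid (List.mem_cons_of_mem _ hu)
    have c5 : u.k = (lv q0 m).k → (lv q0 m).j < u.j := fun e =>
      (a6 u hu e).resolve_left fun e' => hne (by rw [b2, e'])
    unfold Valid at c4
    rw [comba_mem_D]
    simp only [gT]
    omega
  · rw [b3, comba_mem_D] at hm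
    dsimp only at hm
    omega

theorem step_eq {T : ℕ} (hT : 1 ≤ T) {s s' : ℝ} (h : Tendsto (RT T) atTop (𝓝 s))
    (h' : Tendsto (RT (T + 1)) atTop (𝓝 s')) : s' - s = tot (Lb (T + 1)) := by
  have h2 : Tendsto (fun N => RT (T + 1) (2 * N)) atTop (𝓝 s') :=
    h'.comp (tendsto_id.const_mul_atTop' (by norm_num))
  apply le_antisymm
  · have := ((h'.const_mul 2).sub h).sub h2
    rw [show 2 * s' - s - s' = s' - s by ring] at this
    refine le_of_tendsto this ?_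
    filter_upwards [eventually_ge_atTop 1] with N a2
    exact (comba_X_bounds hT a2).1.trans (step_X_le T N)
  · refine (comba_Zc_le fun S hS hs => ?_).2
    refine ge_of_tendsto (h2.sub h) ?_
    filter_upwards [step_le_X hS hs, eventually_ge_atTop 1] with N a1 a2
    exact a1.trans (comba_X_bounds hT a2).2

lemma step_lv_glue {h : ℕ} (α : List V) {β : List V} (hβ : β ∈ bridges h) :
    lv q0 (glue α β) =
      gT ((lv q0 α).i - 1) ((lv q0 α).j - 1) ((lv q0 α).k + 1) (lv q0 β) := by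
  obtain ⟨m, rfl, -⟩ := comba_mem hβ
  rw [glue, lv_append, List.map_cons, lv_cons, lv_cons, lv_map]

/-- the glued walk ends leftmost iff its upper part does -/
lemma step_glue_Lb {t h : ℕ} {α β : List V} (hα : α ∈ bridges t) (hβ : β ∈ bridges h) :
    glue α β ∈ Lb (t + h) ↔ β ∈ Lb h := by
  have e := step_lv_glue α hβ
  constructor
  · rintro ⟨-, H⟩
    refine ⟨hβ, fun v hv hk => ?_⟩
    have := H _ (List.mem_append_right α (List.mem_map_of_mem hv)) (by
      rw [e]; simp only [gT]; omega)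
    rw [e] at this
    simp only [gT, V.ext_iff] at this ⊢
    omega
  · rintro ⟨-, H⟩
    refine ⟨glue_mem hα hβ, fun v hv hk => ?_⟩
    rw [e] at hk ⊢
    rcases List.mem_append.1 hv with hw | hw
    · exfalso
      obtain ⟨m, rfl, -, a2, a3, -⟩ := comba_mem hα
      obtain ⟨m', rfl, -, b2, -, -⟩ := comba_mem hβ
      have c1 := (a2 v hw).2
      have c2 := (b2 _ (lv_mem q0 m')).1
      simp only [gT, lv_cons] at hk
      omega
    · obtain ⟨u, hu, rfl⟩ := List.mem_map.1 hw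
      have := H u hu (by simp only [gT] at hk; omega)
      simp only [gT, V.ext_iff] at this ⊢
      omega

/-- walks of `Lb n` whose last cut level below the top is `t` -/
def step_P (n t : ℕ) : Set (List V) :=
  {γ | γ ∈ Lb n ∧ IsCut γ t ∧ ∀ s : ℤ, (t : ℤ) < s → s < n → ¬ IsCut γ s}

lemma step_cover {n : ℕ} (hn : 1 ≤ n) : Lb n = ⋃ t ∈ Finset.range n, step_P n t := by
  classical
  refine Set.Subset.antisymm (fun γ hγ => ?_) (Set.iUnion₂_subset fun t _ γ hγ => hγ.1)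
  have h0 : IsCut γ ((0 : ℕ) : ℤ) := cut_of_le hγ.1 (by simp)
  have h1 : Nat.findGreatest (fun t : ℕ => IsCut γ t) (n - 1) ≤ n - 1 := Nat.findGreatest_le _
  refine Set.mem_iUnion₂.2 ⟨Nat.findGreatest (fun t : ℕ => IsCut γ t) (n - 1),
    Finset.mem_range.2 (by omega), hγ,
    Nat.findGreatest_spec (P := fun t : ℕ => IsCut γ t) (Nat.zero_le _) h0, fun s h2 h3 hc => ?_⟩
  obtain ⟨s, rfl⟩ := Int.eq_ofNat_of_zero_le (a := s) (by omega)
  exact Nat.findGreatest_is_greatest (P := fun t : ℕ => IsCut γ t) (k := s) (n := n - 1)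
    (by omega) (by omega) hc

lemma step_disj (n : ℕ) : ((Finset.range n : Finset ℕ) : Set ℕ).PairwiseDisjoint (step_P n) := by
  intro t ht t' ht' hne
  rw [Finset.mem_coe, Finset.mem_range] at ht ht'
  refine Set.disjoint_left.2 fun γ h h' => ?_
  rcases lt_or_gt_of_ne hne with c | c
  · exact h.2.2 t' (by omega) (by omega) h'.2.1
  · exact h'.2.2 t (by omega) (by omega) h.2.1

lemma step_P_zero (n : ℕ) :
    step_P n 0 = {γ | γ ∈ Lb n ∧ ∀ t : ℤ, 1 ≤ t → t < n → ¬ IsCut γ t} := by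
  ext γ
  exact ⟨fun h => ⟨h.1, fun t h1 h2 => h.2.2 t (by omega) h2⟩,
    fun h => ⟨h.1, cut_of_le h.1.1 (by simp), fun t h1 h2 => h.2 t (by omega) h2⟩⟩

lemma step_P_pos {n t : ℕ} (h0 : 0 < t) (h1 : t < n) :
    step_P n t = Set.image2 glue (bridges t)
      {γ | γ ∈ Lb (n - t) ∧ ∀ s : ℤ, 1 ≤ s → s < (n - t : ℕ) → ¬ IsCut γ s} := by
  have e : t + (n - t) = n := by omega
  ext γ
  constructor
  · rintro ⟨a1, a2, a3⟩
    obtain ⟨α, hα, β, hβ, rfl⟩ := exists_glue a1.1 h0 h1 a2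
    refine Set.mem_image2_of_mem hα ⟨(step_glue_Lb hα hβ).1 (e.symm ▸ a1), fun s b1 b2 hc => ?_⟩
    refine a3 (s + t) (by omega) (by omega) ((cut_glue_ge hα hβ (by omega)).2 ?_)
    rwa [add_sub_cancel_right]
  · rintro ⟨α, hα, β, ⟨b1, b2⟩, rfl⟩
    refine ⟨e ▸ (step_glue_Lb hα b1.1).2 b1,
      (cut_glue_le hα b1.1 le_rfl).2 (cut_of_ge hα le_rfl), fun s c1 c2 hc => ?_⟩
    exact b2 (s - t) (by omega) (by omega) ((cut_glue_ge hα b1.1 c1.le).1 hc)

/-- decomposition at the last cut level below the top -/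
theorem ren_last {n : ℕ} (hn : 1 ≤ n) :
    tot (Lb n) = ∑ t ∈ Finset.range n, uu t * rr (n - t) := by
  rw [step_cover hn, tot_biUnion (n := n) _ _ (fun t _ γ hγ => hγ.1.1) (step_disj n)]
  refine Finset.sum_congr rfl fun t ht => ?_
  rw [Finset.mem_range] at ht
  rcases Nat.eq_zero_or_pos t with rfl | h0
  · rw [step_P_zero, uu, if_pos rfl, one_mul, Nat.sub_zero, rr]
  · rw [step_P_pos h0 ht, tot_glue (t := t) (h := n - t) Set.Subset.rfl fun γ hγ => hγ.1.1, uu,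
      if_neg h0.ne', rr]

end Pool.Agent.Lib.MP_4960b8_pr.RN
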