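import Pool.Agent.Lib.MP_4960b8_pr.QK.Main
import Pool.Agent.Lib.MP_4960b8_pr.QK.GoodE
import Pool.Agent.Lib.MP_4960b8_pr.RN.Cauchy
import Pool.Agent.Lib.MP_4960b8_pr.RN.Step
import Pool.Agent.Lib.MP_4960b8_pr.RN.Hit

/-! Assembly. -/

namespace Pool.Agent.Lib.MP_4960b8_pr.RN

open SAW QK Filter Topology Polynomial

theorem flux_rh {T : ℕ} (hT : 1000 ≤ T) : ∃ (b : ℝ) (Θ : ℂ → ℂ), RH T 1 b Θ ∧
    Tendsto (RT T) atTop (𝓝 ((b - c18) / (2 * c18))) := by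
  have k0 : 0 < 2 * c18 := mul_pos two_pos anaf_c18.1
  obtain ⟨ψ, φ, Pl, h1, h2, h3, h4, -, h6⟩ := alg good T
  obtain ⟨p1, p2⟩ := phys T ψ φ h1
  have z : Pl.coeff 0 = 0 → Pl = 0 := fun h0 =>
    anaf_real hT h3 (anaf_im hT h3 (by rw [h0, Complex.zero_im])) h0
  have n0 : ψ zer ≠ 0 := fun e => h2.elim (fun b => b (p1 e)) fun b => b (z (h4.trans e))
  have h0 : Pl.coeff 0 ≠ 0 := h4 ▸ n0
  have h7 := anaf_lin h3 h3 (Pl.coeff 0)⁻¹ 0
  rw [map_zero, zero_mul, add_zero] at h7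
  have c0 : (C (Pl.coeff 0)⁻¹ * Pl).coeff 0 = 1 := by rw [coeff_C_mul, inv_mul_cancel₀ h0]
  have hr := anaf_im hT h7 (by rw [c0, Complex.one_im])
  have h8 := th_rh h7 hr
  rw [c0, Complex.one_re] at h8
  refine ⟨_, _, h8, ?_⟩
  have e0 : (((C (Pl.coeff 0)⁻¹ * Pl).coeff 1).re : ℂ) = (Pl.coeff 0)⁻¹ * Pl.coeff 1 := by
    rw [← coeff_C_mul]
    exact Complex.ext (Complex.ofReal_re _) (by rw [Complex.ofReal_im, hr])
  have k1 : ((2 * c18 : ℝ) : ℂ) ≠ 0 := Complex.ofReal_ne_zero.2 k0.ne'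
  have e : (ψ zer)⁻¹ * (ζ * ∑ j ∈ Finset.range T, φ (sgl j)) =
      (((((1 + √2) * T * c18 + c18) * 1 - ((C (Pl.coeff 0)⁻¹ * Pl).coeff 1).re - c18) /
        (2 * c18) : ℝ) : ℂ) := by
    rw [Complex.ofReal_div, eq_div_iff k1, inv_mul_eq_div, div_mul_eq_mul_div, div_eq_iff n0]
    push_cast
    rw [e0, ← h4]
    field_simp
    linear_combination h6
  have t := p2.const_mul (ψ zer)⁻¹
  simp only [inv_mul_cancel_left₀ n0, e] at t
  exact (Complex.continuous_re.tendsto _).comp t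

theorem flux_lim : ∃ (S : ℕ → ℝ) (σ : ℝ), 0 < σ ∧
    (∀ T, 1000 ≤ T → Tendsto (RT T) atTop (𝓝 (S T))) ∧
    Tendsto (fun T : ℕ => S T / (T : ℝ) ^ (3 / 4 : ℝ)) atTop (𝓝 σ) := by
  have k0 : 0 < 2 * c18 := mul_pos two_pos anaf_c18.1
  choose! b Θ h1 h2 using fun (T : ℕ) (hT : 1000 ≤ T) => flux_rh hT
  have hc : CauchySeq fun T : ℕ => b T / (8 * T : ℝ) ^ (3 / 4 : ℝ) := by
    refine Metric.cauchySeq_iff.2 fun ε hε => ?_
    obtain ⟨T₀, h⟩ := rh_cauchy (half_pos hε)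
    refine ⟨max T₀ 1000, fun m hm n hn => ?_⟩
    rw [Real.dist_eq]
    exact (h m n (le_of_max_le_left hm) (le_of_max_le_left hn) _ _ _ _
      (h1 _ (le_of_max_le_right hm)) (h1 _ (le_of_max_le_right hn))).trans_lt (half_lt_self hε)
  obtain ⟨β, hβ⟩ := cauchySeq_tendsto_of_complete hc
  have hβ0 : 1 / 2000 ≤ β := by
    refine ge_of_tendsto hβ ?_
    filter_upwards [eventually_ge_atTop 1000] with T hT
    have : (0 : ℝ) < T := by exact_mod_cast (by omega : 0 < T)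
    rw [le_div_iff₀ (by positivity)]
    exact ((h1 T hT).one hT).1
  have h0 : Tendsto (fun T : ℕ => ((T : ℝ) ^ (3 / 4 : ℝ))⁻¹) atTop (𝓝 0) :=
    ((tendsto_rpow_atTop (by norm_num)).comp tendsto_natCast_atTop_atTop).inv_tendsto_atTop
  refine ⟨fun T => (b T - c18) / (2 * c18), ((8 : ℝ) ^ (3 / 4 : ℝ) * β - c18 * 0) / (2 * c18),
    div_pos (by rw [mul_zero, sub_zero]; positivity) k0, h2, ?_⟩
  refine (((hβ.const_mul ((8 : ℝ) ^ (3 / 4 : ℝ))).sub (h0.const_mul c18)).div_const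
    (2 * c18)).congr' ?_
  filter_upwards [eventually_ge_atTop 1] with T hT
  have hT0 : (0 : ℝ) < T := by exact_mod_cast (by omega : 0 < T)
  have h8 : (0 : ℝ) < (8 : ℝ) ^ (3 / 4 : ℝ) := by positivity
  have h9 : (0 : ℝ) < (T : ℝ) ^ (3 / 4 : ℝ) := by positivity
  rw [Real.mul_rpow (by norm_num) hT0.le]
  field_simp

theorem ren : ∃ c : ℝ, Ren uu mm c := by
  obtain ⟨S, σ, hσ, h1, h2⟩ := flux_lim
  have u0 : uu 0 = 1 := if_pos rfl
  have u1 : ∀ n, 1 ≤ n → uu n = tot (bridges n) := fun n hn => if_neg (by omega)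
  obtain ⟨c, hc, h⟩ := ulim (u := uu) (r := rr) (X := fun n => tot (Lb n)) (S := S) (T₀ := 1000) hσ
    uu_anti u0 (fun n => by
      unfold uu
      split_ifs
      · exact zero_le_one
      · exact tot_nonneg _) (fun n => tot_nonneg _) (fun n hn => ren_last hn)
    (fun n hn => by rw [u1 n hn]; exact tot_mono (fun _ h => h.1) subset_rfl)
    (fun T hT => step_eq (by omega) (h1 T hT) (h1 (T + 1) (by omega))) h2
  exact ⟨c, hc, u0, uu_anti, fun _ _ => tot_nonneg _, fun _ _ => ren_first, h⟩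

theorem bridge_lim : ∃ c : ℝ, 0 < c ∧
    Tendsto (fun T : ℕ => (T : ℝ) ^ (1 / 4 : ℝ) * tot (bridges T)) atTop (𝓝 c) := by
  obtain ⟨c, h⟩ := ren
  refine ⟨c, h.pos, h.lim.congr' ?_⟩
  filter_upwards [eventually_ge_atTop 1] with T hT
  rw [mul_comm, uu, if_neg (by omega)]

theorem cut_lim {l : List (ℝ × ℝ)} {hi : ℝ} (hl : Ord 0 l hi) {ε : ℝ} (hε : 0 < ε) :
    ∃ T₀ : ℕ, ∀ T : ℕ, T₀ ≤ T → ∀ N : ℕ, hi * T ≤ N → 0 < tot (bridges N) ∧
      |tot {γ | γ ∈ bridges N ∧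
          ∀ I ∈ l, ∃ t : ℤ, I.1 * T ≤ t ∧ (t : ℝ) ≤ I.2 * T ∧ IsCut γ t} / tot (bridges N) -
        hit ((T : ℝ) / N) l 0| ≤ ε := by
  obtain ⟨c, h⟩ := ren
  obtain ⟨T₀, H⟩ := h.hit (Z := fun N l => tot (Ev N l)) (fun N hN => ev_nil hN)
    (fun N I l a b c => ev_cons a b c) le_rfl hl hε
  have hp : ∀ (l : List (ℝ × ℝ)) (lo : ℝ), Ord lo l hi → lo < hi := by
    intro l
    induction l with
    | nil => exact fun _ h => h
    | cons I l ih => exact fun lo h => h.1.trans (h.2.1.trans (ih _ h.2.2))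
  obtain ⟨c', C', hc', hb⟩ := final_of_good good
  refine ⟨max T₀ 1, fun T hT N hN => ?_⟩
  have hT1 : (1 : ℝ) ≤ T := by exact_mod_cast le_of_max_le_right hT
  have hN0 : 1 ≤ N := by
    have : (0 : ℝ) < N := lt_of_lt_of_le (mul_pos (hp l 0 hl) (by linarith)) hN
    exact_mod_cast this
  have hN1 : (0 : ℝ) < N := by exact_mod_cast hN0
  refine ⟨lt_of_lt_of_le (by positivity) (hb N hN0).2.1, ?_⟩
  have := H T (le_of_max_le_left hT) N hN 0 (by simp)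
  simp only [Nat.sub_zero, Nat.cast_zero, sub_zero, zero_div] at this
  rw [uu, if_neg (by omega)] at this
  have e : Ev N (l.map fun I => (I.1 * T, I.2 * T)) = {γ | γ ∈ bridges N ∧
      ∀ I ∈ l, ∃ t : ℤ, I.1 * T ≤ t ∧ (t : ℝ) ≤ I.2 * T ∧ IsCut γ t} := by
    ext γ
    simp only [Ev, List.mem_map, forall_exists_index, and_imp, forall_apply_eq_imp_iff₂,
      Set.mem_setOf_eq]
  rwa [e] at this

end Pool.Agent.Lib.MP_4960b8_pr.RN
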