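import Pool.Agent.Lib.MP_4960b8_pr.RN.Dens

/-! Riemann sums and the overshoot law of a renewal process. -/

namespace Pool.Agent.Lib.MP_4960b8_pr.RN

open Filter Topology Real

/-- the beta integrand -/
noncomputable def bet (s : ℝ) : ℝ := s ^ (-1 / 4 : ℝ) * (1 - s) ^ (-3 / 4 : ℝ)

/-- tail of the generalised arcsine law -/
noncomputable def Phi (x : ℝ) : ℝ := √2 / (2 * π) * ∫ s in x..1, bet s

lemma bet_int {x y : ℝ} (hx : x ∈ Set.Icc (0 : ℝ) 1) (hy : y ∈ Set.Icc (0 : ℝ) 1) :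
    IntervalIntegrable bet MeasureTheory.volume x y := by
  have h1 : IntervalIntegrable bet MeasureTheory.volume 0 (1 / 2) := by
    refine (intervalIntegral.intervalIntegrable_rpow' (by norm_num)).mul_continuousOn
      (ContinuousOn.rpow_const (by fun_prop) fun s hs => .inl ?_)
    rw [Set.uIcc_of_le (by norm_num)] at hs
    linarith [hs.2]
  have h2 : IntervalIntegrable bet MeasureTheory.volume (1 / 2) 1 := by
    have := (intervalIntegral.intervalIntegrable_rpow' (a := 1 / 2) (b := 0) (r := -3 / 4)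
      (by norm_num)).comp_sub_left 1
    rw [sub_zero, show (1 : ℝ) - 1 / 2 = 1 / 2 by norm_num] at this
    refine this.continuousOn_mul (ContinuousOn.rpow_const (by fun_prop) fun s hs => .inl ?_)
    rw [Set.uIcc_of_le (by norm_num)] at hs
    linarith [hs.1]
  refine (h1.trans h2).mono_set ?_
  rw [Set.uIcc_of_le zero_le_one]
  exact Set.uIcc_subset_Icc hx hy

lemma bet_val : ∫ s in (0 : ℝ)..1, bet s = π * √2 := by
  have h1 := Complex.Gamma_mul_Gamma_eq_betaIntegral (s := 3 / 4) (t := 1 / 4) (by norm_num)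
    (by norm_num)
  have h2 := Complex.Gamma_mul_Gamma_one_sub (1 / 4)
  rw [show (3 / 4 + 1 / 4 : ℂ) = 1 by norm_num, Complex.Gamma_one, one_mul] at h1
  rw [show (1 - 1 / 4 : ℂ) = 3 / 4 by norm_num, mul_comm, h1,
    show (π : ℂ) * (1 / 4) = ((π / 4 : ℝ) : ℂ) by push_cast; ring, ← Complex.ofReal_sin,
    sin_pi_div_four] at h2
  have h3 : ((∫ s in (0 : ℝ)..1, bet s : ℝ) : ℂ) = Complex.betaIntegral (3 / 4) (1 / 4) := by
    rw [← intervalIntegral.integral_ofReal, Complex.betaIntegral]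
    refine intervalIntegral.integral_congr fun s hs => ?_
    rw [Set.uIcc_of_le zero_le_one] at hs
    simp only [bet]
    rw [Complex.ofReal_mul, Complex.ofReal_cpow hs.1, Complex.ofReal_cpow (sub_nonneg.2 hs.2)]
    push_cast
    norm_num
  rw [← h3, ← Complex.ofReal_div, Complex.ofReal_inj] at h2
  have h4 : √2 * √2 = 2 := mul_self_sqrt (by norm_num)
  have h5 : √2 ≠ 0 := by positivity
  rw [h2]
  field_simp
  nlinarith

lemma Phi_cont : ContinuousOn Phi (Set.Icc 0 1) := by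
  have h := intervalIntegral.continuousOn_primitive_interval_left (f := bet) (a := 0) (b := 1)
    (μ := MeasureTheory.volume)
    ((intervalIntegrable_iff' (by simp)).1 (bet_int ⟨le_rfl, zero_le_one⟩ ⟨zero_le_one, le_rfl⟩))
  rw [Set.uIcc_of_le zero_le_one] at h
  exact continuousOn_const.mul h

lemma Phi_one : Phi 1 = 0 := by
  simp [Phi]

lemma riem_nonneg {s : ℝ} (h0 : 0 ≤ s) (h1 : s ≤ 1) : 0 ≤ bet s :=
  mul_nonneg (rpow_nonneg h0 _) (rpow_nonneg (sub_nonneg.2 h1) _)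

lemma riem_ratio (ρ : ℝ) : Tendsto (fun n : ℕ => (1 + (n : ℝ)⁻¹) ^ ρ) atTop (𝓝 1) := by
  have h : Tendsto (fun n : ℕ => 1 + (n : ℝ)⁻¹) atTop (𝓝 (1 + 0)) :=
    tendsto_const_nhds.add tendsto_inv_atTop_nhds_zero_nat
  simpa using h.rpow_const (p := ρ) (.inl (by norm_num))

lemma riem_succ {n : ℕ} (hn : 1 ≤ n) (ρ : ℝ) :
    ((n : ℝ) + 1) ^ ρ = (n : ℝ) ^ ρ * (1 + (n : ℝ)⁻¹) ^ ρ := by
  have h : (0 : ℝ) < n := by exact_mod_cast hn
  rw [← mul_rpow h.le (by positivity), mul_add, mul_one, mul_inv_cancel₀ h.ne']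

lemma riem_shift {f : ℕ → ℝ} {c ρ : ℝ}
    (hf : Tendsto (fun n : ℕ => f n * (n : ℝ) ^ ρ) atTop (𝓝 c)) :
    Tendsto (fun n : ℕ => f n * ((n : ℝ) + 1) ^ ρ) atTop (𝓝 c) := by
  have h := hf.mul (riem_ratio ρ)
  rw [mul_one] at h
  refine h.congr' ((eventually_ge_atTop 1).mono fun n hn => ?_)
  simp only [riem_succ hn, mul_assoc]

lemma riem_zero {f : ℕ → ℝ} {c ρ : ℝ} (hρ : 0 < ρ)
    (hf : Tendsto (fun n : ℕ => f n * (n : ℝ) ^ ρ) atTop (𝓝 c)) : Tendsto f atTop (𝓝 0) := by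
  have h := hf.mul ((tendsto_rpow_neg_atTop hρ).comp tendsto_natCast_atTop_atTop)
  rw [mul_zero] at h
  refine h.congr' ((eventually_ge_atTop 1).mono fun n hn => ?_)
  have h0 : (0 : ℝ) < n := by exact_mod_cast hn
  simp only [Function.comp_apply]
  rw [mul_assoc, ← rpow_add h0, add_neg_cancel, rpow_zero, mul_one]

lemma riem_bdd {v : ℕ → ℝ} {c : ℝ} (hv : Tendsto v atTop (𝓝 c)) : ∃ C, 0 < C ∧ ∀ n, |v n| ≤ C := by
  obtain ⟨C, hC⟩ := hv.abs.bddAbove_range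
  exact ⟨C + 1, by linarith [abs_nonneg (v 0), hC ⟨0, rfl⟩], fun n => by linarith [hC ⟨n, rfl⟩]⟩

lemma riem_id {x y m : ℝ} (hx : 0 < x) (hy : 0 < y) (hm : 0 < m) :
    x ^ (1 / 4 : ℝ) * y ^ (3 / 4 : ℝ) * ((x / m) ^ (-1 / 4 : ℝ) * (y / m) ^ (-3 / 4 : ℝ)) = m := by
  have h1 : m ^ (1 / 4 : ℝ) * m ^ (3 / 4 : ℝ) = m := by
    rw [← rpow_add hm]
    norm_num
  have h2 := rpow_pos_of_pos hx (1 / 4)
  have h3 := rpow_pos_of_pos hy (3 / 4)
  rw [neg_div, neg_div, rpow_neg (by positivity), rpow_neg (by positivity), div_rpow hx.le hm.le,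
    div_rpow hy.le hm.le, inv_div, inv_div]
  field_simp
  exact h1

/-- the step function -/
noncomputable def riemF (f g : ℕ → ℝ) (m : ℕ) (s : ℝ) : ℝ :=
  m * (f (⌈s * m⌉₊ - 1) * g (m - (⌈s * m⌉₊ - 1)))

lemma riem_meas (f g : ℕ → ℝ) (m : ℕ) : Measurable (riemF f g m) :=
  (measurable_from_top (f := fun j : ℕ => (m : ℝ) * (f (j - 1) * g (m - (j - 1))))).comp
    (measurable_id.mul_const (m : ℝ)).nat_ceil

lemma riem_eq (f g : ℕ → ℝ) {m : ℕ} (hm : 1 ≤ m) {s : ℝ} (h0 : 0 < s) (h1 : s ≤ 1) :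
    ((⌈s * m⌉₊ - 1 : ℕ) : ℝ) + 1 = ⌈s * m⌉₊ ∧
    ((m - (⌈s * m⌉₊ - 1) : ℕ) : ℝ) = m + 1 - ⌈s * m⌉₊ ∧
    riemF f g m s = f (⌈s * m⌉₊ - 1) * (((⌈s * m⌉₊ - 1 : ℕ) : ℝ) + 1) ^ (1 / 4 : ℝ) *
      (g (m - (⌈s * m⌉₊ - 1)) * ((m - (⌈s * m⌉₊ - 1) : ℕ) : ℝ) ^ (3 / 4 : ℝ)) *
      (((⌈s * m⌉₊ : ℝ) / m) ^ (-1 / 4 : ℝ) * (((m : ℝ) + 1 - ⌈s * m⌉₊) / m) ^ (-3 / 4 : ℝ)) := by
  have m0 : (0 : ℝ) < m := by exact_mod_cast hm
  have j1 : 1 ≤ ⌈s * m⌉₊ := Nat.ceil_pos.2 (by positivity)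
  have j2 : ⌈s * m⌉₊ ≤ m := Nat.ceil_le.2 (mul_le_of_le_one_left m0.le h1)
  rw [riemF]
  generalize ⌈s * m⌉₊ = j at *
  have e1 : ((j - 1 : ℕ) : ℝ) + 1 = j := by rw [Nat.cast_sub j1]; simp
  have e2 : ((m - (j - 1) : ℕ) : ℝ) = m + 1 - j := by
    rw [Nat.cast_sub (by omega)]
    linarith
  have j3 : (0 : ℝ) < j := by exact_mod_cast j1
  have j4 : (j : ℝ) ≤ m := by exact_mod_cast j2
  refine ⟨e1, e2, ?_⟩
  rw [e1, e2]
  linear_combination (-(f (j - 1) * g (m - (j - 1)))) *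
    riem_id j3 (show (0 : ℝ) < m + 1 - j by linarith) m0

lemma riem_bound {f g : ℕ → ℝ} {C C' : ℝ} (hf : ∀ n : ℕ, |f n * ((n : ℝ) + 1) ^ (1 / 4 : ℝ)| ≤ C)
    (hg : ∀ n : ℕ, |g n * (n : ℝ) ^ (3 / 4 : ℝ)| ≤ C') {m : ℕ} (hm : 1 ≤ m) {s : ℝ} (h0 : 0 < s)
    (h1 : s < 1) : |riemF f g m s| ≤ C * C' * bet s := by
  have m0 : (0 : ℝ) < m := by exact_mod_cast hm
  have k1 : s ≤ (⌈s * m⌉₊ : ℝ) / m := (le_div_iff₀ m0).2 (Nat.le_ceil _)
  have k2 : 1 - s ≤ ((m : ℝ) + 1 - ⌈s * m⌉₊) / m := (le_div_iff₀ m0).2 (by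
    have := Nat.ceil_lt_add_one (a := s * m) (by positivity)
    linarith)
  have k3 : 0 < 1 - s := sub_pos.2 h1
  have C0 := (abs_nonneg _).trans (hf 0)
  have C1 := (abs_nonneg _).trans (hg 0)
  have p1 := rpow_nonneg (h0.le.trans k1) (-1 / 4)
  have p2 := rpow_nonneg (k3.le.trans k2) (-3 / 4)
  rw [(riem_eq f g hm h0 h1.le).2.2, abs_mul, abs_mul, abs_of_nonneg (mul_nonneg p1 p2)]
  exact mul_le_mul (mul_le_mul (hf _) (hg _) (abs_nonneg _) C0)
    (mul_le_mul (rpow_le_rpow_of_nonpos h0 k1 (by norm_num))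
      (rpow_le_rpow_of_nonpos k3 k2 (by norm_num)) p2 (rpow_nonneg h0.le _))
    (mul_nonneg p1 p2) (mul_nonneg C0 C1)

lemma riem_pt {f g : ℕ → ℝ} {c c' : ℝ}
    (hf : Tendsto (fun n : ℕ => f n * ((n : ℝ) + 1) ^ (1 / 4 : ℝ)) atTop (𝓝 c))
    (hg : Tendsto (fun n : ℕ => g n * (n : ℝ) ^ (3 / 4 : ℝ)) atTop (𝓝 c')) {s : ℝ} (h0 : 0 < s)
    (h1 : s < 1) : Tendsto (fun m => riemF f g m s) atTop (𝓝 (c * c' * bet s)) := by
  have k3 : 0 < 1 - s := sub_pos.2 h1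
  have t1 : Tendsto (fun m : ℕ => (⌈s * m⌉₊ : ℝ) / m) atTop (𝓝 s) :=
    (tendsto_nat_ceil_mul_div_atTop h0.le).comp tendsto_natCast_atTop_atTop
  have t2 : Tendsto (fun m : ℕ => ((m : ℝ) + 1 - ⌈s * m⌉₊) / m) atTop (𝓝 (1 - s)) := by
    have h : Tendsto (fun n : ℕ => 1 + (n : ℝ)⁻¹) atTop (𝓝 (1 + 0)) :=
      tendsto_const_nhds.add tendsto_inv_atTop_nhds_zero_nat
    rw [add_zero] at h
    refine (h.sub t1).congr' ((eventually_ge_atTop 1).mono fun m hm => ?_)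
    have m0 : (0 : ℝ) < m := by exact_mod_cast hm
    field_simp
  have t3 : Tendsto (fun m : ℕ => ⌈s * m⌉₊ - 1) atTop atTop := by
    refine tendsto_natCast_atTop_iff (R := ℝ).1 (tendsto_atTop_mono' _
      ((eventually_ge_atTop 1).mono fun m hm => ?_)
      (tendsto_atTop_add_const_right _ (-1) (tendsto_natCast_atTop_atTop.const_mul_atTop h0)))
    have := (riem_eq f g hm h0 h1.le).1
    have := Nat.le_ceil (s * m)
    linarith
  have t4 : Tendsto (fun m : ℕ => m - (⌈s * m⌉₊ - 1)) atTop atTop := by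
    refine tendsto_natCast_atTop_iff (R := ℝ).1 (tendsto_atTop_mono' _
      ((eventually_ge_atTop 1).mono fun m hm => ?_)
      (tendsto_natCast_atTop_atTop.const_mul_atTop k3))
    have := (riem_eq f g hm h0 h1.le).2.1
    have := Nat.ceil_lt_add_one (a := s * m) (by positivity)
    linarith
  refine (((hf.comp t3).mul (hg.comp t4)).mul ((t1.rpow_const (.inl h0.ne')).mul
    (t2.rpow_const (.inl k3.ne')))).congr' ((eventually_ge_atTop 1).mono fun m hm => ?_)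
  exact (riem_eq f g hm h0 h1.le).2.2.symm

lemma riem_sum {f g : ℕ → ℝ} {m a : ℕ} (hm : 1 ≤ m) (ha : a ≤ m)
    (hi : IntervalIntegrable (riemF f g m) MeasureTheory.volume 0 1) :
    ∑ t ∈ Finset.Ico a m, f t * g (m - t) = ∫ s in ((a : ℝ) / m)..1, riemF f g m s := by
  have m0 : (0 : ℝ) < m := by exact_mod_cast hm
  have k : ∀ t, t ≤ m → ((t : ℕ) : ℝ) / m ∈ Set.uIcc (0 : ℝ) 1 := fun t ht => by
    rw [Set.uIcc_of_le zero_le_one]
    exact ⟨by positivity, (div_le_one m0).2 (by exact_mod_cast ht)⟩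
  have h := intervalIntegral.sum_integral_adjacent_intervals_Ico (f := riemF f g m)
    (μ := MeasureTheory.volume) (a := fun t => (t : ℝ) / m) ha fun t ht =>
      hi.mono_set (Set.uIcc_subset_uIcc (k t ht.2.le) (k (t + 1) ht.2))
  simp only [div_self m0.ne'] at h
  rw [← h]
  refine Finset.sum_congr rfl fun t _ => ?_
  rw [intervalIntegral.integral_congr_ae (g := fun _ => m * (f t * g (m - t)))
    (MeasureTheory.ae_of_all _ fun s hs => ?_), intervalIntegral.integral_const, smul_eq_mul]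
  · push_cast
    field_simp
    ring
  · rw [Set.uIoc_of_le (by gcongr; omega)] at hs
    have : ⌈s * m⌉₊ = t + 1 := (Nat.ceil_eq_iff (by omega)).2
      ⟨(div_lt_iff₀ m0).1 hs.1, (le_div_iff₀ m0).1 hs.2⟩
    rw [riemF, this, Nat.add_sub_cancel]

theorem riem {f g : ℕ → ℝ} {c c' : ℝ}
    (hf : Tendsto (fun n : ℕ => f n * (n : ℝ) ^ (1 / 4 : ℝ)) atTop (𝓝 c))
    (hg : Tendsto (fun n : ℕ => g n * (n : ℝ) ^ (3 / 4 : ℝ)) atTop (𝓝 c')) {ε : ℝ} (hε : 0 < ε) :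
    ∃ m₀ : ℕ, ∀ m, m₀ ≤ m → ∀ a, a ≤ m →
      |∑ t ∈ Finset.Icc a m, f t * g (m - t) - c * c' * ∫ s in ((a : ℝ) / m)..1, bet s| ≤ ε := by
  have hf' := riem_shift hf
  obtain ⟨C, -, hC⟩ := riem_bdd hf'
  obtain ⟨C', -, hC'⟩ := riem_bdd hg
  have hb := bet_int ⟨le_rfl, zero_le_one⟩ ⟨zero_le_one, le_rfl⟩
  have hae : ∀ {P : ℝ → Prop}, (∀ s, 0 < s → s < 1 → P s) →
      ∀ᵐ s ∂MeasureTheory.volume, s ∈ Set.uIoc (0 : ℝ) 1 → P s := fun hP =>
    (MeasureTheory.volume.ae_ne 1).mono fun s hs h => by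
      rw [Set.uIoc_of_le zero_le_one] at h
      exact hP s h.1 (lt_of_le_of_ne h.2 hs)
  have hi : ∀ m, 1 ≤ m → IntervalIntegrable (riemF f g m) MeasureTheory.volume 0 1 := fun m hm =>
    (hb.const_mul (C * C')).mono_fun' (riem_meas f g m).aestronglyMeasurable
      ((MeasureTheory.ae_restrict_iff' measurableSet_uIoc).2
        (hae fun s h0 h1 => riem_bound hC hC' hm h0 h1))
  have hj : ∀ m, 1 ≤ m → IntervalIntegrable (fun s => |riemF f g m s - c * c' * bet s|)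
      MeasureTheory.volume 0 1 := fun m hm => ((hi m hm).sub (hb.const_mul _)).abs
  have t1 := intervalIntegral.tendsto_integral_filter_of_dominated_convergence (a := 0) (b := 1)
    (μ := MeasureTheory.volume) (l := atTop) (f := fun _ => (0 : ℝ))
    (F := fun m s => |riemF f g m s - c * c' * bet s|) (fun s => (C * C' + |c * c'|) * bet s)
    ((eventually_ge_atTop 1).mono fun m hm => (hj m hm).def'.aestronglyMeasurable)
    ((eventually_ge_atTop 1).mono fun m hm => hae fun s h0 h1 => by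
      rw [Real.norm_eq_abs, abs_abs, add_mul]
      refine (abs_sub _ _).trans (add_le_add (riem_bound hC hC' hm h0 h1) ?_)
      rw [abs_mul, abs_of_nonneg (riem_nonneg h0.le h1.le)])
    (hb.const_mul _) (hae fun s h0 h1 => by
      simpa using ((riem_pt hf' hg h0 h1).sub_const (c * c' * bet s)).abs)
  have t2 := ((riem_zero (by norm_num) hf).mul_const (g 0)).abs.add t1
  simp only [zero_mul, abs_zero, intervalIntegral.integral_zero, add_zero] at t2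
  obtain ⟨m₀, hm₀⟩ := eventually_atTop.1
    ((eventually_ge_atTop 1).and (t2.eventually (eventually_le_nhds hε)))
  refine ⟨m₀, fun m hm a ha => ?_⟩
  obtain ⟨h1, h2⟩ := hm₀ m hm
  have m0 : (0 : ℝ) < m := by exact_mod_cast h1
  have a0 : (0 : ℝ) ≤ (a : ℝ) / m := by positivity
  have a1 : (a : ℝ) / m ≤ 1 := (div_le_one m0).2 (by exact_mod_cast ha)
  have hs : Set.uIcc ((a : ℝ) / m) 1 ⊆ Set.uIcc 0 1 :=
    Set.uIcc_subset_uIcc_right (by rw [Set.uIcc_of_le zero_le_one]; exact ⟨a0, a1⟩)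
  rw [← Finset.sum_Ico_add_eq_sum_Icc ha, riem_sum h1 ha (hi m h1), Nat.sub_self, add_comm,
    add_sub_assoc, ← intervalIntegral.integral_const_mul, ← intervalIntegral.integral_sub
      ((hi m h1).mono_set hs) ((hb.const_mul _).mono_set hs)]
  refine (abs_add_le _ _).trans (le_trans (add_le_add le_rfl ?_) h2)
  exact (intervalIntegral.abs_integral_le_integral_abs a1).trans
    (intervalIntegral.integral_mono_interval a0 a1 le_rfl
      (MeasureTheory.ae_of_all _ fun s => abs_nonneg _) (hj m h1))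

/-- an abstract renewal process with renewal function `u n ~ c n^(-1/4)`; `μ a` is the law of
the first renewal `≥ a` -/
structure Ren (u : ℕ → ℝ) (μ : ℕ → ℕ → ℝ) (c : ℝ) : Prop where
  pos : 0 < c
  zero : u 0 = 1
  anti : Antitone u
  nonneg : ∀ a d, 0 ≤ μ a d
  first : ∀ a n, 1 ≤ a → a ≤ n → u n = ∑ d ∈ Finset.Icc a n, μ a d * u (n - d)
  lim : Tendsto (fun n : ℕ => u n * (n : ℝ) ^ (1 / 4 : ℝ)) atTop (𝓝 c)

lemma riem_cv (x y : ℕ → ℝ) (n : ℕ) : PowerSeries.coeff n (PowerSeries.mk x * PowerSeries.mk y) =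
    ∑ k ∈ Finset.range (n + 1), x k * y (n - k) := by
  rw [PowerSeries.coeff_mul]
  simp only [PowerSeries.coeff_mk]
  exact Finset.Nat.sum_antidiagonal_eq_sum_range_succ (fun i j => x i * y j) n

lemma riem_ite (a n : ℕ) (x y : ℕ → ℝ) :
    ∑ k ∈ Finset.range (n + 1), (if a ≤ k then x k else 0) * y k = ∑ k ∈ Finset.Icc a n, x k * y k := by
  simp only [ite_mul, zero_mul]
  rw [← Finset.sum_filter]
  refine Finset.sum_congr ?_ fun _ _ => rfl
  ext k
  simp only [Finset.mem_filter, Finset.mem_range, Finset.mem_Icc]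
  omega

lemma riem_al : Tendsto (fun n : ℕ => (((n : ℝ) + 1) ^ (1 / 4 : ℝ) - (n : ℝ) ^ (1 / 4 : ℝ)) *
    (n : ℝ) ^ (3 / 4 : ℝ)) atTop (𝓝 (1 / 4)) := by
  have r := riem_ratio (1 / 4)
  have h := ((((r.pow 3).add (r.pow 2)).add r).add_const 1).inv₀ (by norm_num)
  rw [show ((1 : ℝ) ^ 3 + 1 ^ 2 + 1 + 1)⁻¹ = 1 / 4 by norm_num] at h
  refine h.congr' ((eventually_ge_atTop 1).mono fun n hn => ?_)
  have n0 : (0 : ℝ) < n := by exact_mod_cast hn
  have e1 : ((1 + (n : ℝ)⁻¹) ^ (1 / 4 : ℝ)) ^ 4 = 1 + (n : ℝ)⁻¹ := by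
    rw [← rpow_natCast, ← rpow_mul (by positivity)]
    norm_num
  have e2 : (n : ℝ) ^ (1 / 4 : ℝ) * (n : ℝ) ^ (3 / 4 : ℝ) = n := by
    rw [← rpow_add n0]
    norm_num
  have e3 := rpow_pos_of_pos (show (0 : ℝ) < 1 + (n : ℝ)⁻¹ by positivity) (1 / 4)
  simp only [riem_succ hn]
  generalize (1 + (n : ℝ)⁻¹) ^ (1 / 4 : ℝ) = x at *
  refine inv_eq_of_mul_eq_one_left ?_
  have e4 : (n : ℝ) * (n : ℝ)⁻¹ = 1 := mul_inv_cancel₀ n0.ne'
  linear_combination (x ^ 4 - 1) * e2 + n * e1 + e4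

lemma Ren.riem_ps {u : ℕ → ℝ} {μ : ℕ → ℕ → ℝ} {c : ℝ} (h : Ren u μ c) {a : ℕ} (ha : 1 ≤ a) :
    PowerSeries.mk (fun n => if a ≤ n then u n else 0) =
      PowerSeries.mk (fun d => if a ≤ d then μ a d else 0) * PowerSeries.mk u := by
  ext n
  rw [riem_cv, riem_ite, PowerSeries.coeff_mk]
  split_ifs with hn
  · exact h.first a n ha hn
  · rw [Finset.Icc_eq_empty hn, Finset.sum_empty]

lemma Ren.riem_q {u : ℕ → ℝ} {μ : ℕ → ℕ → ℝ} {c : ℝ} (h : Ren u μ c) :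
    ∃ q : ℕ → ℝ, Antitone q ∧ (∀ n, 0 ≤ q n) ∧ (∀ n, q n ≤ 1) ∧
      PowerSeries.mk u * PowerSeries.mk q = PowerSeries.mk fun _ => 1 := by
  set p : ℕ → ℝ := fun d => if 1 ≤ d then μ 1 d else 0 with hp
  have p0 : ∀ d, 0 ≤ p d := fun d => by
    simp only [hp]
    split_ifs
    exacts [h.nonneg 1 d, le_rfl]
  set q : ℕ → ℝ := fun n => 1 - ∑ k ∈ Finset.range (n + 1), p k with hq
  have q1 : Antitone q := antitone_nat_of_succ_le fun n => by
    simp only [hq]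
    rw [Finset.sum_range_succ _ (n + 1)]
    linarith [p0 (n + 1)]
  have q2 : ∀ n, q n ≤ 1 := fun n => sub_le_self _ (Finset.sum_nonneg fun k _ => p0 k)
  have e1 : PowerSeries.mk q = PowerSeries.mk (fun _ => 1) -
      PowerSeries.mk p * PowerSeries.mk fun _ => (1 : ℝ) := by
    ext n
    rw [map_sub, riem_cv]
    simp [hq]
  have e2 : PowerSeries.mk u = 1 + PowerSeries.mk p * PowerSeries.mk u := by
    rw [← h.riem_ps le_rfl]
    ext n
    rcases n with _ | n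
    · simp [h.zero]
    · simp [PowerSeries.coeff_one]
  have e3 : PowerSeries.mk u * PowerSeries.mk q = PowerSeries.mk fun _ => 1 := by
    rw [e1]
    linear_combination (PowerSeries.mk fun _ => (1 : ℝ)) * e2
  have u0 := riem_zero (by norm_num) h.lim
  have u1 : ∀ n, 0 ≤ u n := h.anti.le_of_tendsto u0
  refine ⟨q, q1, fun n0 => ?_, q2, e3⟩
  by_contra hn
  have k : ∀ n, 1 ≤ n0 * u n := fun n => by
    have := congrArg (PowerSeries.coeff (n + n0)) ((mul_comm _ _).trans e3)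
    rw [riem_cv, PowerSeries.coeff_mk, add_assoc, add_comm n, add_assoc,
      Finset.sum_range_add] at this
    have a1 : ∑ k ∈ Finset.range n0, q k * u (n + n0 - k) ≤ ∑ k ∈ Finset.range n0, u n :=
      Finset.sum_le_sum fun k hk => (mul_le_of_le_one_left (u1 _) (q2 k)).trans
        (h.anti (by have := Finset.mem_range.1 hk; omega))
    have a2 : ∑ k ∈ Finset.range (1 + n), q (n0 + k) * u (n + n0 - (n0 + k)) ≤ 0 :=
      Finset.sum_nonpos fun k _ => mul_nonpos_of_nonpos_of_nonneg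
        ((q1 (Nat.le_add_right n0 k)).trans (not_le.1 hn).le) (u1 _)
    rw [Finset.sum_const, Finset.card_range, nsmul_eq_mul] at a1
    linarith
  have := ge_of_tendsto' (u0.const_mul (n0 : ℝ)) k
  norm_num at this

theorem Ren.cdf {u : ℕ → ℝ} {μ : ℕ → ℕ → ℝ} {c : ℝ} (h : Ren u μ c) {ε : ℝ} (hε : 0 < ε) :
    ∃ m₀ : ℕ, ∀ m, m₀ ≤ m → ∀ a, 1 ≤ a → a ≤ m →
      |∑ d ∈ Finset.Icc a m, μ a d - Phi ((a : ℝ) / m)| ≤ ε := by
  obtain ⟨q, q1, q2, q3, q4⟩ := h.riem_q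
  have c0 := h.pos
  have s2 : 0 < √2 := by positivity
  set al : ℕ → ℝ := fun n => ((n : ℝ) + 1) ^ (1 / 4 : ℝ) - (n : ℝ) ^ (1 / 4 : ℝ) with hal
  set v : ℕ → ℝ := fun m => ∑ t ∈ Finset.range (m + 1), u t * al (m - t) with hv
  have v1 : Tendsto v atTop (𝓝 (c * (1 / 4) * (π * √2))) := by
    refine Metric.tendsto_atTop.2 fun δ hδ => ?_
    obtain ⟨m₀, hm⟩ := riem h.lim riem_al (half_pos hδ)
    refine ⟨m₀, fun m h1 => ?_⟩
    have := hm m h1 0 (Nat.zero_le m)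
    rw [Nat.cast_zero, zero_div, bet_val, ← Nat.range_succ_eq_Icc_zero] at this
    exact this.trans_lt (half_lt_self hδ)
  have v2 : ∀ N : ℕ, ∑ n ∈ Finset.range N, v (N - 1 - n) * q n = (N : ℝ) ^ (1 / 4 : ℝ) := by
    intro N
    rcases N with _ | M
    · simp
    · have e1 : PowerSeries.mk v = PowerSeries.mk u * PowerSeries.mk al := by
        ext n
        rw [riem_cv, PowerSeries.coeff_mk]
      have e2 : PowerSeries.mk q * PowerSeries.mk v =
          PowerSeries.mk al * PowerSeries.mk fun _ => 1 := by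
        rw [e1, ← q4]
        ring
      have e3 := congrArg (PowerSeries.coeff M) e2
      rw [riem_cv, riem_cv] at e3
      simp only [Nat.add_sub_cancel, mul_comm (v _), e3, mul_one, hal]
      have e4 := Finset.sum_range_sub (fun n : ℕ => (n : ℝ) ^ (1 / 4 : ℝ)) (M + 1)
      simpa using e4
  obtain ⟨B, B0, hB⟩ := riem_bdd v1
  have Q1 : Tendsto (fun N => ∑ n ∈ Finset.range N, q n) atTop atTop := by
    refine tendsto_atTop_mono (fun N => ?_) (((tendsto_rpow_atTop (y := 1 / 4) (by norm_num)).comp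
      tendsto_natCast_atTop_atTop).atTop_div_const B0)
    rw [Function.comp_apply, ← v2, div_le_iff₀ B0, Finset.sum_mul]
    exact Finset.sum_le_sum fun n _ => by
      rw [mul_comm]
      exact mul_le_mul_of_nonneg_left ((le_abs_self _).trans (hB _)) (q2 n)
  have Q2 := (toeplitz v1 q2 q3 Q1).inv₀ (by positivity)
  simp only [v2, inv_div] at Q2
  have Q3 := dens q1 (by norm_num) Q2
  rw [show (1 - 1 / 4 : ℝ) = 3 / 4 by norm_num] at Q3
  obtain ⟨m₀, hm⟩ := riem h.lim Q3 hε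
  refine ⟨m₀, fun m h1 a a1 a2 => ?_⟩
  have e1 : PowerSeries.mk (fun n => if a ≤ n then u n else 0) * PowerSeries.mk q =
      PowerSeries.mk (fun d => if a ≤ d then μ a d else 0) * PowerSeries.mk fun _ => 1 := by
    rw [h.riem_ps a1, mul_assoc, q4]
  have e2 := congrArg (PowerSeries.coeff m) e1
  rw [riem_cv, riem_cv, riem_ite, riem_ite] at e2
  simp only [mul_one] at e2
  have e3 : √2 / (2 * π) = c * (1 / 4 * (c * (1 / 4) * (π * √2))⁻¹) := by
    have := pi_pos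
    have h4 : √2 * √2 = 2 := mul_self_sqrt (by norm_num)
    field_simp
    nlinarith
  rw [← e2, Phi, e3]
  exact hm m h1 a a2

end Pool.Agent.Lib.MP_4960b8_pr.RN
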