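import Pool.Agent.Lib.MP_4960b8_pr.QK.CombB
import Pool.Agent.Lib.MP_4960b8_pr.RN.Defs

/-! Splitting a bridge at a cut level. -/

namespace Pool.Agent.Lib.MP_4960b8_pr.RN

open SAW QK

lemma tot_eq (A : Set (List V)) : tot A = Zc A := rfl

/-- the walk `β` put on top of the walk `α` -/
def glue (α β : List V) : List V :=
  α ++ β.map (gT ((lv q0 α).i - 1) ((lv q0 α).j - 1) ((lv q0 α).k + 1))

variable {t h n : ℕ} {α β γ : List V}

lemma split_mem : γ ∈ bridges n ↔ ∃ m, γ = q0 :: m ∧ (q0 :: m).IsChain Adj ∧ (q0 :: m).Nodup ∧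
    (∀ v ∈ q0 :: m, 0 ≤ v.k ∧ v.k < n) ∧ (lv q0 m).k = n - 1 ∧
      (lv q0 m).i + (lv q0 m).j + (lv q0 m).k = 1 := by
  constructor
  · intro h
    obtain ⟨m, rfl, -, h1, h2, h3⟩ := comba_mem h
    exact ⟨m, rfl, h.1, h.2.1, h1, h2, h3⟩
  · rintro ⟨m, rfl, h1, h2, h3, h4, h5⟩
    exact ⟨h1, h2, rfl, h3, _, getLast?_lv _ _, h4, h5⟩

lemma split_cut {s : ℤ} :
    IsCut γ s ↔ ∃ a b, γ = a ++ b ∧ (∀ v ∈ a, v.k < s) ∧ ∀ v ∈ b, s ≤ v.k := by
  constructor
  · rintro ⟨m, h1, h2⟩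
    exact ⟨_, _, (List.take_append_drop m γ).symm, h1, h2⟩
  · rintro ⟨a, b, rfl, h1, h2⟩
    exact ⟨a.length, by simpa using h1, by simpa using h2⟩

lemma split_pw {s : ℤ} : IsCut γ s ↔ γ.Pairwise fun u v => v.k < s → u.k < s := by
  rw [split_cut]
  constructor
  · rintro ⟨a, b, rfl, h1, h2⟩
    refine List.pairwise_append.2 ⟨?_, ?_, fun u hu v _ _ => h1 u hu⟩
    · exact List.pairwise_of_forall_mem_list fun u hu v _ _ => h1 u hu
    · exact List.pairwise_of_forall_mem_list fun u _ v hv h => absurd h (not_lt.2 (h2 v hv))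
  · intro h
    induction γ with
    | nil => exact ⟨[], [], rfl, by simp, by simp⟩
    | cons x l ih =>
      obtain ⟨h1, h2⟩ := List.pairwise_cons.1 h
      obtain ⟨a, b, rfl, h3, h4⟩ := ih h2
      by_cases hx : x.k < s
      · exact ⟨x :: a, b, rfl, List.forall_mem_cons.2 ⟨hx, h3⟩, h4⟩
      · exact ⟨[], x :: (a ++ b), rfl, by simp, List.forall_mem_cons.2
          ⟨not_lt.1 hx, fun v hv => not_lt.1 fun h' => hx (h1 v hv h')⟩⟩

lemma split_top (hα : α ∈ bridges t) :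
    (lv q0 α).k + 1 = t ∧ (lv q0 α).i + (lv q0 α).j + (lv q0 α).k = 1 := by
  obtain ⟨m, rfl, -, -, -, h1, h2⟩ := split_mem.1 hα
  rw [lv_cons]
  omega

lemma split_lo (hα : α ∈ bridges t) : ∀ v ∈ α, 0 ≤ v.k ∧ v.k < t := hα.2.2.2.1

lemma split_hi (hα : α ∈ bridges t) (hβ : β ∈ bridges h) :
    ∀ v ∈ β.map (gT ((lv q0 α).i - 1) ((lv q0 α).j - 1) ((lv q0 α).k + 1)),
      t ≤ v.k ∧ v.k < t + h := by
  intro v hv
  obtain ⟨u, hu, rfl⟩ := List.mem_map.1 hv
  have h1 := split_lo hβ u hu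
  have h2 := split_top hα
  simp only [gT]
  omega

lemma bridges_pos (hγ : γ ∈ bridges n) : 1 ≤ n := by
  obtain ⟨m, rfl, -, -, h, -⟩ := split_mem.1 hγ
  have := h q0 List.mem_cons_self
  omega

lemma glue_mem (hα : α ∈ bridges t) (hβ : β ∈ bridges h) : glue α β ∈ bridges (t + h) := by
  have h0 := split_top hα
  have h1 := split_lo hα
  have h2 := split_hi hα hβ
  have hg : IsSym (gT ((lv q0 α).i - 1) ((lv q0 α).j - 1) ((lv q0 α).k + 1)) := sym_T (by omega)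
  obtain ⟨m, rfl, a1, a2, -⟩ := split_mem.1 hα
  obtain ⟨m', rfl, b1, b2, -, b3, b4⟩ := split_mem.1 hβ
  refine ⟨List.isChain_append.2 ⟨a1, ?_, ?_⟩, List.nodup_append.2 ⟨a2, b2.map hg.1, ?_⟩, rfl, ?_,
    gT ((lv q0 m).i - 1) ((lv q0 m).j - 1) ((lv q0 m).k + 1) (lv q0 m'), ?_, ?_, ?_⟩
  · exact (List.isChain_map _).2 (b1.imp fun u v => hg.2 u v)
  · intro x hx y hy
    rw [getLast?_lv] at hx
    obtain rfl : lv q0 m = x := by simpa using hx
    obtain rfl : gT ((lv q0 m).i - 1) ((lv q0 m).j - 1) ((lv q0 m).k + 1) q0 = y := by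
      simpa using hy
    rw [lv_cons] at h0
    rw [adj_iff]
    have e1 : q0.i = 1 := rfl
    have e2 : q0.j = 1 := rfl
    have e3 : q0.k = 0 := rfl
    simp only [gT]
    omega
  · rintro x hx y hy rfl
    have := h1 x hx
    have := h2 x hy
    omega
  · intro v hv
    rcases List.mem_append.1 hv with hv | hv
    · have := h1 v hv
      push_cast
      omega
    · have := h2 v hv
      push_cast
      omega
  · rw [glue, List.getLast?_append, List.getLast?_map, getLast?_lv]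
    simp
  · rw [lv_cons] at h0
    simp only [gT]
    push_cast
    omega
  · rw [lv_cons] at h0
    simp only [gT]
    omega

lemma exists_glue (hγ : γ ∈ bridges n) (h0 : 0 < t) (h1 : t < n) (hc : IsCut γ t) :
    ∃ α ∈ bridges t, ∃ β ∈ bridges (n - t), γ = glue α β := by
  obtain ⟨a, b, rfl, c1, c2⟩ := split_cut.1 hc
  obtain ⟨g1, g2, g3, g4, z, g5, g6, g7⟩ := hγ
  obtain ⟨i1, i2, i3⟩ := List.isChain_append.1 g1
  obtain ⟨n1, n2, -⟩ := List.nodup_append.1 g2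
  rcases a with _ | ⟨x, m⟩
  · have := c2 _ (List.mem_of_mem_head? g3)
    simp only at this
    omega
  obtain rfl : x = q0 := Option.some.inj g3
  rcases b with _ | ⟨y, m'⟩
  · have := c1 z (by simpa using List.mem_of_getLast? g5)
    omega
  have ad := i3 (lv q0 m) (getLast?_lv _ _) y rfl
  have k1 := c1 _ (lv_mem q0 m)
  have k2 := c2 y List.mem_cons_self
  rw [adj_iff] at ad
  have hz : lv y m' = z := by
    rw [List.getLast?_append, getLast?_lv] at g5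
    simpa using g5
  have hg : IsSym (gT (1 - (lv q0 m).i) (1 - (lv q0 m).j) (-((lv q0 m).k + 1))) :=
    sym_T (by omega)
  have hy : gT (1 - (lv q0 m).i) (1 - (lv q0 m).j) (-((lv q0 m).k + 1)) y = q0 := by
    have e1 : q0.i = 1 := rfl
    have e2 : q0.j = 1 := rfl
    have e3 : q0.k = 0 := rfl
    rw [V.ext_iff]
    simp only [gT]
    omega
  refine ⟨q0 :: m, split_mem.2 ⟨m, rfl, i1, n1, fun v hv =>
      ⟨(g4 v (List.mem_append_left _ hv)).1, c1 v hv⟩, by omega, by omega⟩,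
    (y :: m').map (gT (1 - (lv q0 m).i) (1 - (lv q0 m).j) (-((lv q0 m).k + 1))),
    ⟨(List.isChain_map _).2 (i2.imp fun u v => hg.2 u v), n2.map hg.1, ?_, ?_,
      gT (1 - (lv q0 m).i) (1 - (lv q0 m).j) (-((lv q0 m).k + 1)) z, ?_, ?_, ?_⟩, ?_⟩
  · rw [List.map_cons, hy]; rfl
  · intro v hv
    obtain ⟨u, hu, rfl⟩ := List.mem_map.1 hv
    have := c2 u hu
    have := g4 u (List.mem_append_right _ hu)
    simp only [gT]
    omega
  · rw [List.getLast?_map, getLast?_lv, hz]; rfl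
  · simp only [gT]
    omega
  · simp only [gT]
    omega
  · rw [glue, List.map_map, lv_cons]
    congr 1
    refine ((List.map_congr_left fun v _ => ?_).trans (List.map_id _)).symm
    rw [V.ext_iff]
    simp only [gT, Function.comp, id]
    omega

lemma glue_inj {α' β' : List V} (hα : α ∈ bridges t) (hβ : β ∈ bridges h) (hα' : α' ∈ bridges t)
    (hβ' : β' ∈ bridges h) (e : glue α β = glue α' β') : α = α' ∧ β = β' := by
  have h1 : α = α' := by
    rcases List.append_eq_append_iff.1 e with ⟨c, e1, e2⟩ | ⟨c, e1, e2⟩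
    · rcases c with _ | ⟨x, c⟩
      · simpa using e1.symm
      · have := split_lo hα' x (by simp [e1])
        have := split_hi hα hβ x (by simp only [e2]; simp)
        omega
    · rcases c with _ | ⟨x, c⟩
      · simpa using e1
      · have := split_lo hα x (by simp [e1])
        have := split_hi hα' hβ' x (by simp only [e2]; simp)
        omega
  subst h1
  have h0 := split_top hα
  exact ⟨rfl, (List.map_injective_iff.2 (sym_T (by omega)).1) (List.append_cancel_left e)⟩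

lemma cut_of_le (hγ : γ ∈ bridges n) {s : ℤ} (hs : s ≤ 0) : IsCut γ s := by
  exact ⟨0, by simp, fun v hv => hs.trans (split_lo hγ v (by simpa using hv)).1⟩

lemma cut_of_ge (hγ : γ ∈ bridges n) {s : ℤ} (hs : (n : ℤ) ≤ s) : IsCut γ s := by
  exact ⟨γ.length, fun v hv => (split_lo hγ v (by simpa using hv)).2.trans_le hs, by simp⟩

lemma cut_glue_le (hα : α ∈ bridges t) (hβ : β ∈ bridges h) {s : ℤ} (hs : s ≤ t) :
    IsCut (glue α β) s ↔ IsCut α s := by
  rw [split_pw, split_pw, glue, List.pairwise_append]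
  refine ⟨fun h => h.1, fun h => ⟨h, List.pairwise_of_forall_mem_list fun u _ v hv h' => ?_,
    fun u _ v hv h' => ?_⟩⟩ <;>
  · have := split_hi hα hβ v hv
    omega

lemma cut_glue_ge (hα : α ∈ bridges t) (hβ : β ∈ bridges h) {s : ℤ} (hs : (t : ℤ) ≤ s) :
    IsCut (glue α β) s ↔ IsCut β (s - t) := by
  have h0 := split_top hα
  rw [split_pw, split_pw, glue, List.pairwise_append, List.pairwise_map]
  refine ⟨fun h => h.2.1.imp fun {u v} h1 h2 => ?_, fun h =>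
    ⟨List.pairwise_of_forall_mem_list fun u hu v _ _ => (split_lo hα u hu).2.trans_le hs,
      h.imp fun {u v} h1 h2 => ?_, fun u hu v _ _ => (split_lo hα u hu).2.trans_le hs⟩⟩ <;>
  · simp only [gT] at *
    omega

lemma tot_nonneg (A : Set (List V)) : 0 ≤ tot A := combb_Zc_nonneg A

lemma tot_summable {A : Set (List V)} (hA : A ⊆ bridges n) :
    Summable fun γ : A => xc ^ γ.1.length := by
  have h := Summable.comp_injective (f := fun γ : bridges n => xc ^ γ.1.length)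
    (i := Set.inclusion hA) (bridges_summable n) (Set.inclusion_injective hA)
  exact h.congr fun _ => rfl

lemma tot_mono {A B : Set (List V)} (hAB : A ⊆ B) (hB : B ⊆ bridges n) : tot A ≤ tot B := by
  exact Summable.tsum_le_tsum_of_inj (f := fun γ : A => xc ^ γ.1.length)
    (g := fun γ : B => xc ^ γ.1.length) (Set.inclusion hAB)
    (Set.inclusion_injective hAB) (fun _ _ => (pow_pos xc_pos _).le) (fun _ => le_rfl)
    (tot_summable (hAB.trans hB)) (tot_summable hB)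

lemma tot_glue {A B : Set (List V)} (hA : A ⊆ bridges t) (hB : B ⊆ bridges h) :
    tot (Set.image2 glue A B) = tot A * tot B := by
  have hb : Function.Bijective fun z : A × B =>
      (⟨glue z.1 z.2, Set.mem_image2_of_mem z.1.2 z.2.2⟩ : Set.image2 glue A B) := by
    constructor
    · rintro ⟨a, b⟩ ⟨a', b'⟩ e
      obtain ⟨e1, e2⟩ := glue_inj (hA a.2) (hB b.2) (hA a'.2) (hB b'.2) (congrArg Subtype.val e)
      exact Prod.ext (Subtype.ext e1) (Subtype.ext e2)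
    · rintro ⟨_, a, ha, b, hb, rfl⟩
      exact ⟨(⟨a, ha⟩, ⟨b, hb⟩), rfl⟩
  rw [tot, tot, tot, tsum_mul_tsum_of_summable_norm (tot_summable hA).norm (tot_summable hB).norm,
    ← (Equiv.ofBijective _ hb).tsum_eq]
  refine tsum_congr fun z => ?_
  simp [glue, pow_add]

lemma tot_biUnion {ι : Type*} (s : Finset ι) (A : ι → Set (List V))
    (hA : ∀ i ∈ s, A i ⊆ bridges n) (hd : (s : Set ι).PairwiseDisjoint A) :
    tot (⋃ i ∈ s, A i) = ∑ i ∈ s, tot (A i) := by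
  exact Summable.tsum_finset_bUnion_disjoint (f := fun γ : List V => xc ^ γ.length) hd
    fun i hi => tot_summable (hA i hi)

/-- the renewal function -/
noncomputable def uu (n : ℕ) : ℝ := if n = 0 then 1 else tot (bridges n)

/-- bridges of height `d` without cut level in `[a, d)` -/
noncomputable def mm (a d : ℕ) : ℝ :=
  tot {γ | γ ∈ bridges d ∧ ∀ t : ℤ, (a : ℤ) ≤ t → t < d → ¬ IsCut γ t}

/-- bridges with a cut level in each interval of the list -/
def Ev (N : ℕ) (l : List (ℝ × ℝ)) : Set (List V) :=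
  {γ | γ ∈ bridges N ∧ ∀ I ∈ l, ∃ t : ℤ, I.1 ≤ t ∧ (t : ℝ) ≤ I.2 ∧ IsCut γ t}

lemma uu_anti : Antitone uu := by
  refine antitone_nat_of_succ_le fun n => ?_
  rw [uu, uu, if_neg n.succ_ne_zero]
  split_ifs with h
  · exact bridges_le_one _
  · exact bridges_anti (by omega)

/-- bridges whose first cut level `≥ a` is `d` -/
def splitP (N a : ℕ) (P : List V → Prop) (d : ℕ) : Set (List V) :=
  {γ | γ ∈ bridges N ∧ IsCut γ d ∧ (∀ t : ℤ, (a : ℤ) ≤ t → t < d → ¬ IsCut γ t) ∧ P γ}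

lemma split_least {a : ℕ} {s : ℤ} (hc : IsCut γ s) (hs : (a : ℤ) ≤ s) : ∃ d : ℕ, a ≤ d ∧
    (d : ℤ) ≤ s ∧ IsCut γ d ∧ ∀ t : ℤ, (a : ℤ) ≤ t → t < d → ¬ IsCut γ t := by
  obtain ⟨d, ⟨d1, d2⟩, d3⟩ := Int.exists_least_of_bdd (P := fun t => (a : ℤ) ≤ t ∧ IsCut γ t)
    ⟨a, fun _ h => h.1⟩ ⟨s, hs, hc⟩
  lift d to ℕ using by omega
  exact ⟨d, by omega, d3 s ⟨hs, hc⟩, d2, fun t t1 t2 t3 => absurd (d3 t ⟨t1, t3⟩) (by omega)⟩

lemma split_disj (N a : ℕ) (P : List V → Prop) (s : Finset ℕ) (hs : ∀ d ∈ s, a ≤ d) :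
    (s : Set ℕ).PairwiseDisjoint (splitP N a P) := by
  intro d hd d' hd' hne
  refine Set.disjoint_left.2 fun γ h h' => ?_
  have h1 := hs d hd
  have h2 := hs d' hd'
  rcases lt_or_gt_of_ne hne with hl | hl
  · exact h'.2.2.1 d (by omega) (by omega) h.2.1
  · exact h.2.2.1 d' (by omega) (by omega) h'.2.1

lemma split_piece {N a d : ℕ} {P Q : List V → Prop} (h0 : 0 < d) (h1 : d < N)
    (hPQ : ∀ α ∈ bridges d, ∀ β ∈ bridges (N - d), P (glue α β) ↔ Q β) :
    tot (splitP N a P d) = mm a d * tot {β | β ∈ bridges (N - d) ∧ Q β} := by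
  rw [mm, ← tot_glue (t := d) (h := N - d) (fun _ h => h.1) fun _ h => h.1]
  congr 1
  ext γ
  constructor
  · rintro ⟨g1, g2, g3, g4⟩
    obtain ⟨α, hα, β, hβ, rfl⟩ := exists_glue g1 h0 h1 g2
    exact ⟨α, ⟨hα, fun t t1 t2 t3 => g3 t t1 t2 ((cut_glue_le hα hβ t2.le).2 t3)⟩, β,
      ⟨hβ, (hPQ α hα β hβ).1 g4⟩, rfl⟩
  · rintro ⟨α, ⟨hα, a1⟩, β, ⟨hβ, b1⟩, rfl⟩
    have := glue_mem hα hβ
    rw [show d + (N - d) = N by omega] at this
    exact ⟨this, (cut_glue_le hα hβ le_rfl).2 (cut_of_ge hα le_rfl),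
      fun t t1 t2 t3 => a1 t t1 t2 ((cut_glue_le hα hβ t2.le).1 t3), (hPQ α hα β hβ).2 b1⟩

/-- decomposition at the first cut level `≥ a` -/
theorem ren_first {a n : ℕ} (ha : 1 ≤ a) (hn : a ≤ n) :
    uu n = ∑ d ∈ Finset.Icc a n, mm a d * uu (n - d) := by
  have e : bridges n = ⋃ d ∈ Finset.Icc a n, splitP n a (fun _ => True) d := by
    ext γ
    simp only [Set.mem_iUnion, Finset.mem_Icc]
    constructor
    · intro hγ
      obtain ⟨d, d1, d2, d3, d4⟩ := split_least (a := a) (cut_of_ge hγ le_rfl) (by omega)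
      exact ⟨d, ⟨d1, by omega⟩, hγ, d3, d4, trivial⟩
    · rintro ⟨d, -, h, -⟩
      exact h
  rw [uu, if_neg (by omega), e, tot_biUnion _ _ (fun d _ _ h => h.1) (split_disj _ _ _ _ fun d hd =>
    (Finset.mem_Icc.1 hd).1)]
  refine Finset.sum_congr rfl fun d hd => ?_
  obtain ⟨d1, d2⟩ := Finset.mem_Icc.1 hd
  rcases d2.eq_or_lt with rfl | d2
  · rw [uu, if_pos (Nat.sub_self _), mul_one, mm]
    congr 1
    ext γ
    exact ⟨fun h => ⟨h.1, h.2.2.1⟩, fun h => ⟨h.1, cut_of_ge h.1 le_rfl, h.2, trivial⟩⟩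
  · rw [split_piece (Q := fun _ => True) (by omega) d2 fun _ _ _ _ => Iff.rfl, uu,
      if_neg (by omega)]
    simp

lemma ev_nil {N : ℕ} (hN : 1 ≤ N) : tot (Ev N []) = uu N := by
  rw [uu, if_neg (by omega)]
  congr 1
  ext γ
  simp [Ev]

theorem ev_cons {N : ℕ} {I : ℝ × ℝ} {l : List (ℝ × ℝ)} (h0 : 0 < I.1) (h1 : I.2 < N)
    (hl : ∀ J ∈ l, I.2 ≤ J.1) :
    tot (Ev N (I :: l)) = ∑ d ∈ Finset.Icc ⌈I.1⌉₊ ⌊I.2⌋₊,
      mm ⌈I.1⌉₊ d * tot (Ev (N - d) (l.map fun J => (J.1 - d, J.2 - d))) := by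
  have a1 : 0 < ⌈I.1⌉₊ := Nat.ceil_pos.2 h0
  have e : Ev N (I :: l) = ⋃ d ∈ Finset.Icc ⌈I.1⌉₊ ⌊I.2⌋₊, splitP N ⌈I.1⌉₊
      (fun γ => ∀ J ∈ l, ∃ t : ℤ, J.1 ≤ t ∧ (t : ℝ) ≤ J.2 ∧ IsCut γ t) d := by
    ext γ
    simp only [Set.mem_iUnion, Finset.mem_Icc]
    constructor
    · rintro ⟨hγ, h⟩
      obtain ⟨⟨s, s1, s2, s3⟩, h⟩ := List.forall_mem_cons.1 h
      have s0 : 0 ≤ s := by exact_mod_cast h0.le.trans s1
      lift s to ℕ using s0
      have s4 : ⌈I.1⌉₊ ≤ s := Nat.ceil_le.2 (by exact_mod_cast s1)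
      have s5 : s ≤ ⌊I.2⌋₊ := Nat.le_floor (by exact_mod_cast s2)
      obtain ⟨d, d1, d2, d3, d4⟩ := split_least (a := ⌈I.1⌉₊) s3 (by omega)
      exact ⟨d, ⟨d1, by omega⟩, hγ, d3, d4, h⟩
    · rintro ⟨d, ⟨d1, d2⟩, hγ, d3, -, h⟩
      exact ⟨hγ, List.forall_mem_cons.2 ⟨⟨d, by exact_mod_cast Nat.ceil_le.1 d1,
        by exact_mod_cast (Nat.le_floor_iff' (by omega)).1 d2, d3⟩, h⟩⟩
  rw [e, tot_biUnion _ _ (fun d _ _ h => h.1) (split_disj _ _ _ _ fun d hd =>
    (Finset.mem_Icc.1 hd).1)]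
  refine Finset.sum_congr rfl fun d hd => ?_
  obtain ⟨d1, d2⟩ := Finset.mem_Icc.1 hd
  have d3 : (d : ℝ) ≤ I.2 := (Nat.le_floor_iff' (by omega)).1 d2
  have d4 : d < N := by exact_mod_cast d3.trans_lt h1
  refine split_piece (by omega) d4 fun α hα β hβ => ?_
  rw [List.forall_mem_map]
  refine forall₂_congr fun J hJ => ⟨?_, ?_⟩
  · rintro ⟨t, t1, t2, t3⟩
    have : (d : ℤ) ≤ t := by exact_mod_cast (d3.trans (hl J hJ)).trans t1
    exact ⟨t - d, by push_cast; linarith, by push_cast; linarith, (cut_glue_ge hα hβ this).1 t3⟩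
  · rintro ⟨t, t1, t2, t3⟩
    have : (0 : ℤ) ≤ t := by
      have := hl J hJ
      exact_mod_cast (show (0 : ℝ) ≤ t by dsimp only at t1; linarith)
    dsimp only at t1 t2
    exact ⟨t + d, by push_cast; linarith, by push_cast; linarith,
      (cut_glue_ge hα hβ (by omega)).2 (by simpa using t3)⟩

end Pool.Agent.Lib.MP_4960b8_pr.RN
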